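import Mathlib

/-!
# Tangent cones of Schubert varieties: definitions

Indices are `0, ..., n - 1` (`Fin n`) instead of `1, ..., n`.
-/

open MvPolynomial

namespace Pool.Agent.W442.SV

/-- The Borel group `B` of invertible upper triangular matrices. -/
def borel (n : ℕ) : Set (Matrix (Fin n) (Fin n) ℂ) :=
  {b | IsUnit b.det ∧ ∀ i j, j < i → b i j = 0}

/-- The permutation matrix `e_w`: the `1` of column `j` is in row `w j`. -/
def permMat {n : ℕ} (w : Equiv.Perm (Fin n)) : Matrix (Fin n) (Fin n) ℂ :=
  Matrix.of fun i j => if i = w j then 1 else 0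

/-- The double coset `B w B`. -/
def doubleCoset {n : ℕ} (w : Equiv.Perm (Fin n)) : Set (Matrix (Fin n) (Fin n) ℂ) :=
  {g | ∃ b ∈ borel n, ∃ b' ∈ borel n, g = b * permMat w * b'}

/-- The Zariski closure of `B w B`: the matrices at which all polynomials in the matrix entries
vanish that vanish on `B w B`.  The Schubert variety `X_w`, the closure of the orbit of the coset of
`e_w` in the flag variety `GL_n / B`, consists of the cosets `g B` with `g` invertible and in this
set. -/
def schubert {n : ℕ} (w : Equiv.Perm (Fin n)) : Set (Matrix (Fin n) (Fin n) ℂ) :=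
  {g | ∀ f : MvPolynomial (Fin n × Fin n) ℂ,
    (∀ h ∈ doubleCoset w, eval (fun p => h p.1 p.2) f = 0) → eval (fun p => g p.1 p.2) f = 0}

/-- Positions strictly below the diagonal: the coordinates of an affine chart of `GL_n / B`. -/
abbrev Low (n : ℕ) : Type := {p : Fin n × Fin n // p.2 < p.1}

/-- The lower unitriangular matrix with given entries below the diagonal. -/
def uni {n : ℕ} (x : Low n → ℂ) : Matrix (Fin n) (Fin n) ℂ :=
  Matrix.of fun i j => if i = j then 1 else if h : j < i then x ⟨(i, j), h⟩ else 0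

/-- The chart of the flag variety around the coset of `e_v`: the affine space with coordinates
`Low n` is identified with the open set of the cosets of the matrices `e_v u`, where `u` is lower
unitriangular.  The origin is the coset of `e_v`. -/
def chart {n : ℕ} (v : Equiv.Perm (Fin n)) (x : Low n → ℂ) : Matrix (Fin n) (Fin n) ℂ :=
  permMat v * uni x

/-- The part of `X_w` in the chart around `e_v`. -/
def patch {n : ℕ} (v w : Equiv.Perm (Fin n)) : Set (Low n → ℂ) :=
  {x | chart v x ∈ schubert w}

/-- The coordinate ring of the part of `X_w` in the chart around `e_v`. -/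
abbrev PatchRing {n : ℕ} (v w : Equiv.Perm (Fin n)) : Type :=
  MvPolynomial (Low n) ℂ ⧸ vanishingIdeal ℂ (patch v w)

/-- The ideal of the origin. -/
noncomputable def originIdeal (σ : Type) : Ideal (MvPolynomial σ ℂ) :=
  RingHom.ker (eval (0 : σ → ℂ))

instance (σ : Type) : (originIdeal σ).IsPrime := RingHom.ker_isPrime _

/-- The classes of the polynomials that do not vanish at the origin. -/
noncomputable def nonvanishing {n : ℕ} (v w : Equiv.Perm (Fin n)) : Submonoid (PatchRing v w) :=
  (originIdeal (Low n)).primeCompl.map (Ideal.Quotient.mk (vanishingIdeal ℂ (patch v w)))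

/-- The local ring of `X_w` at `e_v`: the localization of the coordinate ring at the functions
that do not vanish at `e_v`. -/
abbrev LocalRing {n : ℕ} (v w : Equiv.Perm (Fin n)) : Type :=
  Localization (nonvanishing v w)

/-- The maximal ideal of the local ring (if `e_v` is a point of `X_w`): it is generated by the
functions that vanish at `e_v`. -/
noncomputable def mx {n : ℕ} (v w : Equiv.Perm (Fin n)) : Ideal (LocalRing v w) :=
  (originIdeal (Low n)).map ((algebraMap (PatchRing v w) (LocalRing v w)).comp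
    (Ideal.Quotient.mk (vanishingIdeal ℂ (patch v w))))

/-- The power `𝔪^(i+1)` of an ideal `𝔪` as a submodule of `𝔪^i`. -/
def nextPow {R : Type} [CommRing R] (m : Ideal R) (i : ℕ) : Submodule R ↥(m ^ i) :=
  Submodule.comap (Submodule.subtype (m ^ i)) (m ^ (i + 1))

/-- The quotient `𝔪^i / 𝔪^(i+1)`. -/
abbrev Layer {R : Type} [CommRing R] (m : Ideal R) (i : ℕ) : Type :=
  ↥(m ^ i) ⧸ nextPow m i

/-- The dimension of `𝔪^i / 𝔪^(i+1)` over the complex numbers. -/
noncomputable def grDim {R : Type} [CommRing R] [Algebra ℂ R] (m : Ideal R) (i : ℕ) : ℕ :=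
  Module.finrank ℂ (Layer m i)

/-- The dimension of `𝔪^i / 𝔪^(i+1)` for the local ring of `X_w` at `e_v`. -/
noncomputable def hilb {n : ℕ} (v w : Equiv.Perm (Fin n)) (i : ℕ) : ℕ :=
  grDim (R := LocalRing v w) (mx v w) i

/-- The number of inversions. -/
def len {n : ℕ} (w : Equiv.Perm (Fin n)) : ℕ :=
  (Finset.univ.filter fun p : Fin n × Fin n => p.1 < p.2 ∧ w p.2 < w p.1).card

/-- The coefficient of `q ^ i` in `H_{v,w}(q) = (1 - q)^(len w) * ∑ dim (𝔪^i / 𝔪^(i+1)) q ^ i`. -/
noncomputable def hcoeff {n : ℕ} (v w : Equiv.Perm (Fin n)) (i : ℕ) : ℤ :=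
  PowerSeries.coeff i
    ((1 - PowerSeries.X) ^ len w * PowerSeries.mk fun j => (hilb v w j : ℤ))

/-- Bruhat order on `S_n`: `v ≤ w` if `w` is obtained from `v` by successively exchanging the
values at two positions `i < j` where the value at `i` is smaller than the value at `j`. -/
def BruhatLE {n : ℕ} : Equiv.Perm (Fin n) → Equiv.Perm (Fin n) → Prop :=
  Relation.ReflTransGen fun v v' => ∃ i j, i < j ∧ v i < v j ∧ v' = v * Equiv.swap i j

/-- The submatrix in the rows `≥ p` and the columns `< q`. -/
def southWest {n : ℕ} (g : Matrix (Fin n) (Fin n) ℂ) (p q : ℕ) :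
    Matrix {i : Fin n // p ≤ (i : ℕ)} {j : Fin n // (j : ℕ) < q} ℂ :=
  g.submatrix Subtype.val Subtype.val

/-- The number of `1`s of `e_w` in the rows `≥ p` and the columns `< q`. -/
def swRank {n : ℕ} (w : Equiv.Perm (Fin n)) (p q : ℕ) : ℕ :=
  (Finset.univ.filter fun j : Fin n => (j : ℕ) < q ∧ p ≤ (w j : ℕ)).card

/-! ## Statements -/

/-- Bruhat decomposition (existence). -/
def S_bruhat : Prop := ∀ (n : ℕ) (g : Matrix (Fin n) (Fin n) ℂ), IsUnit g.det →
  ∃ u : Equiv.Perm (Fin n), g ∈ doubleCoset u

/-- One step up towards `w`, if `u` satisfies the rank conditions of `w`. -/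
def S_step : Prop := ∀ (n : ℕ) (u w : Equiv.Perm (Fin n)),
  (∀ p q : ℕ, swRank u p q ≤ swRank w p q) → u ≠ w →
  ∃ i j : Fin n, i < j ∧ u i < u j ∧ ∀ p q : ℕ, swRank (u * Equiv.swap i j) p q ≤ swRank w p q

/-- An invertible matrix that satisfies the rank conditions of `w` lies in the closure of `B w B`. -/
def S_clos : Prop := ∀ (n : ℕ) (w : Equiv.Perm (Fin n)) (g : Matrix (Fin n) (Fin n) ℂ),
  IsUnit g.det → (∀ p q : ℕ, (southWest g p q).rank ≤ swRank w p q) → g ∈ schubert w

/-- The dimension of `𝔪^i / 𝔪^(i+1)` for the localization of `ℂ[x]/I` at the origin, if the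
initial forms of degree `i` of the elements of `I` are exactly the combinations of the monomials
of degree `i` outside `N`. -/
def S_loc : Prop := ∀ (σ : Type) [Fintype σ] [DecidableEq σ] (I : Ideal (MvPolynomial σ ℂ))
  (_ : I ≤ originIdeal σ) (i : ℕ) (N : Finset (σ →₀ ℕ)) (_ : ∀ s ∈ N, s.degree = i)
  (_ : ∀ s : σ →₀ ℕ, s.degree = i → s ∉ N →
    ∃ g ∈ originIdeal σ ^ (i + 1), monomial s (1 : ℂ) + g ∈ I)
  (_ : ∀ f : MvPolynomial σ ℂ, f.IsHomogeneous i → ∀ g ∈ originIdeal σ ^ (i + 1), f + g ∈ I →
    ∀ s ∈ N, coeff s f = 0)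
  (m : Ideal (Localization ((originIdeal σ).primeCompl.map (Ideal.Quotient.mk I))))
  (_ : m = (originIdeal σ).map ((algebraMap (MvPolynomial σ ℂ ⧸ I)
    (Localization ((originIdeal σ).primeCompl.map (Ideal.Quotient.mk I)))).comp
    (Ideal.Quotient.mk I))),
  Module.finrank ℂ (↥(m ^ i) ⧸ Submodule.comap (Submodule.subtype (m ^ i)) (m ^ (i + 1))) = N.card

end Pool.Agent.W442.SV
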