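import Mathlib
import Pool.Agent.W442.SV.Defs

open MvPolynomial

namespace Pool.Agent.W442.SV

theorem uni_self {n : ℕ} (x : Low n → ℂ) (i : Fin n) : uni x i i = 1 := by simp [uni]

theorem uni_lt {n : ℕ} (x : Low n → ℂ) {i j : Fin n} (h : i < j) : uni x i j = 0 := by
  simp only [uni, Matrix.of_apply]
  rw [if_neg h.ne, dif_neg h.le.not_gt]

theorem uni_gt {n : ℕ} (x : Low n → ℂ) {i j : Fin n} (h : j < i) : uni x i j = x ⟨(i, j), h⟩ := by
  simp only [uni, Matrix.of_apply]
  rw [if_neg h.ne', dif_pos h]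

theorem chart_apply {n : ℕ} (v : Equiv.Perm (Fin n)) (x : Low n → ℂ) (a k : Fin n) :
    chart v x a k = uni x (v.symm a) k := by
  simp only [chart, Matrix.mul_apply, permMat, Matrix.of_apply, ite_mul, one_mul, zero_mul]
  rw [Finset.sum_eq_single (v.symm a)]
  · simp
  · intro b _ hb
    rw [if_neg]
    rintro rfl
    simp at hb
  · simp

theorem chart_apply' {n : ℕ} (v : Equiv.Perm (Fin n)) (x : Low n → ℂ) (i k : Fin n) :
    chart v x (v i) k = uni x i k := by simp [chart_apply]

theorem det_uni {n : ℕ} (x : Low n → ℂ) : (uni x).det = 1 := by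
  rw [Matrix.det_of_isLowerTriangular _ (by
    intro i j hij
    exact uni_lt x (by simpa using hij))]
  simp [uni_self]

theorem permMat_eq {n : ℕ} (w : Equiv.Perm (Fin n)) :
    permMat w = (Equiv.Perm.permMatrix ℂ w⁻¹) := by
  ext i j
  simp only [permMat, Matrix.of_apply, Equiv.Perm.permMatrix, PEquiv.toMatrix_apply,
    Equiv.toPEquiv_apply, Option.mem_def, Option.some.injEq]
  congr 1
  rw [Equiv.Perm.inv_eq_iff_eq]

theorem isUnit_det_permMat {n : ℕ} (w : Equiv.Perm (Fin n)) : IsUnit (permMat w).det := by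
  rw [permMat_eq, Matrix.det_permutation]
  exact ((Equiv.Perm.sign w⁻¹ : ℤˣ).isUnit).map (Int.castRingHom ℂ)

theorem isUnit_det_chart {n : ℕ} (v : Equiv.Perm (Fin n)) (x : Low n → ℂ) :
    IsUnit (chart v x).det := by
  rw [chart, Matrix.det_mul, det_uni, mul_one]
  exact isUnit_det_permMat v

/-- The point `v`. -/
def v0 : Equiv.Perm (Fin 10) where
  toFun := ![3, 0, 9, 7, 5, 4, 2, 8, 1, 6]
  invFun := ![1, 8, 6, 0, 5, 4, 9, 3, 7, 2]
  left_inv := by decide
  right_inv := by decide

/-- The Schubert variety of `w`. -/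
def w0 : Equiv.Perm (Fin 10) where
  toFun := ![7, 8, 9, 5, 3, 6, 2, 4, 0, 1]
  invFun := ![8, 9, 6, 4, 7, 3, 5, 0, 1, 2]
  left_inv := by decide
  right_inv := by decide

theorem len_w0 : len w0 = 37 := by decide +kernel

theorem bruhat_step {n : ℕ} {v w u : Equiv.Perm (Fin n)} (i j : Fin n) (hij : i < j)
    (hv : v i < v j) (hu : u = v * Equiv.swap i j) (h : BruhatLE u w) : BruhatLE v w :=
  Relation.ReflTransGen.head ⟨i, j, hij, hv, hu⟩ h

theorem v0_le_w0 : BruhatLE v0 w0 := by
  refine bruhat_step 0 3 (by decide) (by decide) rfl ?_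
  refine bruhat_step 1 3 (by decide) (by decide) rfl ?_
  refine bruhat_step 1 4 (by decide) (by decide) rfl ?_
  refine bruhat_step 1 7 (by decide) (by decide) rfl ?_
  refine bruhat_step 3 4 (by decide) (by decide) rfl ?_
  refine bruhat_step 3 5 (by decide) (by decide) rfl ?_
  refine bruhat_step 3 7 (by decide) (by decide) rfl ?_
  refine bruhat_step 4 5 (by decide) (by decide) rfl ?_
  refine bruhat_step 5 6 (by decide) (by decide) rfl ?_
  refine bruhat_step 5 7 (by decide) (by decide) rfl ?_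
  refine bruhat_step 5 9 (by decide) (by decide) rfl ?_
  refine bruhat_step 6 7 (by decide) (by decide) rfl ?_
  refine bruhat_step 7 8 (by decide) (by decide) rfl ?_
  refine bruhat_step 7 9 (by decide) (by decide) rfl ?_
  have h : v0 * Equiv.swap 0 3 * Equiv.swap 1 3 * Equiv.swap 1 4 * Equiv.swap 1 7 * Equiv.swap 3 4 * Equiv.swap 3 5 * Equiv.swap 3 7 * Equiv.swap 4 5 * Equiv.swap 5 6 * Equiv.swap 5 7 * Equiv.swap 5 9 * Equiv.swap 6 7 * Equiv.swap 7 8 * Equiv.swap 7 9 = w0 := by decide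
  rw [h]
  exact Relation.ReflTransGen.refl

end Pool.Agent.W442.SV
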