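import Mathlib
import Pool.Agent.W442.SV.Data

open MvPolynomial

namespace Pool.Agent.W442.SV

theorem minor_doubleCoset {n k : ℕ} (w : Equiv.Perm (Fin n)) {h : Matrix (Fin n) (Fin n) ℂ}
    (hh : h ∈ doubleCoset w) (p q : ℕ) (r c : Fin k → Fin n) (hr : ∀ a, p ≤ (r a : ℕ))
    (hc : ∀ b, (c b : ℕ) < q) (hk : swRank w p q < k) : (h.submatrix r c).det = 0 := by
  obtain ⟨b, hb, b', hb', rfl⟩ := hh
  let U : Matrix (Fin k) {j : Fin n // (j : ℕ) < q ∧ p ≤ (w j : ℕ)} ℂ :=
    Matrix.of fun a j => b (r a) (w j.1)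
  let V : Matrix {j : Fin n // (j : ℕ) < q ∧ p ≤ (w j : ℕ)} (Fin k) ℂ :=
    Matrix.of fun j a => b' j.1 (c a)
  have hJ : Fintype.card {j : Fin n // (j : ℕ) < q ∧ p ≤ (w j : ℕ)} = swRank w p q := by
    rw [swRank, Fintype.card_subtype]
  have hUV : (b * permMat w * b').submatrix r c = U * V := by
    ext a d
    simp only [Matrix.submatrix_apply, Matrix.mul_apply, U, V, Matrix.of_apply]
    have h1 : ∀ j : Fin n, (∑ i, b (r a) i * permMat w i j) = b (r a) (w j) := by
      intro j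
      rw [Finset.sum_eq_single (w j)]
      · simp [permMat]
      · intro i _ hi
        simp [permMat, hi]
      · simp
    simp_rw [h1]
    have h2 := Finset.sum_subtype (F := inferInstance) (p := fun j : Fin n => (j : ℕ) < q ∧ p ≤ (w j : ℕ))
      (Finset.univ.filter fun j : Fin n => (j : ℕ) < q ∧ p ≤ (w j : ℕ)) (by simp)
      (fun j : Fin n => b (r a) (w j) * b' j (c d))
    refine Eq.trans ?_ h2
    symm
    apply Finset.sum_filter_of_ne
    intro j _ hj
    constructor
    · by_contra hq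
      apply hj
      rw [hb'.2 j (c d) (by
        rw [Fin.lt_def]
        have := hc d
        omega), mul_zero]
    · by_contra hq
      apply hj
      rw [hb.2 (r a) (w j) (by
        rw [Fin.lt_def]
        have := hr a
        omega), zero_mul]
  by_contra hne
  have h3 : (U * V).rank = k := by
    have := Matrix.rank_of_isUnit (U * V) (by
      rw [Matrix.isUnit_iff_isUnit_det, ← hUV]
      exact isUnit_iff_ne_zero.mpr hne)
    simpa using this
  have h4 : (U * V).rank ≤ U.rank := Matrix.rank_mul_le_left U V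
  have h5 : U.rank ≤ Fintype.card {j : Fin n // (j : ℕ) < q ∧ p ≤ (w j : ℕ)} :=
    Matrix.rank_le_card_width U
  omega

theorem minor_schubert {n k : ℕ} (w : Equiv.Perm (Fin n)) {g : Matrix (Fin n) (Fin n) ℂ}
    (hg : g ∈ schubert w) (p q : ℕ) (r c : Fin k → Fin n) (hr : ∀ a, p ≤ (r a : ℕ))
    (hc : ∀ b, (c b : ℕ) < q) (hk : swRank w p q < k) : (g.submatrix r c).det = 0 := by
  have key : ∀ h : Matrix (Fin n) (Fin n) ℂ,
      eval (fun p : Fin n × Fin n => h p.1 p.2) (Matrix.det (Matrix.of fun a b : Fin k =>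
        (X (r a, c b) : MvPolynomial (Fin n × Fin n) ℂ))) = (h.submatrix r c).det := by
    intro h
    rw [RingHom.map_det]
    congr 1
    ext a b
    simp
  rw [← key g]
  apply hg
  intro h hh
  rw [key h]
  exact minor_doubleCoset w hh p q r c hr hc hk

/-- A vanishing minor gives a linear relation between the rows. -/
theorem row_relation {n k : ℕ} (w : Equiv.Perm (Fin n)) {g : Matrix (Fin n) (Fin n) ℂ}
    (hg : g ∈ schubert w) (p q : ℕ) (r c : Fin k → Fin n) (hr : ∀ a, p ≤ (r a : ℕ))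
    (hc : ∀ b, (c b : ℕ) < q) (hk : swRank w p q < k) :
    ∃ l : Fin k → ℂ, l ≠ 0 ∧ ∀ b, ∑ a, l a * g (r a) (c b) = 0 := by
  obtain ⟨l, hl, hl'⟩ := Matrix.exists_vecMul_eq_zero_iff.mpr
    (minor_schubert w hg p q r c hr hc hk)
  refine ⟨l, hl, fun b => ?_⟩
  have := congrFun hl' b
  simpa [Matrix.vecMul, dotProduct] using this

/-- A vanishing minor gives a linear relation between the columns. -/
theorem col_relation {n k : ℕ} (w : Equiv.Perm (Fin n)) {g : Matrix (Fin n) (Fin n) ℂ}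
    (hg : g ∈ schubert w) (p q : ℕ) (r c : Fin k → Fin n) (hr : ∀ a, p ≤ (r a : ℕ))
    (hc : ∀ b, (c b : ℕ) < q) (hk : swRank w p q < k) :
    ∃ l : Fin k → ℂ, l ≠ 0 ∧ ∀ a, ∑ b, g (r a) (c b) * l b = 0 := by
  obtain ⟨l, hl, hl'⟩ := Matrix.exists_mulVec_eq_zero_iff.mpr
    (minor_schubert w hg p q r c hr hc hk)
  refine ⟨l, hl, fun a => ?_⟩
  have := congrFun hl' a
  simpa [Matrix.mulVec, dotProduct] using this

end Pool.Agent.W442.SV
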