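import Mathlib
import Pool.Agent.W442.SV.Minor

open MvPolynomial

namespace Pool.Agent.W442.SV

/-- The polynomial ring of the chart. -/
abbrev A10 : Type := MvPolynomial (Low 10) ℂ

/-- The coordinate with index `(i, k)`. -/
def ix (i k : Fin 10) : Low 10 := if h : k < i then ⟨(i, k), h⟩ else ⟨(1, 0), Nat.one_pos⟩

theorem det2 {a b c d l m : ℂ} (h : l ≠ 0 ∨ m ≠ 0) (h1 : l * a + m * b = 0)
    (h2 : l * c + m * d = 0) : a * d - b * c = 0 := by
  rcases h with h | h
  · have : l * (a * d - b * c) = 0 := by linear_combination d * h1 - b * h2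
    exact (mul_eq_zero.mp this).resolve_left h
  · have : m * (a * d - b * c) = 0 := by linear_combination a * h2 - c * h1
    exact (mul_eq_zero.mp this).resolve_left h

section entries
variable (x : Low 10 → ℂ)

theorem e00 : chart v0 x 0 0 = x (ix 1 0) := by
  rw [chart_apply]; exact uni_gt x (by decide)
theorem e01 : chart v0 x 0 1 = 1 := by rw [chart_apply]; exact uni_self x _
theorem e02 : chart v0 x 0 2 = 0 := by
  rw [chart_apply]; exact uni_lt x (by decide)
theorem e03 : chart v0 x 0 3 = 0 := by
  rw [chart_apply]; exact uni_lt x (by decide)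
theorem e04 : chart v0 x 0 4 = 0 := by
  rw [chart_apply]; exact uni_lt x (by decide)
theorem e05 : chart v0 x 0 5 = 0 := by
  rw [chart_apply]; exact uni_lt x (by decide)
theorem e06 : chart v0 x 0 6 = 0 := by
  rw [chart_apply]; exact uni_lt x (by decide)
theorem e07 : chart v0 x 0 7 = 0 := by
  rw [chart_apply]; exact uni_lt x (by decide)
theorem e08 : chart v0 x 0 8 = 0 := by
  rw [chart_apply]; exact uni_lt x (by decide)
theorem e09 : chart v0 x 0 9 = 0 := by
  rw [chart_apply]; exact uni_lt x (by decide)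
theorem e10 : chart v0 x 1 0 = x (ix 8 0) := by
  rw [chart_apply]; exact uni_gt x (by decide)
theorem e11 : chart v0 x 1 1 = x (ix 8 1) := by
  rw [chart_apply]; exact uni_gt x (by decide)
theorem e12 : chart v0 x 1 2 = x (ix 8 2) := by
  rw [chart_apply]; exact uni_gt x (by decide)
theorem e13 : chart v0 x 1 3 = x (ix 8 3) := by
  rw [chart_apply]; exact uni_gt x (by decide)
theorem e14 : chart v0 x 1 4 = x (ix 8 4) := by
  rw [chart_apply]; exact uni_gt x (by decide)
theorem e15 : chart v0 x 1 5 = x (ix 8 5) := by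
  rw [chart_apply]; exact uni_gt x (by decide)
theorem e16 : chart v0 x 1 6 = x (ix 8 6) := by
  rw [chart_apply]; exact uni_gt x (by decide)
theorem e17 : chart v0 x 1 7 = x (ix 8 7) := by
  rw [chart_apply]; exact uni_gt x (by decide)
theorem e18 : chart v0 x 1 8 = 1 := by rw [chart_apply]; exact uni_self x _
theorem e19 : chart v0 x 1 9 = 0 := by
  rw [chart_apply]; exact uni_lt x (by decide)
theorem e20 : chart v0 x 2 0 = x (ix 6 0) := by
  rw [chart_apply]; exact uni_gt x (by decide)
theorem e21 : chart v0 x 2 1 = x (ix 6 1) := by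
  rw [chart_apply]; exact uni_gt x (by decide)
theorem e22 : chart v0 x 2 2 = x (ix 6 2) := by
  rw [chart_apply]; exact uni_gt x (by decide)
theorem e23 : chart v0 x 2 3 = x (ix 6 3) := by
  rw [chart_apply]; exact uni_gt x (by decide)
theorem e24 : chart v0 x 2 4 = x (ix 6 4) := by
  rw [chart_apply]; exact uni_gt x (by decide)
theorem e25 : chart v0 x 2 5 = x (ix 6 5) := by
  rw [chart_apply]; exact uni_gt x (by decide)
theorem e26 : chart v0 x 2 6 = 1 := by rw [chart_apply]; exact uni_self x _
theorem e27 : chart v0 x 2 7 = 0 := by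
  rw [chart_apply]; exact uni_lt x (by decide)
theorem e28 : chart v0 x 2 8 = 0 := by
  rw [chart_apply]; exact uni_lt x (by decide)
theorem e29 : chart v0 x 2 9 = 0 := by
  rw [chart_apply]; exact uni_lt x (by decide)
theorem e30 : chart v0 x 3 0 = 1 := by rw [chart_apply]; exact uni_self x _
theorem e31 : chart v0 x 3 1 = 0 := by
  rw [chart_apply]; exact uni_lt x (by decide)
theorem e32 : chart v0 x 3 2 = 0 := by
  rw [chart_apply]; exact uni_lt x (by decide)
theorem e33 : chart v0 x 3 3 = 0 := by
  rw [chart_apply]; exact uni_lt x (by decide)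
theorem e34 : chart v0 x 3 4 = 0 := by
  rw [chart_apply]; exact uni_lt x (by decide)
theorem e35 : chart v0 x 3 5 = 0 := by
  rw [chart_apply]; exact uni_lt x (by decide)
theorem e36 : chart v0 x 3 6 = 0 := by
  rw [chart_apply]; exact uni_lt x (by decide)
theorem e37 : chart v0 x 3 7 = 0 := by
  rw [chart_apply]; exact uni_lt x (by decide)
theorem e38 : chart v0 x 3 8 = 0 := by
  rw [chart_apply]; exact uni_lt x (by decide)
theorem e39 : chart v0 x 3 9 = 0 := by
  rw [chart_apply]; exact uni_lt x (by decide)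
theorem e40 : chart v0 x 4 0 = x (ix 5 0) := by
  rw [chart_apply]; exact uni_gt x (by decide)
theorem e41 : chart v0 x 4 1 = x (ix 5 1) := by
  rw [chart_apply]; exact uni_gt x (by decide)
theorem e42 : chart v0 x 4 2 = x (ix 5 2) := by
  rw [chart_apply]; exact uni_gt x (by decide)
theorem e43 : chart v0 x 4 3 = x (ix 5 3) := by
  rw [chart_apply]; exact uni_gt x (by decide)
theorem e44 : chart v0 x 4 4 = x (ix 5 4) := by
  rw [chart_apply]; exact uni_gt x (by decide)
theorem e45 : chart v0 x 4 5 = 1 := by rw [chart_apply]; exact uni_self x _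
theorem e46 : chart v0 x 4 6 = 0 := by
  rw [chart_apply]; exact uni_lt x (by decide)
theorem e47 : chart v0 x 4 7 = 0 := by
  rw [chart_apply]; exact uni_lt x (by decide)
theorem e48 : chart v0 x 4 8 = 0 := by
  rw [chart_apply]; exact uni_lt x (by decide)
theorem e49 : chart v0 x 4 9 = 0 := by
  rw [chart_apply]; exact uni_lt x (by decide)
theorem e50 : chart v0 x 5 0 = x (ix 4 0) := by
  rw [chart_apply]; exact uni_gt x (by decide)
theorem e51 : chart v0 x 5 1 = x (ix 4 1) := by
  rw [chart_apply]; exact uni_gt x (by decide)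
theorem e52 : chart v0 x 5 2 = x (ix 4 2) := by
  rw [chart_apply]; exact uni_gt x (by decide)
theorem e53 : chart v0 x 5 3 = x (ix 4 3) := by
  rw [chart_apply]; exact uni_gt x (by decide)
theorem e54 : chart v0 x 5 4 = 1 := by rw [chart_apply]; exact uni_self x _
theorem e55 : chart v0 x 5 5 = 0 := by
  rw [chart_apply]; exact uni_lt x (by decide)
theorem e56 : chart v0 x 5 6 = 0 := by
  rw [chart_apply]; exact uni_lt x (by decide)
theorem e57 : chart v0 x 5 7 = 0 := by
  rw [chart_apply]; exact uni_lt x (by decide)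
theorem e58 : chart v0 x 5 8 = 0 := by
  rw [chart_apply]; exact uni_lt x (by decide)
theorem e59 : chart v0 x 5 9 = 0 := by
  rw [chart_apply]; exact uni_lt x (by decide)
theorem e60 : chart v0 x 6 0 = x (ix 9 0) := by
  rw [chart_apply]; exact uni_gt x (by decide)
theorem e61 : chart v0 x 6 1 = x (ix 9 1) := by
  rw [chart_apply]; exact uni_gt x (by decide)
theorem e62 : chart v0 x 6 2 = x (ix 9 2) := by
  rw [chart_apply]; exact uni_gt x (by decide)
theorem e63 : chart v0 x 6 3 = x (ix 9 3) := by
  rw [chart_apply]; exact uni_gt x (by decide)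
theorem e64 : chart v0 x 6 4 = x (ix 9 4) := by
  rw [chart_apply]; exact uni_gt x (by decide)
theorem e65 : chart v0 x 6 5 = x (ix 9 5) := by
  rw [chart_apply]; exact uni_gt x (by decide)
theorem e66 : chart v0 x 6 6 = x (ix 9 6) := by
  rw [chart_apply]; exact uni_gt x (by decide)
theorem e67 : chart v0 x 6 7 = x (ix 9 7) := by
  rw [chart_apply]; exact uni_gt x (by decide)
theorem e68 : chart v0 x 6 8 = x (ix 9 8) := by
  rw [chart_apply]; exact uni_gt x (by decide)
theorem e69 : chart v0 x 6 9 = 1 := by rw [chart_apply]; exact uni_self x _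
theorem e70 : chart v0 x 7 0 = x (ix 3 0) := by
  rw [chart_apply]; exact uni_gt x (by decide)
theorem e71 : chart v0 x 7 1 = x (ix 3 1) := by
  rw [chart_apply]; exact uni_gt x (by decide)
theorem e72 : chart v0 x 7 2 = x (ix 3 2) := by
  rw [chart_apply]; exact uni_gt x (by decide)
theorem e73 : chart v0 x 7 3 = 1 := by rw [chart_apply]; exact uni_self x _
theorem e74 : chart v0 x 7 4 = 0 := by
  rw [chart_apply]; exact uni_lt x (by decide)
theorem e75 : chart v0 x 7 5 = 0 := by
  rw [chart_apply]; exact uni_lt x (by decide)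
theorem e76 : chart v0 x 7 6 = 0 := by
  rw [chart_apply]; exact uni_lt x (by decide)
theorem e77 : chart v0 x 7 7 = 0 := by
  rw [chart_apply]; exact uni_lt x (by decide)
theorem e78 : chart v0 x 7 8 = 0 := by
  rw [chart_apply]; exact uni_lt x (by decide)
theorem e79 : chart v0 x 7 9 = 0 := by
  rw [chart_apply]; exact uni_lt x (by decide)
theorem e80 : chart v0 x 8 0 = x (ix 7 0) := by
  rw [chart_apply]; exact uni_gt x (by decide)
theorem e81 : chart v0 x 8 1 = x (ix 7 1) := by
  rw [chart_apply]; exact uni_gt x (by decide)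
theorem e82 : chart v0 x 8 2 = x (ix 7 2) := by
  rw [chart_apply]; exact uni_gt x (by decide)
theorem e83 : chart v0 x 8 3 = x (ix 7 3) := by
  rw [chart_apply]; exact uni_gt x (by decide)
theorem e84 : chart v0 x 8 4 = x (ix 7 4) := by
  rw [chart_apply]; exact uni_gt x (by decide)
theorem e85 : chart v0 x 8 5 = x (ix 7 5) := by
  rw [chart_apply]; exact uni_gt x (by decide)
theorem e86 : chart v0 x 8 6 = x (ix 7 6) := by
  rw [chart_apply]; exact uni_gt x (by decide)
theorem e87 : chart v0 x 8 7 = 1 := by rw [chart_apply]; exact uni_self x _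
theorem e88 : chart v0 x 8 8 = 0 := by
  rw [chart_apply]; exact uni_lt x (by decide)
theorem e89 : chart v0 x 8 9 = 0 := by
  rw [chart_apply]; exact uni_lt x (by decide)
theorem e90 : chart v0 x 9 0 = x (ix 2 0) := by
  rw [chart_apply]; exact uni_gt x (by decide)
theorem e91 : chart v0 x 9 1 = x (ix 2 1) := by
  rw [chart_apply]; exact uni_gt x (by decide)
theorem e92 : chart v0 x 9 2 = 1 := by rw [chart_apply]; exact uni_self x _
theorem e93 : chart v0 x 9 3 = 0 := by
  rw [chart_apply]; exact uni_lt x (by decide)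
theorem e94 : chart v0 x 9 4 = 0 := by
  rw [chart_apply]; exact uni_lt x (by decide)
theorem e95 : chart v0 x 9 5 = 0 := by
  rw [chart_apply]; exact uni_lt x (by decide)
theorem e96 : chart v0 x 9 6 = 0 := by
  rw [chart_apply]; exact uni_lt x (by decide)
theorem e97 : chart v0 x 9 7 = 0 := by
  rw [chart_apply]; exact uni_lt x (by decide)
theorem e98 : chart v0 x 9 8 = 0 := by
  rw [chart_apply]; exact uni_lt x (by decide)
theorem e99 : chart v0 x 9 9 = 0 := by
  rw [chart_apply]; exact uni_lt x (by decide)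

end entries

end Pool.Agent.W442.SV
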