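import Mathlib
import Pool.Agent.W442.SV.Entries

open MvPolynomial

set_option linter.unusedSimpArgs false

namespace Pool.Agent.W442.SV

variable {x : Low 10 → ℂ}

theorem r90 (hx : x ∈ patch v0 w0) : x (ix 2 0) = 0 := by
  have h := minor_schubert w0 hx 9 2 (k := 1) ![9] ![0] (by decide) (by decide) (by decide)
  rw [Matrix.det_fin_one] at h
  exact (e90 x).symm.trans h

theorem r91 (hx : x ∈ patch v0 w0) : x (ix 2 1) = 0 := by
  have h := minor_schubert w0 hx 9 2 (k := 1) ![9] ![1] (by decide) (by decide) (by decide)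
  rw [Matrix.det_fin_one] at h
  exact (e91 x).symm.trans h

theorem r80 (hx : x ∈ patch v0 w0) : x (ix 7 0) = 0 := by
  have h := minor_schubert w0 hx 8 1 (k := 1) ![8] ![0] (by decide) (by decide) (by decide)
  rw [Matrix.det_fin_one] at h
  exact (e80 x).symm.trans h

/-- A polynomial that vanishes on the patch. -/
def FPQ {R : Type} [CommRing R] (x : Low 10 → R) : R :=
  (x (ix 9 0) - x (ix 9 3) * x (ix 3 0)) * (x (ix 7 1) - x (ix 7 3) * x (ix 3 1)) - (-(x (ix 7 3) * x (ix 3 0))) * (x (ix 9 1) - x (ix 9 3) * x (ix 3 1))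

theorem rPQ (hx : x ∈ patch v0 w0) : FPQ x = 0 := by
  unfold FPQ
  obtain ⟨z, hz, hb⟩ := row_relation w0 hx 6 5 (k := 4) ![6, 7, 8, 9] ![0, 1, 2, 3]
    (by decide) (by decide) (by decide)
  have h0 := hb 0
  have h1 := hb 1
  have h2 := hb 2
  have h3 := hb 3
  simp [Fin.sum_univ_succ, e60, e61, e62, e63, e70, e71, e72, e73, e80, e81, e82, e83, e90, e91, e92, e93, r90 hx, r91 hx, r80 hx] at h0 h1 h2 h3
  have hne : z 0 ≠ 0 ∨ z 2 ≠ 0 := by
    by_contra hcon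
    push Not at hcon
    obtain ⟨a0, a2⟩ := hcon
    simp only [a0, a2, zero_mul, zero_add, add_zero] at h3
    simp only [a0, a2, h3, zero_mul, zero_add] at h2
    apply hz
    funext i
    fin_cases i
    exacts [a0, h3, a2, h2]
  refine det2 hne ?_ ?_
  · linear_combination h0 - x (ix 3 0) * h3
  · linear_combination h1 - x (ix 3 1) * h3

/-- A polynomial that vanishes on the patch. -/
def FPu {R : Type} [CommRing R] (x : Low 10 → R) : R :=
  (x (ix 9 0) - x (ix 9 3) * x (ix 3 0)) * (x (ix 7 4)) - (-(x (ix 7 3) * x (ix 3 0))) * (x (ix 9 4))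

theorem rPu (hx : x ∈ patch v0 w0) : FPu x = 0 := by
  unfold FPu
  obtain ⟨z, hz, hb⟩ := row_relation w0 hx 6 5 (k := 4) ![6, 7, 8, 9] ![0, 2, 3, 4]
    (by decide) (by decide) (by decide)
  have h0 := hb 0
  have h2 := hb 1
  have h3 := hb 2
  have h4 := hb 3
  simp [Fin.sum_univ_succ, e60, e62, e63, e64, e70, e72, e73, e74, e80, e82, e83, e84, e90, e92, e93, e94, r90 hx, r91 hx, r80 hx] at h0 h2 h3 h4
  have hne : z 0 ≠ 0 ∨ z 2 ≠ 0 := by
    by_contra hcon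
    push Not at hcon
    obtain ⟨a0, a2⟩ := hcon
    simp only [a0, a2, zero_mul, zero_add, add_zero] at h3
    simp only [a0, a2, h3, zero_mul, zero_add] at h2
    apply hz
    funext i
    fin_cases i
    exacts [a0, h3, a2, h2]
  refine det2 hne ?_ ?_
  · linear_combination h0 - x (ix 3 0) * h3
  · linear_combination h4

/-- A polynomial that vanishes on the patch. -/
def FsQ {R : Type} [CommRing R] (x : Low 10 → R) : R :=
  (x (ix 9 1) - x (ix 9 3) * x (ix 3 1)) * (x (ix 7 4)) - (x (ix 7 1) - x (ix 7 3) * x (ix 3 1)) * (x (ix 9 4))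

theorem rsQ (hx : x ∈ patch v0 w0) : FsQ x = 0 := by
  unfold FsQ
  obtain ⟨z, hz, hb⟩ := row_relation w0 hx 6 5 (k := 4) ![6, 7, 8, 9] ![1, 2, 3, 4]
    (by decide) (by decide) (by decide)
  have h1 := hb 0
  have h2 := hb 1
  have h3 := hb 2
  have h4 := hb 3
  simp [Fin.sum_univ_succ, e61, e62, e63, e64, e71, e72, e73, e74, e81, e82, e83, e84, e91, e92, e93, e94, r90 hx, r91 hx, r80 hx] at h1 h2 h3 h4
  have hne : z 0 ≠ 0 ∨ z 2 ≠ 0 := by
    by_contra hcon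
    push Not at hcon
    obtain ⟨a0, a2⟩ := hcon
    simp only [a0, a2, zero_mul, zero_add, add_zero] at h3
    simp only [a0, a2, h3, zero_mul, zero_add] at h2
    apply hz
    funext i
    fin_cases i
    exacts [a0, h3, a2, h2]
  refine det2 hne ?_ ?_
  · linear_combination h1 - x (ix 3 1) * h3
  · linear_combination h4

/-- A polynomial that vanishes on the patch. -/
def Fx2P {R : Type} [CommRing R] (x : Low 10 → R) : R :=
  (x (ix 5 0) - x (ix 5 3) * x (ix 3 0) - x (ix 5 4) * (x (ix 4 0) - x (ix 4 3) * x (ix 3 0))) * (x (ix 9 1) - x (ix 9 3) * x (ix 3 1) - x (ix 9 4) * (x (ix 4 1) - x (ix 4 3) * x (ix 3 1))) - (x (ix 5 1) - x (ix 5 3) * x (ix 3 1) - x (ix 5 4) * (x (ix 4 1) - x (ix 4 3) * x (ix 3 1))) * (x (ix 9 0) - x (ix 9 3) * x (ix 3 0) - x (ix 9 4) * (x (ix 4 0) - x (ix 4 3) * x (ix 3 0)))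

theorem rx2P (hx : x ∈ patch v0 w0) : Fx2P x = 0 := by
  unfold Fx2P
  obtain ⟨z, hz, hb⟩ := col_relation w0 hx 4 5 (k := 5) ![4, 5, 6, 7, 9] ![0, 1, 2, 3, 4]
    (by decide) (by decide) (by decide)
  have h4 := hb 0
  have h5 := hb 1
  have h6 := hb 2
  have h7 := hb 3
  have h9 := hb 4
  simp [Fin.sum_univ_succ, e40, e41, e42, e43, e44, e50, e51, e52, e53, e54, e60, e61, e62, e63, e64, e70, e71, e72, e73, e74, e90, e91, e92, e93, e94, r90 hx, r91 hx, r80 hx] at h4 h5 h6 h7 h9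
  have hne : z 0 ≠ 0 ∨ z 1 ≠ 0 := by
    by_contra hcon
    push Not at hcon
    obtain ⟨a0, a1⟩ := hcon
    simp only [a0, a1, h9, mul_zero, zero_add, add_zero] at h7
    simp only [a0, a1, h9, h7, mul_zero, zero_add] at h5
    apply hz
    funext i
    fin_cases i
    exacts [a0, a1, h9, h7, h5]
  refine det2 hne ?_ ?_
  · linear_combination h4 - x (ix 5 3) * h7 - x (ix 5 4) * (h5 - x (ix 4 3) * h7) - (x (ix 5 2) - x (ix 5 3) * x (ix 3 2) - x (ix 5 4) * (x (ix 4 2) - x (ix 4 3) * x (ix 3 2))) * h9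
  · linear_combination h6 - x (ix 9 3) * h7 - x (ix 9 4) * (h5 - x (ix 4 3) * h7) - (x (ix 9 2) - x (ix 9 3) * x (ix 3 2) - x (ix 9 4) * (x (ix 4 2) - x (ix 4 3) * x (ix 3 2))) * h9

/-- A polynomial that vanishes on the patch. -/
def Fx1Q {R : Type} [CommRing R] (x : Low 10 → R) : R :=
  (x (ix 5 0) - x (ix 5 3) * x (ix 3 0) - x (ix 5 4) * (x (ix 4 0) - x (ix 4 3) * x (ix 3 0))) * (x (ix 7 1) - x (ix 7 3) * x (ix 3 1) - x (ix 7 4) * (x (ix 4 1) - x (ix 4 3) * x (ix 3 1))) - (x (ix 5 1) - x (ix 5 3) * x (ix 3 1) - x (ix 5 4) * (x (ix 4 1) - x (ix 4 3) * x (ix 3 1))) * (-(x (ix 7 3) * x (ix 3 0)) - x (ix 7 4) * (x (ix 4 0) - x (ix 4 3) * x (ix 3 0)))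

theorem rx1Q (hx : x ∈ patch v0 w0) : Fx1Q x = 0 := by
  unfold Fx1Q
  obtain ⟨z, hz, hb⟩ := col_relation w0 hx 4 5 (k := 5) ![4, 5, 7, 8, 9] ![0, 1, 2, 3, 4]
    (by decide) (by decide) (by decide)
  have h4 := hb 0
  have h5 := hb 1
  have h7 := hb 2
  have h8 := hb 3
  have h9 := hb 4
  simp [Fin.sum_univ_succ, e40, e41, e42, e43, e44, e50, e51, e52, e53, e54, e70, e71, e72, e73, e74, e80, e81, e82, e83, e84, e90, e91, e92, e93, e94, r90 hx, r91 hx, r80 hx] at h4 h5 h7 h8 h9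
  have hne : z 0 ≠ 0 ∨ z 1 ≠ 0 := by
    by_contra hcon
    push Not at hcon
    obtain ⟨a0, a1⟩ := hcon
    simp only [a0, a1, h9, mul_zero, zero_add, add_zero] at h7
    simp only [a0, a1, h9, h7, mul_zero, zero_add] at h5
    apply hz
    funext i
    fin_cases i
    exacts [a0, a1, h9, h7, h5]
  refine det2 hne ?_ ?_
  · linear_combination h4 - x (ix 5 3) * h7 - x (ix 5 4) * (h5 - x (ix 4 3) * h7) - (x (ix 5 2) - x (ix 5 3) * x (ix 3 2) - x (ix 5 4) * (x (ix 4 2) - x (ix 4 3) * x (ix 3 2))) * h9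
  · linear_combination h8 - x (ix 7 3) * h7 - x (ix 7 4) * (h5 - x (ix 4 3) * h7) - (x (ix 7 2) - x (ix 7 3) * x (ix 3 2) - x (ix 7 4) * (x (ix 4 2) - x (ix 4 3) * x (ix 3 2))) * h9

/-- A polynomial that vanishes on the patch. -/
def FPv {R : Type} [CommRing R] (x : Low 10 → R) : R :=
  (x (ix 9 0) - x (ix 9 5) * x (ix 5 0) - (x (ix 9 4) - x (ix 5 4) * x (ix 9 5)) * x (ix 4 0) - (x (ix 9 3) - x (ix 5 3) * x (ix 9 5) - x (ix 4 3) * (x (ix 9 4) - x (ix 5 4) * x (ix 9 5))) * x (ix 3 0)) * (x (ix 7 6)) - (-(x (ix 7 5) * x (ix 5 0)) - (x (ix 7 4) - x (ix 5 4) * x (ix 7 5)) * x (ix 4 0) - (x (ix 7 3) - x (ix 5 3) * x (ix 7 5) - x (ix 4 3) * (x (ix 7 4) - x (ix 5 4) * x (ix 7 5))) * x (ix 3 0)) * (x (ix 9 6))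

theorem rPv (hx : x ∈ patch v0 w0) : FPv x = 0 := by
  unfold FPv
  obtain ⟨z, hz, hb⟩ := row_relation w0 hx 4 7 (k := 6) ![4, 5, 6, 7, 8, 9] ![0, 2, 3, 4, 5, 6]
    (by decide) (by decide) (by decide)
  have h0 := hb 0
  have h2 := hb 1
  have h3 := hb 2
  have h4 := hb 3
  have h5 := hb 4
  have h6 := hb 5
  simp [Fin.sum_univ_succ, e40, e42, e43, e44, e45, e46, e50, e52, e53, e54, e55, e56, e60, e62, e63, e64, e65, e66, e70, e72, e73, e74, e75, e76, e80, e82, e83, e84, e85, e86, e90, e92, e93, e94, e95, e96, r90 hx, r91 hx, r80 hx] at h0 h2 h3 h4 h5 h6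
  have hne : z 2 ≠ 0 ∨ z 4 ≠ 0 := by
    by_contra hcon
    push Not at hcon
    obtain ⟨a2, a4⟩ := hcon
    simp only [a2, a4, zero_mul, zero_add, add_zero] at h5
    simp only [a2, a4, h5, zero_mul, zero_add, add_zero] at h4
    simp only [a2, a4, h5, h4, zero_mul, zero_add, add_zero] at h3
    simp only [a2, a4, h5, h4, h3, zero_mul, zero_add] at h2
    apply hz
    funext i
    fin_cases i
    exacts [h5, h4, a2, h3, a4, h2]
  refine det2 hne ?_ ?_
  · linear_combination h0 - x (ix 5 0) * h5 - x (ix 4 0) * (h4 - x (ix 5 4) * h5) - x (ix 3 0) * (h3 - x (ix 5 3) * h5 - x (ix 4 3) * (h4 - x (ix 5 4) * h5))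
  · linear_combination h6

/-- A polynomial that vanishes on the patch. -/
def FtQ {R : Type} [CommRing R] (x : Low 10 → R) : R :=
  (x (ix 9 1) - x (ix 9 5) * x (ix 5 1) - (x (ix 9 4) - x (ix 5 4) * x (ix 9 5)) * x (ix 4 1) - (x (ix 9 3) - x (ix 5 3) * x (ix 9 5) - x (ix 4 3) * (x (ix 9 4) - x (ix 5 4) * x (ix 9 5))) * x (ix 3 1)) * (x (ix 7 6)) - (x (ix 7 1) - x (ix 7 5) * x (ix 5 1) - (x (ix 7 4) - x (ix 5 4) * x (ix 7 5)) * x (ix 4 1) - (x (ix 7 3) - x (ix 5 3) * x (ix 7 5) - x (ix 4 3) * (x (ix 7 4) - x (ix 5 4) * x (ix 7 5))) * x (ix 3 1)) * (x (ix 9 6))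

theorem rtQ (hx : x ∈ patch v0 w0) : FtQ x = 0 := by
  unfold FtQ
  obtain ⟨z, hz, hb⟩ := row_relation w0 hx 4 7 (k := 6) ![4, 5, 6, 7, 8, 9] ![1, 2, 3, 4, 5, 6]
    (by decide) (by decide) (by decide)
  have h1 := hb 0
  have h2 := hb 1
  have h3 := hb 2
  have h4 := hb 3
  have h5 := hb 4
  have h6 := hb 5
  simp [Fin.sum_univ_succ, e41, e42, e43, e44, e45, e46, e51, e52, e53, e54, e55, e56, e61, e62, e63, e64, e65, e66, e71, e72, e73, e74, e75, e76, e81, e82, e83, e84, e85, e86, e91, e92, e93, e94, e95, e96, r90 hx, r91 hx, r80 hx] at h1 h2 h3 h4 h5 h6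
  have hne : z 2 ≠ 0 ∨ z 4 ≠ 0 := by
    by_contra hcon
    push Not at hcon
    obtain ⟨a2, a4⟩ := hcon
    simp only [a2, a4, zero_mul, zero_add, add_zero] at h5
    simp only [a2, a4, h5, zero_mul, zero_add, add_zero] at h4
    simp only [a2, a4, h5, h4, zero_mul, zero_add, add_zero] at h3
    simp only [a2, a4, h5, h4, h3, zero_mul, zero_add] at h2
    apply hz
    funext i
    fin_cases i
    exacts [h5, h4, a2, h3, a4, h2]
  refine det2 hne ?_ ?_
  · linear_combination h1 - x (ix 5 1) * h5 - x (ix 4 1) * (h4 - x (ix 5 4) * h5) - x (ix 3 1) * (h3 - x (ix 5 3) * h5 - x (ix 4 3) * (h4 - x (ix 5 4) * h5))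
  · linear_combination h6

/-- An auxiliary expression. -/
def E5 {R : Type} [CommRing R] (x : Low 10 → R) : R :=
  x (ix 4 1) - x (ix 4 3) * x (ix 3 1)

/-- An auxiliary expression. -/
def E4 {R : Type} [CommRing R] (x : Low 10 → R) : R :=
  x (ix 5 1) - x (ix 5 3) * x (ix 3 1) - x (ix 5 4) * (E5 x)

/-- An auxiliary expression. -/
def E2 {R : Type} [CommRing R] (x : Low 10 → R) : R :=
  x (ix 6 1) - x (ix 6 3) * x (ix 3 1) - x (ix 6 4) * (E5 x) - x (ix 6 5) * (E4 x)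

/-- An auxiliary expression. -/
def E8 {R : Type} [CommRing R] (x : Low 10 → R) : R :=
  x (ix 7 1) - x (ix 7 3) * x (ix 3 1) - x (ix 7 4) * (E5 x) - x (ix 7 5) * (E4 x) - x (ix 7 6) * (E2 x)

/-- An auxiliary expression. -/
def E1 {R : Type} [CommRing R] (x : Low 10 → R) : R :=
  x (ix 8 1) - x (ix 8 3) * x (ix 3 1) - x (ix 8 4) * (E5 x) - x (ix 8 5) * (E4 x) - x (ix 8 6) * (E2 x) - x (ix 8 7) * (E8 x)

/-- A polynomial that vanishes on the patch. -/
def FL {R : Type} [CommRing R] (x : Low 10 → R) : R :=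
  x (ix 9 1) - x (ix 9 3) * x (ix 3 1) - x (ix 9 4) * (E5 x) - x (ix 9 5) * (E4 x) - x (ix 9 6) * (E2 x) - x (ix 9 7) * (E8 x) - x (ix 9 8) * (E1 x)

theorem rL (hx : x ∈ patch v0 w0) : FL x = 0 := by
  obtain ⟨z, hz, hb⟩ := col_relation w0 hx 1 9 (k := 9) ![1, 2, 3, 4, 5, 6, 7, 8, 9] ![0, 1, 2, 3, 4, 5, 6, 7, 8]
    (by decide) (by decide) (by decide)
  have h1 := hb 0
  have h2 := hb 1
  have h3 := hb 2
  have h4 := hb 3
  have h5 := hb 4
  have h6 := hb 5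
  have h7 := hb 6
  have h8 := hb 7
  have h9 := hb 8
  simp [Fin.sum_univ_succ, e10, e11, e12, e13, e14, e15, e16, e17, e18, e20, e21, e22, e23, e24, e25, e26, e27, e28, e30, e31, e32, e33, e34, e35, e36, e37, e38, e40, e41, e42, e43, e44, e45, e46, e47, e48, e50, e51, e52, e53, e54, e55, e56, e57, e58, e60, e61, e62, e63, e64, e65, e66, e67, e68, e70, e71, e72, e73, e74, e75, e76, e77, e78, e80, e81, e82, e83, e84, e85, e86, e87, e88, e90, e91, e92, e93, e94, e95, e96, e97, e98, r90 hx, r91 hx, r80 hx] at h1 h2 h3 h4 h5 h6 h7 h8 h9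
  simp only [h3, h9, mul_zero, zero_mul, zero_add, add_zero] at h1 h2 h4 h5 h6 h7 h8
  have z3 : z 3 = -(x (ix 3 1)) * z 1 := by linear_combination h7
  have z4 : z 4 = -(E5 x) * z 1 := by
    unfold E5
    linear_combination h5 - x (ix 4 3) * z3
  have z5 : z 5 = -(E4 x) * z 1 := by
    unfold E4
    linear_combination h4 - x (ix 5 3) * z3 - x (ix 5 4) * z4
  have z6 : z 6 = -(E2 x) * z 1 := by
    unfold E2
    linear_combination h2 - x (ix 6 3) * z3 - x (ix 6 4) * z4 - x (ix 6 5) * z5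
  have z7 : z 7 = -(E8 x) * z 1 := by
    unfold E8
    linear_combination h8 - x (ix 7 3) * z3 - x (ix 7 4) * z4 - x (ix 7 5) * z5 - x (ix 7 6) * z6
  have z8 : z 8 = -(E1 x) * z 1 := by
    unfold E1
    linear_combination h1 - x (ix 8 3) * z3 - x (ix 8 4) * z4 - x (ix 8 5) * z5 - x (ix 8 6) * z6 - x (ix 8 7) * z7
  have z1 : z 1 ≠ 0 := by
    intro a1
    simp only [a1, mul_zero] at z3 z4 z5 z6 z7 z8
    apply hz
    funext i
    fin_cases i
    exacts [h3, a1, h9, z3, z4, z5, z6, z7, z8]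
  have : z 1 * FL x = 0 := by
    unfold FL
    linear_combination h6 - x (ix 9 3) * z3 - x (ix 9 4) * z4 - x (ix 9 5) * z5 - x (ix 9 6) * z6 - x (ix 9 7) * z7 - x (ix 9 8) * z8
  exact (mul_eq_zero.mp this).resolve_left z1

end Pool.Agent.W442.SV
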