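import Mathlib
import Pool.Agent.W442.SV.Upper

open MvPolynomial

set_option linter.unusedSimpArgs false

namespace Pool.Agent.W442.SV

/-- The ideal of the patch. -/
noncomputable abbrev I0 : Ideal A10 := vanishingIdeal ℂ (patch v0 w0)

/-- The ideal of the origin. -/
noncomputable abbrev M0 : Ideal A10 := originIdeal (Low 10)

theorem mem_M0 {f : A10} (h : eval (0 : Low 10 → ℂ) f = 0) : f ∈ M0 := h

theorem XM (i : Low 10) : (X i : A10) ∈ M0 := mem_M0 (by simp)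

theorem m2 {a b : A10} (ha : a ∈ M0) (hb : b ∈ M0) : a * b ∈ M0 ^ 2 := by
  rw [pow_two]
  exact Ideal.mul_mem_mul ha hb

theorem m3 {a b c : A10} (ha : a ∈ M0) (hb : b ∈ M0) (hc : c ∈ M0) : a * b * c ∈ M0 ^ 3 := by
  rw [pow_succ]
  exact Ideal.mul_mem_mul (m2 ha hb) hc

theorem m3' {a b : A10} (ha : a ∈ M0) (hb : b ∈ M0 ^ 2) : a * b ∈ M0 ^ 3 := by
  rw [pow_succ']
  exact Ideal.mul_mem_mul ha hb

theorem mem_I0 (f : A10) (h : ∀ x ∈ patch v0 w0, aeval x f = 0) : f ∈ I0 :=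
  mem_vanishingIdeal_iff.mpr h

theorem U20 : (X (ix 2 0) : A10) ∈ I0 :=
  mem_I0 _ fun x hx => by
    rw [aeval_X]
    exact r90 hx

theorem U21 : (X (ix 2 1) : A10) ∈ I0 :=
  mem_I0 _ fun x hx => by
    rw [aeval_X]
    exact r91 hx

theorem U70 : (X (ix 7 0) : A10) ∈ I0 :=
  mem_I0 _ fun x hx => by
    rw [aeval_X]
    exact r80 hx

theorem IFPQ : FPQ (X : Low 10 → A10) ∈ I0 :=
  mem_I0 _ fun x hx => by
    rw [← rPQ hx]
    simp [FPQ]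

theorem IFPu : FPu (X : Low 10 → A10) ∈ I0 :=
  mem_I0 _ fun x hx => by
    rw [← rPu hx]
    simp [FPu]

theorem IFsQ : FsQ (X : Low 10 → A10) ∈ I0 :=
  mem_I0 _ fun x hx => by
    rw [← rsQ hx]
    simp [FsQ]

theorem IFx2P : Fx2P (X : Low 10 → A10) ∈ I0 :=
  mem_I0 _ fun x hx => by
    rw [← rx2P hx]
    simp [Fx2P]

theorem IFx1Q : Fx1Q (X : Low 10 → A10) ∈ I0 :=
  mem_I0 _ fun x hx => by
    rw [← rx1Q hx]
    simp [Fx1Q]

theorem IFPv : FPv (X : Low 10 → A10) ∈ I0 :=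
  mem_I0 _ fun x hx => by
    rw [← rPv hx]
    simp [FPv]

theorem IFtQ : FtQ (X : Low 10 → A10) ∈ I0 :=
  mem_I0 _ fun x hx => by
    rw [← rtQ hx]
    simp [FtQ]

theorem IFL : FL (X : Low 10 → A10) ∈ I0 :=
  mem_I0 _ fun x hx => by
    rw [← rL hx]
    simp [FL, E1, E2, E4, E5, E8]

theorem mE5 : E5 (X : Low 10 → A10) ∈ M0 := mem_M0 (by simp [E5])

theorem mE4 : E4 (X : Low 10 → A10) ∈ M0 := mem_M0 (by simp [E4, E5])

theorem mE2 : E2 (X : Low 10 → A10) ∈ M0 := mem_M0 (by simp [E2, E4, E5])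

theorem mE8 : E8 (X : Low 10 → A10) ∈ M0 := mem_M0 (by simp [E8, E2, E4, E5])

theorem mE1 : E1 (X : Low 10 → A10) ∈ M0 := mem_M0 (by simp [E1, E8, E2, E4, E5])

theorem FL_eq : FL (X : Low 10 → A10) - X (ix 9 1) ∈ M0 ^ 2 := by
  have h : FL (X : Low 10 → A10) - X (ix 9 1) = -(X (ix 9 3) * X (ix 3 1)) - X (ix 9 4) * E5 X - X (ix 9 5) * E4 X - X (ix 9 6) * E2 X
      - X (ix 9 7) * E8 X - X (ix 9 8) * E1 X := by
    unfold FL
    ring
  rw [h]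
  exact sub_mem (sub_mem (sub_mem (sub_mem (sub_mem (neg_mem (m2 (XM _) (XM _))) (m2 (XM _) mE5))
    (m2 (XM _) mE4)) (m2 (XM _) mE2)) (m2 (XM _) mE8)) (m2 (XM _) mE1)

theorem U91 : ∃ g ∈ M0 ^ 2, X (ix 9 1) + g ∈ I0 :=
  ⟨_, FL_eq, by
    have h : X (ix 9 1) + (FL (X : Low 10 → A10) - X (ix 9 1)) = FL (X : Low 10 → A10) := by ring
    rw [h]
    exact IFL⟩

end Pool.Agent.W442.SV
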