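import Mathlib
import Pool.Agent.W442.SV.U2

open MvPolynomial

set_option linter.unusedSimpArgs false

namespace Pool.Agent.W442.SV

theorem mmem {a b c : A10} (ha : eval (0 : Low 10 → ℂ) a = 0) (hb : eval (0 : Low 10 → ℂ) b = 0)
    (hc : eval (0 : Low 10 → ℂ) c = 0) : a * b * c ∈ M0 ^ 3 :=
  m3 (mem_M0 ha) (mem_M0 hb) (mem_M0 hc)

theorem qPQ : ∃ g ∈ M0 ^ 3, X (ix 9 0) * X (ix 7 1) + g ∈ I0 := by
  refine ⟨FPQ (X : Low 10 → A10) - X (ix 9 0) * X (ix 7 1), ?_, ?_⟩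
  · have h : FPQ (X : Low 10 → A10) - X (ix 9 0) * X (ix 7 1) = 0 - X (ix 9 0) * X (ix 7 3) * X (ix 3 1) - X (ix 9 3) * X (ix 3 0) * X (ix 7 1) + X (ix 7 3) * X (ix 3 0) * X (ix 9 1) := by
      unfold FPQ
      ring
    rw [h]
    exact (add_mem (sub_mem (sub_mem (zero_mem _) (mmem (by simp) (by simp) (by simp))) (mmem (by simp) (by simp) (by simp))) (mmem (by simp) (by simp) (by simp)))
  · have h : X (ix 9 0) * X (ix 7 1) + (FPQ (X : Low 10 → A10) - X (ix 9 0) * X (ix 7 1)) = FPQ (X : Low 10 → A10) := by ring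
    rw [h]
    exact IFPQ

theorem qPu : ∃ g ∈ M0 ^ 3, X (ix 9 0) * X (ix 7 4) + g ∈ I0 := by
  refine ⟨FPu (X : Low 10 → A10) - X (ix 9 0) * X (ix 7 4), ?_, ?_⟩
  · have h : FPu (X : Low 10 → A10) - X (ix 9 0) * X (ix 7 4) = 0 - X (ix 9 3) * X (ix 3 0) * X (ix 7 4) + X (ix 7 3) * X (ix 3 0) * X (ix 9 4) := by
      unfold FPu
      ring
    rw [h]
    exact (add_mem (sub_mem (zero_mem _) (mmem (by simp) (by simp) (by simp))) (mmem (by simp) (by simp) (by simp)))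
  · have h : X (ix 9 0) * X (ix 7 4) + (FPu (X : Low 10 → A10) - X (ix 9 0) * X (ix 7 4)) = FPu (X : Low 10 → A10) := by ring
    rw [h]
    exact IFPu

theorem qsQ : ∃ g ∈ M0 ^ 3, X (ix 9 4) * X (ix 7 1) + g ∈ I0 := by
  refine ⟨(-FsQ (X : Low 10 → A10) + X (ix 7 4) * FL (X : Low 10 → A10)) - X (ix 9 4) * X (ix 7 1), ?_, ?_⟩
  · have h : (-FsQ (X : Low 10 → A10) + X (ix 7 4) * FL (X : Low 10 → A10)) - X (ix 9 4) * X (ix 7 1) = X (ix 7 4) * (FL (X : Low 10 → A10) - X (ix 9 1)) + X (ix 9 3) * X (ix 3 1) * X (ix 7 4) - X (ix 7 3) * X (ix 3 1) * X (ix 9 4) := by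
      unfold FsQ
      ring
    rw [h]
    exact (sub_mem (add_mem (m3' (mem_M0 (by simp)) FL_eq) (mmem (by simp) (by simp) (by simp))) (mmem (by simp) (by simp) (by simp)))
  · have h : X (ix 9 4) * X (ix 7 1) + ((-FsQ (X : Low 10 → A10) + X (ix 7 4) * FL (X : Low 10 → A10)) - X (ix 9 4) * X (ix 7 1)) = (-FsQ (X : Low 10 → A10) + X (ix 7 4) * FL (X : Low 10 → A10)) := by ring
    rw [h]
    exact add_mem (neg_mem IFsQ) (Ideal.mul_mem_left _ _ IFL)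

theorem qx2P : ∃ g ∈ M0 ^ 3, X (ix 5 1) * X (ix 9 0) + g ∈ I0 := by
  refine ⟨(-Fx2P (X : Low 10 → A10) + (X (ix 5 0) - X (ix 5 3) * X (ix 3 0) - X (ix 5 4) * (X (ix 4 0) - X (ix 4 3) * X (ix 3 0))) * FL (X : Low 10 → A10)) - X (ix 5 1) * X (ix 9 0), ?_, ?_⟩
  · have h : (-Fx2P (X : Low 10 → A10) + (X (ix 5 0) - X (ix 5 3) * X (ix 3 0) - X (ix 5 4) * (X (ix 4 0) - X (ix 4 3) * X (ix 3 0))) * FL (X : Low 10 → A10)) - X (ix 5 1) * X (ix 9 0) = (X (ix 5 0) - X (ix 5 3) * X (ix 3 0) - X (ix 5 4) * (X (ix 4 0) - X (ix 4 3) * X (ix 3 0))) * (FL (X : Low 10 → A10) - X (ix 9 1)) + (X (ix 5 0) - X (ix 5 3) * X (ix 3 0) - X (ix 5 4) * (X (ix 4 0) - X (ix 4 3) * X (ix 3 0))) * X (ix 9 3) * X (ix 3 1) + (X (ix 5 0) - X (ix 5 3) * X (ix 3 0) - X (ix 5 4) * (X (ix 4 0) - X (ix 4 3) * X (ix 3 0))) * X (ix 9 4) * (X (ix 4 1) - X (ix 4 3) * X (ix 3 1)) - X (ix 5 3) * X (ix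 3 1) * X (ix 9 0) - X (ix 5 4) * (X (ix 4 1) - X (ix 4 3) * X (ix 3 1)) * X (ix 9 0) - (X (ix 5 1) - X (ix 5 3) * X (ix 3 1) - X (ix 5 4) * (X (ix 4 1) - X (ix 4 3) * X (ix 3 1))) * X (ix 9 3) * X (ix 3 0) - (X (ix 5 1) - X (ix 5 3) * X (ix 3 1) - X (ix 5 4) * (X (ix 4 1) - X (ix 4 3) * X (ix 3 1))) * X (ix 9 4) * (X (ix 4 0) - X (ix 4 3) * X (ix 3 0)) := by
      unfold Fx2P
      ring
    rw [h]
    exact (sub_mem (sub_mem (sub_mem (sub_mem (add_mem (add_mem (m3' (mem_M0 (by simp)) FL_eq) (mmem (by simp) (by simp) (by simp))) (mmem (by simp) (by simp) (by simp))) (mmem (by simp) (by simp) (by simp))) (mmem (by simp) (by simp) (by simp))) (mmem (by simp) (by simp) (by simp))) (mmem (by simp) (by simp) (by simp)))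
  · have h : X (ix 5 1) * X (ix 9 0) + ((-Fx2P (X : Low 10 → A10) + (X (ix 5 0) - X (ix 5 3) * X (ix 3 0) - X (ix 5 4) * (X (ix 4 0) - X (ix 4 3) * X (ix 3 0))) * FL (X : Low 10 → A10)) - X (ix 5 1) * X (ix 9 0)) = (-Fx2P (X : Low 10 → A10) + (X (ix 5 0) - X (ix 5 3) * X (ix 3 0) - X (ix 5 4) * (X (ix 4 0) - X (ix 4 3) * X (ix 3 0))) * FL (X : Low 10 → A10)) := by ring
    rw [h]
    exact add_mem (neg_mem IFx2P) (Ideal.mul_mem_left _ _ IFL)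

theorem qx1Q : ∃ g ∈ M0 ^ 3, X (ix 5 0) * X (ix 7 1) + g ∈ I0 := by
  refine ⟨Fx1Q (X : Low 10 → A10) - X (ix 5 0) * X (ix 7 1), ?_, ?_⟩
  · have h : Fx1Q (X : Low 10 → A10) - X (ix 5 0) * X (ix 7 1) = 0 - X (ix 5 3) * X (ix 3 0) * X (ix 7 1) - X (ix 5 4) * (X (ix 4 0) - X (ix 4 3) * X (ix 3 0)) * X (ix 7 1) - (X (ix 5 0) - X (ix 5 3) * X (ix 3 0) - X (ix 5 4) * (X (ix 4 0) - X (ix 4 3) * X (ix 3 0))) * X (ix 7 3) * X (ix 3 1) - (X (ix 5 0) - X (ix 5 3) * X (ix 3 0) - X (ix 5 4) * (X (ix 4 0) - X (ix 4 3) * X (ix 3 0))) * X (ix 7 4) * (X (ix 4 1) - X (ix 4 3) * X (ix 3 1)) + (X (ix 5 1) - X (ix 5 3) * X (ix 3 1) - X (ix 5 4) * (X (ix 4 1) - X (ix 4 3) * X (ix 3 1))) * X (ix 7 3) * X (ix 3 0) + (X (ix 5 1) - X (ix 5 3) * X (ix 3 1) - X (ix 5 4) * (X (ix 4 1) - X (ix 4 3) * X (ix 3 1))) * X (ix 7 4) * (X (ix 4 0) - X (ix 4 3) * X (ix 3 0)) := by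
      unfold Fx1Q
      ring
    rw [h]
    exact (add_mem (add_mem (sub_mem (sub_mem (sub_mem (sub_mem (zero_mem _) (mmem (by simp) (by simp) (by simp))) (mmem (by simp) (by simp) (by simp))) (mmem (by simp) (by simp) (by simp))) (mmem (by simp) (by simp) (by simp))) (mmem (by simp) (by simp) (by simp))) (mmem (by simp) (by simp) (by simp)))
  · have h : X (ix 5 0) * X (ix 7 1) + (Fx1Q (X : Low 10 → A10) - X (ix 5 0) * X (ix 7 1)) = Fx1Q (X : Low 10 → A10) := by ring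
    rw [h]
    exact IFx1Q

theorem qPv : ∃ g ∈ M0 ^ 3, X (ix 9 0) * X (ix 7 6) + g ∈ I0 := by
  refine ⟨FPv (X : Low 10 → A10) - X (ix 9 0) * X (ix 7 6), ?_, ?_⟩
  · have h : FPv (X : Low 10 → A10) - X (ix 9 0) * X (ix 7 6) = 0 - X (ix 9 5) * X (ix 5 0) * X (ix 7 6) - (X (ix 9 4) - X (ix 5 4) * X (ix 9 5)) * X (ix 4 0) * X (ix 7 6) - (X (ix 9 3) - X (ix 5 3) * X (ix 9 5) - X (ix 4 3) * (X (ix 9 4) - X (ix 5 4) * X (ix 9 5))) * X (ix 3 0) * X (ix 7 6) + X (ix 7 5) * X (ix 5 0) * X (ix 9 6) + (X (ix 7 4) - X (ix 5 4) * X (ix 7 5)) * X (ix 4 0) * X (ix 9 6) + (X (ix 7 3) - X (ix 5 3) * X (ix 7 5) - X (ix 4 3) * (X (ix 7 4) - X (ix 5 4) * X (ix 7 5))) * X (ix 3 0) * X (ix 9 6) := by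
      unfold FPv
      ring
    rw [h]
    exact (add_mem (add_mem (add_mem (sub_mem (sub_mem (sub_mem (zero_mem _) (mmem (by simp) (by simp) (by simp))) (mmem (by simp) (by simp) (by simp))) (mmem (by simp) (by simp) (by simp))) (mmem (by simp) (by simp) (by simp))) (mmem (by simp) (by simp) (by simp))) (mmem (by simp) (by simp) (by simp)))
  · have h : X (ix 9 0) * X (ix 7 6) + (FPv (X : Low 10 → A10) - X (ix 9 0) * X (ix 7 6)) = FPv (X : Low 10 → A10) := by ring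
    rw [h]
    exact IFPv

theorem qtQ : ∃ g ∈ M0 ^ 3, X (ix 9 6) * X (ix 7 1) + g ∈ I0 := by
  refine ⟨(-FtQ (X : Low 10 → A10) + X (ix 7 6) * FL (X : Low 10 → A10)) - X (ix 9 6) * X (ix 7 1), ?_, ?_⟩
  · have h : (-FtQ (X : Low 10 → A10) + X (ix 7 6) * FL (X : Low 10 → A10)) - X (ix 9 6) * X (ix 7 1) = X (ix 7 6) * (FL (X : Low 10 → A10) - X (ix 9 1)) + X (ix 9 5) * X (ix 5 1) * X (ix 7 6) + (X (ix 9 4) - X (ix 5 4) * X (ix 9 5)) * X (ix 4 1) * X (ix 7 6) + (X (ix 9 3) - X (ix 5 3) * X (ix 9 5) - X (ix 4 3) * (X (ix 9 4) - X (ix 5 4) * X (ix 9 5))) * X (ix 3 1) * X (ix 7 6) - X (ix 7 5) * X (ix 5 1) * X (ix 9 6) - (X (ix 7 4) - X (ix 5 4) * X (ix 7 5)) * X (ix 4 1) * X (ix 9 6) - (X (ix 7 3) - X (ix 5 3) * X (ix 7 5) - X (ix 4 3) * (X (ix 7 4) - X (ix 5 4) * X (ix 7 5))) * X (ix 3 1) * X (ix 9 6) := by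
      unfold FtQ
      ring
    rw [h]
    exact (sub_mem (sub_mem (sub_mem (add_mem (add_mem (add_mem (m3' (mem_M0 (by simp)) FL_eq) (mmem (by simp) (by simp) (by simp))) (mmem (by simp) (by simp) (by simp))) (mmem (by simp) (by simp) (by simp))) (mmem (by simp) (by simp) (by simp))) (mmem (by simp) (by simp) (by simp))) (mmem (by simp) (by simp) (by simp)))
  · have h : X (ix 9 6) * X (ix 7 1) + ((-FtQ (X : Low 10 → A10) + X (ix 7 6) * FL (X : Low 10 → A10)) - X (ix 9 6) * X (ix 7 1)) = (-FtQ (X : Low 10 → A10) + X (ix 7 6) * FL (X : Low 10 → A10)) := by ring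
    rw [h]
    exact add_mem (neg_mem IFtQ) (Ideal.mul_mem_left _ _ IFL)

end Pool.Agent.W442.SV
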