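import Mathlib
import Pool.Agent.W442.SV.U3
import Pool.Agent.W308.SV.Loc

open MvPolynomial

namespace Pool.Agent.W442.SV

/-- The variables whose classes have order at least two. -/
def linS : Finset (Low 10) := {ix 2 0, ix 2 1, ix 7 0, ix 9 1}

/-- The pairs of variables whose product is an initial form. -/
def edgS : Finset (Low 10 × Low 10) :=
  {(ix 9 0, ix 7 1), (ix 9 0, ix 7 4), (ix 9 4, ix 7 1), (ix 5 1, ix 9 0), (ix 5 0, ix 7 1),
    (ix 9 0, ix 7 6), (ix 9 6, ix 7 1)}

/-- The monomials outside the initial ideal. -/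
def Good (s : Low 10 →₀ ℕ) : Prop :=
  (∀ i ∈ linS, s i = 0) ∧ ∀ e ∈ edgS, s e.1 = 0 ∨ s e.2 = 0

theorem monomial_mem (b : Low 10 →₀ ℕ) : (monomial b (1 : ℂ)) ∈ M0 ^ b.degree := by
  rw [Pool.Agent.W308.SV.mem_origin_pow]
  intro x hx
  rw [coeff_monomial, if_neg]
  rintro rfl
  exact lt_irrefl _ hx

theorem init_mul {a b : Low 10 →₀ ℕ} {k : ℕ}
    (h : ∃ g ∈ M0 ^ (k + 1), monomial a (1 : ℂ) + g ∈ I0) :
    ∃ g ∈ M0 ^ (k + b.degree + 1), monomial (a + b) (1 : ℂ) + g ∈ I0 := by
  obtain ⟨g, hg, h⟩ := h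
  refine ⟨g * monomial b 1, ?_, ?_⟩
  · have : k + b.degree + 1 = (k + 1) + b.degree := by omega
    rw [this, pow_add]
    exact Ideal.mul_mem_mul hg (monomial_mem b)
  · have : monomial (a + b) (1 : ℂ) + g * monomial b 1 = (monomial a 1 + g) * monomial b 1 := by
      rw [add_mul, monomial_mul, one_mul]
    rw [this]
    exact Ideal.mul_mem_right _ _ h

theorem lin_init : ∀ j ∈ linS, ∃ g ∈ M0 ^ (1 + 1), (X j : A10) + g ∈ I0 := by
  intro j hj
  simp only [linS, Finset.mem_insert, Finset.mem_singleton] at hj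
  rcases hj with rfl | rfl | rfl | rfl
  · exact ⟨0, zero_mem _, by rw [add_zero]; exact U20⟩
  · exact ⟨0, zero_mem _, by rw [add_zero]; exact U21⟩
  · exact ⟨0, zero_mem _, by rw [add_zero]; exact U70⟩
  · exact U91

theorem edg_init : ∀ e ∈ edgS, ∃ g ∈ M0 ^ (2 + 1), (X e.1 * X e.2 : A10) + g ∈ I0 := by
  intro e he
  simp only [edgS, Finset.mem_insert, Finset.mem_singleton] at he
  rcases he with rfl | rfl | rfl | rfl | rfl | rfl | rfl
  · exact qPQ
  · exact qPu
  · exact qsQ
  · exact qx2P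
  · exact qx1Q
  · exact qPv
  · exact qtQ

theorem edg_ne : ∀ e ∈ edgS, e.1 ≠ e.2 := by decide +kernel

theorem upper (s : Low 10 →₀ ℕ) (hs : ¬ Good s) :
    ∃ g ∈ M0 ^ (s.degree + 1), monomial s (1 : ℂ) + g ∈ I0 := by
  unfold Good at hs
  rw [not_and_or] at hs
  rcases hs with hs | hs
  · push Not at hs
    obtain ⟨j, hj, hne⟩ := hs
    have hle : Finsupp.single j 1 ≤ s := by
      rw [Finsupp.single_le_iff]
      omega
    obtain ⟨b, rfl⟩ := exists_add_of_le hle
    have h := init_mul (b := b) (lin_init j hj)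
    have hd : (Finsupp.single j 1 + b).degree = 1 + b.degree := by
      rw [map_add, Finsupp.degree_single]
    rw [hd]
    exact h
  · push Not at hs
    obtain ⟨e, he, h1, h2⟩ := hs
    have hne := edg_ne e he
    have hle : Finsupp.single e.1 1 + Finsupp.single e.2 1 ≤ s := by
      intro i
      rw [Finsupp.add_apply, Finsupp.single_apply, Finsupp.single_apply]
      split_ifs with h3 h4 h4
      · exact absurd (h3.trans h4.symm) hne
      · subst h3
        omega
      · subst h4
        omega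
      · omega
    obtain ⟨b, rfl⟩ := exists_add_of_le hle
    have h0 := edg_init e he
    have hX : (X e.1 * X e.2 : A10) =
        monomial (Finsupp.single e.1 1 + Finsupp.single e.2 1) (1 : ℂ) := by
      rw [X, X, monomial_mul, one_mul]
    rw [hX] at h0
    have h := init_mul (b := b) h0
    have hd : (Finsupp.single e.1 1 + Finsupp.single e.2 1 + b).degree = 2 + b.degree := by
      rw [map_add, map_add, Finsupp.degree_single, Finsupp.degree_single]
    rw [hd]
    exact h

end Pool.Agent.W442.SV
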