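import Mathlib
import Pool.Agent.W442.SV.U4

open MvPolynomial Filter Topology

namespace Pool.Agent.W442.SV

theorem borel_mul {n : ℕ} {a b : Matrix (Fin n) (Fin n) ℂ} (ha : a ∈ borel n) (hb : b ∈ borel n) :
    a * b ∈ borel n := by
  refine ⟨?_, ?_⟩
  · rw [Matrix.det_mul]
    exact ha.1.mul hb.1
  · intro i j hij
    rw [Matrix.mul_apply]
    apply Finset.sum_eq_zero
    intro k _
    rcases lt_or_ge k i with h | h
    · rw [ha.2 i k h, zero_mul]
    · rw [hb.2 k j (lt_of_lt_of_le hij h), mul_zero]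

theorem schubert_left {n : ℕ} (w : Equiv.Perm (Fin n)) {g b : Matrix (Fin n) (Fin n) ℂ}
    (hb : b ∈ borel n) (hg : g ∈ schubert w) : b * g ∈ schubert w := by
  intro f hf
  have key : ∀ h : Matrix (Fin n) (Fin n) ℂ,
      eval (fun p : Fin n × Fin n => h p.1 p.2)
        (aeval (fun p : Fin n × Fin n =>
          (∑ j, C (b p.1 j) * X (j, p.2) : MvPolynomial (Fin n × Fin n) ℂ)) f) =
      eval (fun p => (b * h) p.1 p.2) f := by
    intro h
    have h2 : ((eval (fun p : Fin n × Fin n => h p.1 p.2)).comp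
        (aeval (fun p : Fin n × Fin n =>
          (∑ j, C (b p.1 j) * X (j, p.2) : MvPolynomial (Fin n × Fin n) ℂ))).toRingHom) =
        eval (fun p => (b * h) p.1 p.2) := by
      apply MvPolynomial.ringHom_ext
      · intro r
        simp
      · intro p
        simp [Matrix.mul_apply]
    exact RingHom.congr_fun h2 f
  rw [← key g]
  apply hg
  rintro h ⟨b1, hb1, b2, hb2, rfl⟩
  rw [key]
  exact hf _ ⟨b * b1, borel_mul hb hb1, b2, hb2, by simp only [Matrix.mul_assoc]⟩

/-- `a` is a limit direction of the patch at the origin. -/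
def Dir (a : Low 10 → ℂ) : Prop :=
  ∃ q : ℂ → Low 10 → ℂ, ContinuousAt q 0 ∧ q 0 = a ∧
    ∀ᶠ ε in 𝓝[≠] (0 : ℂ), (ε • q ε) ∈ patch v0 w0

theorem eval_smul_homog {σ : Type} [Fintype σ] {f : MvPolynomial σ ℂ} {i : ℕ}
    (hf : f.IsHomogeneous i) (c : ℂ) (x : σ → ℂ) : eval (c • x) f = c ^ i * eval x f := by
  rw [eval_eq', eval_eq', Finset.mul_sum]
  apply Finset.sum_congr rfl
  intro d hd
  have h1 : d.degree = i := by
    by_contra h
    exact (mem_support_iff.mp hd) (hf.coeff_eq_zero h)
  have h2 : ∏ j, (c • x) j ^ d j = c ^ i * ∏ j, x j ^ d j := by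
    simp only [Pi.smul_apply, smul_eq_mul, mul_pow]
    rw [Finset.prod_mul_distrib, Finset.prod_pow_eq_pow_sum, ← h1, Finsupp.degree_eq_sum]
  rw [h2]
  ring

theorem dir_vanish {f g : A10} {i : ℕ} (hf : f.IsHomogeneous i) (hg : g ∈ M0 ^ (i + 1))
    (hfg : f + g ∈ I0) {a : Low 10 → ℂ} (ha : Dir a) : eval a f = 0 := by
  obtain ⟨q, hq, rfl, hp⟩ := ha
  let R : ℂ → ℂ := fun ε => -(ε * ∑ d ∈ Finset.range (g.totalDegree + 1),
    ε ^ (d - (i + 1)) * eval (q ε) (homogeneousComponent d g))
  have hR : ContinuousAt R 0 := by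
    apply ContinuousAt.neg
    apply ContinuousAt.mul continuousAt_id
    apply tendsto_finsetSum
    intro d _
    apply ContinuousAt.mul
    · fun_prop
    · exact ((MvPolynomial.continuous_eval _).continuousAt).comp hq
  have hL : ContinuousAt (fun ε => eval (q ε) f) 0 :=
    ((MvPolynomial.continuous_eval f).continuousAt).comp hq
  have hR0 : R 0 = 0 := by simp [R]
  have heq : (fun ε => eval (q ε) f) =ᶠ[𝓝[≠] (0 : ℂ)] R := by
    filter_upwards [hp, self_mem_nhdsWithin] with ε h1 h2
    have h3 : eval (ε • q ε) (f + g) = 0 := mem_vanishingIdeal_iff.mp hfg _ h1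
    have h4 : eval (ε • q ε) g = ∑ d ∈ Finset.range (g.totalDegree + 1),
        ε ^ d * eval (q ε) (homogeneousComponent d g) := by
      conv_lhs => rw [← sum_homogeneousComponent g]
      rw [map_sum]
      apply Finset.sum_congr rfl
      intro d _
      exact eval_smul_homog (homogeneousComponent_isHomogeneous d g) ε (q ε)
    have h5 : ∀ d, d < i + 1 → homogeneousComponent d g = 0 := by
      intro d hd
      ext s
      rw [coeff_homogeneousComponent, coeff_zero]
      split_ifs with hs
      · exact (Pool.Agent.W308.SV.mem_origin_pow (i + 1) g).mp hg s (by omega)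
      · rfl
    have h6 : eval (ε • q ε) g = ε ^ (i + 1) * ∑ d ∈ Finset.range (g.totalDegree + 1),
        ε ^ (d - (i + 1)) * eval (q ε) (homogeneousComponent d g) := by
      rw [h4, Finset.mul_sum]
      apply Finset.sum_congr rfl
      intro d _
      rcases lt_or_ge d (i + 1) with h | h
      · rw [h5 d h]
        simp
      · rw [← mul_assoc, ← pow_add, Nat.add_sub_cancel' h]
    rw [map_add, eval_smul_homog hf, h6] at h3
    have h7 : ε ^ i ≠ 0 := pow_ne_zero _ h2
    have h8 : ε ^ i * (eval (q ε) f - R ε) = 0 := by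
      simp only [R]
      rw [← h3]
      ring
    exact sub_eq_zero.mp ((mul_eq_zero.mp h8).resolve_left h7)
  have t1 : Tendsto (fun ε => eval (q ε) f) (𝓝[≠] 0) (𝓝 (eval (q 0) f)) :=
    hL.tendsto.mono_left nhdsWithin_le_nhds
  have t2 : Tendsto R (𝓝[≠] 0) (𝓝 (R 0)) := hR.tendsto.mono_left nhdsWithin_le_nhds
  rw [hR0] at t2
  exact tendsto_nhds_unique (t1.congr' heq) t2

/-- The strictly lower triangular matrix. -/
def hat (x : Low 10 → ℂ) : Matrix (Fin 10) (Fin 10) ℂ :=
  Matrix.of fun i j => if h : j < i then x ⟨(i, j), h⟩ else 0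

/-- The entries below the diagonal. -/
def low (M : Matrix (Fin 10) (Fin 10) ℂ) : Low 10 → ℂ := fun p => M p.1.1 p.1.2

theorem uni_hat (x : Low 10 → ℂ) : uni x = 1 + hat x := by
  ext i j
  rw [Matrix.add_apply, uni, hat, Matrix.of_apply, Matrix.of_apply, Matrix.one_apply]
  split_ifs with h1 h2
  · exact absurd h2 (by rw [h1]; exact lt_irrefl _)
  · rw [add_zero]
  · rw [zero_add]
  · rw [zero_add]

theorem hat_apply_not {x : Low 10 → ℂ} {i j : Fin 10} (h : ¬ j < i) : hat x i j = 0 := by
  rw [hat, Matrix.of_apply, dif_neg h]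

theorem hat_apply {x : Low 10 → ℂ} {i j : Fin 10} (h : j < i) : hat x i j = x ⟨(i, j), h⟩ := by
  rw [hat, Matrix.of_apply, dif_pos h]

theorem hat_low {M : Matrix (Fin 10) (Fin 10) ℂ} (hM : ∀ i j, ¬ j < i → M i j = 0) :
    hat (low M) = M := by
  ext i j
  by_cases h : j < i
  · rw [hat_apply h, low]
  · rw [hat_apply_not h, hM i j h]

theorem hat_mul_zero (x y : Low 10 → ℂ) (i j : Fin 10) (h : ¬ j < i) : (hat x * hat y) i j = 0 := by
  rw [Matrix.mul_apply]
  apply Finset.sum_eq_zero
  intro k _
  by_cases h1 : k < i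
  · rw [hat_apply_not (x := y) (i := k) (j := j) (fun h2 => h (lt_trans h2 h1)), mul_zero]
  · rw [hat_apply_not h1, zero_mul]

theorem hat_add (x y : Low 10 → ℂ) : hat (x + y) = hat x + hat y := by
  ext i j
  rw [Matrix.add_apply]
  by_cases h : j < i
  · rw [hat_apply h, hat_apply h, hat_apply h, Pi.add_apply]
  · rw [hat_apply_not h, hat_apply_not h, hat_apply_not h, add_zero]

theorem hat_smul (c : ℂ) (x : Low 10 → ℂ) : hat (c • x) = c • hat x := by
  ext i j
  rw [Matrix.smul_apply]
  by_cases h : j < i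
  · rw [hat_apply h, hat_apply h, Pi.smul_apply]
  · rw [hat_apply_not h, hat_apply_not h, smul_zero]

/-- The patch is stable under the left action of the inversion part. -/
theorem patch_act {x x' c : Low 10 → ℂ} (hx : x ∈ patch v0 w0)
    (hc : ∀ i : Low 10, ¬ (v0 i.1.1 < v0 i.1.2) → c i = 0)
    (h : uni x' = (1 + hat c) * uni x) : x' ∈ patch v0 w0 := by
  have hb : (Matrix.submatrix (1 + hat c) v0.symm v0.symm) ∈ borel 10 := by
    refine ⟨?_, ?_⟩
    · rw [Matrix.det_submatrix_equiv_self, ← uni_hat, det_uni]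
      exact isUnit_one
    · intro i j hij
      rw [Matrix.submatrix_apply, Matrix.add_apply, Matrix.one_apply, if_neg, zero_add]
      · by_cases h1 : v0.symm j < v0.symm i
        · rw [hat_apply h1, hc]
          simp only [Equiv.apply_symm_apply]
          exact hij.le.not_gt
        · exact hat_apply_not h1
      · intro h1
        exact hij.ne' (v0.symm.injective h1)
  have h2 : chart v0 x' = Matrix.submatrix (1 + hat c) v0.symm v0.symm * chart v0 x := by
    ext a k
    rw [chart_apply, h, Matrix.mul_apply, Matrix.mul_apply]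
    rw [← Equiv.sum_comp v0.symm]
    apply Finset.sum_congr rfl
    intro j _
    rw [chart_apply, Matrix.submatrix_apply]
  change chart v0 x' ∈ schubert w0
  rw [h2]
  exact schubert_left w0 hb hx

theorem Dir.act {a c : Low 10 → ℂ} (ha : Dir a)
    (hc : ∀ i : Low 10, ¬ (v0 i.1.1 < v0 i.1.2) → c i = 0) : Dir (a + c) := by
  obtain ⟨q, hq, rfl, hp⟩ := ha
  refine ⟨fun ε => q ε + c + ε • low (hat c * hat (q ε)), ?_, ?_, ?_⟩
  · apply ContinuousAt.add
    · exact hq.add continuousAt_const
    · apply ContinuousAt.smul continuousAt_id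
      apply continuousAt_pi.mpr
      intro i
      simp only [low, Matrix.mul_apply]
      apply tendsto_finsetSum
      intro j _
      apply ContinuousAt.mul continuousAt_const
      by_cases h : i.1.2 < j
      · simp only [hat_apply h]
        exact (continuousAt_pi.mp hq) _
      · simp only [hat_apply_not h]
        exact continuousAt_const
  · simp
  · filter_upwards [hp] with ε h1
    refine patch_act (c := ε • c) h1 (fun i hi => by simp [hc i hi]) ?_
    rw [uni_hat, uni_hat, hat_smul, hat_smul, hat_smul, hat_add, hat_add, hat_smul,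
      hat_low (hat_mul_zero _ _)]
    rw [add_mul, one_mul, mul_add, mul_one]
    simp only [smul_add, Matrix.smul_mul, Matrix.mul_smul]
    abel

end Pool.Agent.W442.SV
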