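import Mathlib
import Pool.Agent.W442.SV.Act
import Pool.Agent.W22.SV.Clos

open MvPolynomial Filter Topology

set_option linter.unusedSimpArgs false

namespace Pool.Agent.W442.SV

theorem rank_lt_of_rel {m n : Type} [Fintype m] [Fintype n] (M : Matrix m n ℂ) (l : m → ℂ)
    (hl : l ≠ 0) (h : ∀ j, ∑ i, l i * M i j = 0) : M.rank + 1 ≤ Fintype.card m := by
  by_contra hcon
  have h1 : Fintype.card m ≤ (Set.range M.row).finrank ℂ := by
    rw [Set.finrank, ← Matrix.rank_eq_finrank_span_row]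
    omega
  have h2 : LinearIndependent ℂ M.row := linearIndependent_iff_card_le_finrank_span.mpr h1
  rw [Fintype.linearIndependent_iff] at h2
  apply hl
  funext i
  apply h2 l
  ext j
  rw [Finset.sum_apply]
  exact h j

theorem card_ge (p : ℕ) : Fintype.card {i : Fin 10 // p ≤ (i : ℕ)} = 10 - p := by
  rw [Fintype.card_subtype]
  have h := Fin.card_filter_val_lt (n := 10) (m := p)
  have h2 := Finset.card_filter_add_card_filter_not (s := (Finset.univ : Finset (Fin 10)))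
    (fun i => (i : ℕ) < p)
  simp only [not_lt, Finset.card_univ, Fintype.card_fin] at h2
  omega

theorem card_lt (q : ℕ) : Fintype.card {j : Fin 10 // (j : ℕ) < q} = min 10 q := by
  rw [Fintype.card_subtype]
  exact Fin.card_filter_val_lt

theorem rank_sw_row {g : Matrix (Fin 10) (Fin 10) ℂ} (p q pe qe : ℕ) (l : Fin 10 → ℂ)
    (hl : l ≠ 0) (hpe : ∀ i : Fin 10, (i : ℕ) < pe → l i = 0)
    (hrel : ∀ j : Fin 10, (j : ℕ) < qe → ∑ i, l i * g i j = 0)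
    (hp : p ≤ pe) (hq : q ≤ qe) : (southWest g p q).rank + 1 ≤ 10 - p := by
  rw [← card_ge p]
  apply rank_lt_of_rel (southWest g p q) (fun i => l i.1)
  · intro h
    apply hl
    funext i
    by_cases hi : (i : ℕ) < pe
    · exact hpe i hi
    · exact congrFun h ⟨i, by omega⟩
  · intro j
    rw [← hrel j.1 (lt_of_lt_of_le j.2 hq)]
    have h2 := Finset.sum_subtype (F := inferInstance) (p := fun i : Fin 10 => p ≤ (i : ℕ))
      (Finset.univ.filter fun i : Fin 10 => p ≤ (i : ℕ)) (by simp)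
      (fun i : Fin 10 => l i * g i j.1)
    refine Eq.trans h2.symm ?_
    apply Finset.sum_filter_of_ne
    intro i _ hi
    by_contra hlt
    apply hi
    rw [hpe i (by omega), zero_mul]

theorem rank_sw_col {g : Matrix (Fin 10) (Fin 10) ℂ} (p q pe qe : ℕ) (l : Fin 10 → ℂ)
    (hl : l ≠ 0) (hqe : ∀ j : Fin 10, qe ≤ (j : ℕ) → l j = 0)
    (hrel : ∀ i : Fin 10, pe ≤ (i : ℕ) → ∑ j, g i j * l j = 0)
    (hp : pe ≤ p) (hq : qe ≤ q) : (southWest g p q).rank + 1 ≤ min 10 q := by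
  rw [← card_lt q, ← Matrix.rank_transpose]
  apply rank_lt_of_rel (southWest g p q).transpose (fun i => l i.1)
  · intro h
    apply hl
    funext j
    by_cases hj : qe ≤ (j : ℕ)
    · exact hqe j hj
    · exact congrFun h ⟨j, by omega⟩
  · intro i
    rw [← hrel i.1 (le_trans hp i.2)]
    have h2 := Finset.sum_subtype (F := inferInstance) (p := fun j : Fin 10 => (j : ℕ) < q)
      (Finset.univ.filter fun j : Fin 10 => (j : ℕ) < q) (by simp)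
      (fun j : Fin 10 => g i.1 j * l j)
    refine Eq.trans ?_ (h2.symm.trans ?_)
    · apply Finset.sum_congr rfl
      intro j _
      rw [mul_comm]
      rfl
    · apply Finset.sum_filter_of_ne
      intro j _ hj
      by_contra hlt
      apply hj
      rw [hqe j (by omega), mul_zero]

theorem sw_min (p q : ℕ) : swRank w0 p q = swRank w0 p (min 10 q) := by
  unfold swRank
  congr 1
  apply Finset.filter_congr
  intro j _
  have := j.2
  constructor <;> rintro ⟨h1, h2⟩ <;> exact ⟨by omega, h2⟩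

theorem sw_table : ∀ p : Fin 10, ∀ q : Fin 11,
    10 - (p : ℕ) ≤ swRank w0 p q ∨ (q : ℕ) ≤ swRank w0 p q ∨
    ((q : ℕ) ≤ 2 ∧ 10 - (p : ℕ) ≤ swRank w0 p q + 1) ∨
    ((p : ℕ) ≤ 6 ∧ (q : ℕ) ≤ 5 ∧ 10 - (p : ℕ) ≤ swRank w0 p q + 1) ∨
    ((p : ℕ) ≤ 4 ∧ (q : ℕ) ≤ 7 ∧ 10 - (p : ℕ) ≤ swRank w0 p q + 1) ∨
    (8 ≤ (p : ℕ) ∧ 1 ≤ (q : ℕ) ∧ (q : ℕ) ≤ swRank w0 p q + 1) ∨
    (4 ≤ (p : ℕ) ∧ 5 ≤ (q : ℕ) ∧ (q : ℕ) ≤ swRank w0 p q + 1) ∨
    (1 ≤ (p : ℕ) ∧ 9 ≤ (q : ℕ) ∧ (q : ℕ) ≤ swRank w0 p q + 1) := by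
  decide +kernel

/-- Membership from six relations between rows or columns. -/
theorem mem_of_rel (x : Low 10 → ℂ)
    (h1 : ∃ l : Fin 10 → ℂ, l ≠ 0 ∧ (∀ i : Fin 10, (i : ℕ) < 9 → l i = 0) ∧
      ∀ j : Fin 10, (j : ℕ) < 2 → ∑ i, l i * chart v0 x i j = 0)
    (h2 : ∃ l : Fin 10 → ℂ, l ≠ 0 ∧ (∀ i : Fin 10, (i : ℕ) < 6 → l i = 0) ∧
      ∀ j : Fin 10, (j : ℕ) < 5 → ∑ i, l i * chart v0 x i j = 0)
    (h3 : ∃ l : Fin 10 → ℂ, l ≠ 0 ∧ (∀ i : Fin 10, (i : ℕ) < 4 → l i = 0) ∧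
      ∀ j : Fin 10, (j : ℕ) < 7 → ∑ i, l i * chart v0 x i j = 0)
    (h4 : ∃ l : Fin 10 → ℂ, l ≠ 0 ∧ (∀ j : Fin 10, 1 ≤ (j : ℕ) → l j = 0) ∧
      ∀ i : Fin 10, 8 ≤ (i : ℕ) → ∑ j, chart v0 x i j * l j = 0)
    (h5 : ∃ l : Fin 10 → ℂ, l ≠ 0 ∧ (∀ j : Fin 10, 5 ≤ (j : ℕ) → l j = 0) ∧
      ∀ i : Fin 10, 4 ≤ (i : ℕ) → ∑ j, chart v0 x i j * l j = 0)
    (h6 : ∃ l : Fin 10 → ℂ, l ≠ 0 ∧ (∀ j : Fin 10, 9 ≤ (j : ℕ) → l j = 0) ∧
      ∀ i : Fin 10, 1 ≤ (i : ℕ) → ∑ j, chart v0 x i j * l j = 0) :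
    x ∈ patch v0 w0 := by
  obtain ⟨l1, a1, b1, c1⟩ := h1
  obtain ⟨l2, a2, b2, c2⟩ := h2
  obtain ⟨l3, a3, b3, c3⟩ := h3
  obtain ⟨l4, a4, b4, c4⟩ := h4
  obtain ⟨l5, a5, b5, c5⟩ := h5
  obtain ⟨l6, a6, b6, c6⟩ := h6
  apply Pool.Agent.W22.SV.Clos.main 10 w0 (chart v0 x) (isUnit_det_chart v0 x)
  intro p q
  have t1 : (southWest (chart v0 x) p q).rank ≤ 10 - p := by
    rw [← card_ge p]
    exact Matrix.rank_le_card_height _
  have t2 : (southWest (chart v0 x) p q).rank ≤ min 10 q := by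
    rw [← card_lt q]
    exact Matrix.rank_le_card_width _
  rcases lt_or_ge p 10 with hp | hp
  swap
  · omega
  rw [sw_min]
  have ht := sw_table ⟨p, hp⟩ ⟨min 10 q, by omega⟩
  simp only at ht
  rcases ht with h | h | ⟨e1, h⟩ | ⟨e1, e2, h⟩ | ⟨e1, e2, h⟩ | ⟨e1, e2, h⟩ | ⟨e1, e2, h⟩ | ⟨e1, e2, h⟩
  · omega
  · omega
  · have := rank_sw_row (g := chart v0 x) p q 9 2 l1 a1 b1 c1 (by omega) (by omega)
    omega
  · have := rank_sw_row (g := chart v0 x) p q 6 5 l2 a2 b2 c2 (by omega) (by omega)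
    omega
  · have := rank_sw_row (g := chart v0 x) p q 4 7 l3 a3 b3 c3 (by omega) (by omega)
    omega
  · have := rank_sw_col (g := chart v0 x) p q 8 1 l4 a4 b4 c4 (by omega) (by omega)
    omega
  · have := rank_sw_col (g := chart v0 x) p q 4 5 l5 a5 b5 c5 (by omega) (by omega)
    omega
  · have := rank_sw_col (g := chart v0 x) p q 1 9 l6 a6 b6 c6 (by omega) (by omega)
    omega

end Pool.Agent.W442.SV
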