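import Mathlib
import Pool.Agent.W442.SV.Mem

open MvPolynomial Filter Topology

set_option linter.unusedSimpArgs false

namespace Pool.Agent.W442.SV

/-- The matrix of coordinates of a point. -/
def ptM (P L s m t Y Q r u n v k l g h x1 x2 w y : ℂ) : Fin 10 → Fin 10 → ℂ :=
  ![![0, 0, 0, 0, 0, 0, 0, 0, 0, 0],
    ![0, 0, 0, 0, 0, 0, 0, 0, 0, 0],
    ![0, 0, 0, 0, 0, 0, 0, 0, 0, 0],
    ![k, l, 0, 0, 0, 0, 0, 0, 0, 0],
    ![g, h, 0, 0, 0, 0, 0, 0, 0, 0],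
    ![x1, x2, 0, 0, 0, 0, 0, 0, 0, 0],
    ![0, w, 0, 0, 0, 0, 0, 0, 0, 0],
    ![0, Q, 0, r, u, n, v, 0, 0, 0],
    ![0, y, 0, 0, 0, 0, 0, 0, 0, 0],
    ![P, L, 0, 0, s, m, t, 0, Y, 0]]

/-- A point of the chart with vanishing inversion coordinates. -/
def pt (P L s m t Y Q r u n v k l g h x1 x2 w y : ℂ) : Low 10 → ℂ :=
  fun i => ptM P L s m t Y Q r u n v k l g h x1 x2 w y i.1.1 i.1.2

section
variable (P L s m t Y Q r u n v k l g h x1 x2 w y : ℂ)

theorem p10 : pt P L s m t Y Q r u n v k l g h x1 x2 w y (ix 1 0) = 0 := rfl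
theorem p20 : pt P L s m t Y Q r u n v k l g h x1 x2 w y (ix 2 0) = 0 := rfl
theorem p21 : pt P L s m t Y Q r u n v k l g h x1 x2 w y (ix 2 1) = 0 := rfl
theorem p30 : pt P L s m t Y Q r u n v k l g h x1 x2 w y (ix 3 0) = k := rfl
theorem p31 : pt P L s m t Y Q r u n v k l g h x1 x2 w y (ix 3 1) = l := rfl
theorem p32 : pt P L s m t Y Q r u n v k l g h x1 x2 w y (ix 3 2) = 0 := rfl
theorem p40 : pt P L s m t Y Q r u n v k l g h x1 x2 w y (ix 4 0) = g := rfl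
theorem p41 : pt P L s m t Y Q r u n v k l g h x1 x2 w y (ix 4 1) = h := rfl
theorem p42 : pt P L s m t Y Q r u n v k l g h x1 x2 w y (ix 4 2) = 0 := rfl
theorem p43 : pt P L s m t Y Q r u n v k l g h x1 x2 w y (ix 4 3) = 0 := rfl
theorem p50 : pt P L s m t Y Q r u n v k l g h x1 x2 w y (ix 5 0) = x1 := rfl
theorem p51 : pt P L s m t Y Q r u n v k l g h x1 x2 w y (ix 5 1) = x2 := rfl
theorem p52 : pt P L s m t Y Q r u n v k l g h x1 x2 w y (ix 5 2) = 0 := rfl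
theorem p53 : pt P L s m t Y Q r u n v k l g h x1 x2 w y (ix 5 3) = 0 := rfl
theorem p54 : pt P L s m t Y Q r u n v k l g h x1 x2 w y (ix 5 4) = 0 := rfl
theorem p60 : pt P L s m t Y Q r u n v k l g h x1 x2 w y (ix 6 0) = 0 := rfl
theorem p61 : pt P L s m t Y Q r u n v k l g h x1 x2 w y (ix 6 1) = w := rfl
theorem p62 : pt P L s m t Y Q r u n v k l g h x1 x2 w y (ix 6 2) = 0 := rfl
theorem p63 : pt P L s m t Y Q r u n v k l g h x1 x2 w y (ix 6 3) = 0 := rfl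
theorem p64 : pt P L s m t Y Q r u n v k l g h x1 x2 w y (ix 6 4) = 0 := rfl
theorem p65 : pt P L s m t Y Q r u n v k l g h x1 x2 w y (ix 6 5) = 0 := rfl
theorem p70 : pt P L s m t Y Q r u n v k l g h x1 x2 w y (ix 7 0) = 0 := rfl
theorem p71 : pt P L s m t Y Q r u n v k l g h x1 x2 w y (ix 7 1) = Q := rfl
theorem p72 : pt P L s m t Y Q r u n v k l g h x1 x2 w y (ix 7 2) = 0 := rfl
theorem p73 : pt P L s m t Y Q r u n v k l g h x1 x2 w y (ix 7 3) = r := rfl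
theorem p74 : pt P L s m t Y Q r u n v k l g h x1 x2 w y (ix 7 4) = u := rfl
theorem p75 : pt P L s m t Y Q r u n v k l g h x1 x2 w y (ix 7 5) = n := rfl
theorem p76 : pt P L s m t Y Q r u n v k l g h x1 x2 w y (ix 7 6) = v := rfl
theorem p80 : pt P L s m t Y Q r u n v k l g h x1 x2 w y (ix 8 0) = 0 := rfl
theorem p81 : pt P L s m t Y Q r u n v k l g h x1 x2 w y (ix 8 1) = y := rfl
theorem p82 : pt P L s m t Y Q r u n v k l g h x1 x2 w y (ix 8 2) = 0 := rfl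
theorem p83 : pt P L s m t Y Q r u n v k l g h x1 x2 w y (ix 8 3) = 0 := rfl
theorem p84 : pt P L s m t Y Q r u n v k l g h x1 x2 w y (ix 8 4) = 0 := rfl
theorem p85 : pt P L s m t Y Q r u n v k l g h x1 x2 w y (ix 8 5) = 0 := rfl
theorem p86 : pt P L s m t Y Q r u n v k l g h x1 x2 w y (ix 8 6) = 0 := rfl
theorem p87 : pt P L s m t Y Q r u n v k l g h x1 x2 w y (ix 8 7) = 0 := rfl
theorem p90 : pt P L s m t Y Q r u n v k l g h x1 x2 w y (ix 9 0) = P := rfl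
theorem p91 : pt P L s m t Y Q r u n v k l g h x1 x2 w y (ix 9 1) = L := rfl
theorem p92 : pt P L s m t Y Q r u n v k l g h x1 x2 w y (ix 9 2) = 0 := rfl
theorem p93 : pt P L s m t Y Q r u n v k l g h x1 x2 w y (ix 9 3) = 0 := rfl
theorem p94 : pt P L s m t Y Q r u n v k l g h x1 x2 w y (ix 9 4) = s := rfl
theorem p95 : pt P L s m t Y Q r u n v k l g h x1 x2 w y (ix 9 5) = m := rfl
theorem p96 : pt P L s m t Y Q r u n v k l g h x1 x2 w y (ix 9 6) = t := rfl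
theorem p97 : pt P L s m t Y Q r u n v k l g h x1 x2 w y (ix 9 7) = 0 := rfl
theorem p98 : pt P L s m t Y Q r u n v k l g h x1 x2 w y (ix 9 8) = Y := rfl

end

end Pool.Agent.W442.SV
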