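import Mathlib
import Pool.Agent.W442.SV.Pt

open MvPolynomial Filter Topology

set_option linter.unusedSimpArgs false

namespace Pool.Agent.W442.SV

theorem sum10 (F : Fin 10 → ℂ) : ∑ i, F i =
    F 0 + F 1 + F 2 + F 3 + F 4 + F 5 + F 6 + F 7 + F 8 + F 9 := by
  simp only [Fin.sum_univ_castSucc, Fin.sum_univ_zero, zero_add]
  rfl

theorem lt2 {P : Fin 10 → Prop} (h0 : P 0) (h1 : P 1) :
    ∀ j : Fin 10, (j : ℕ) < 2 → P j := by
  intro j hj
  fin_cases j
  exacts [h0, h1, absurd hj (by decide), absurd hj (by decide), absurd hj (by decide), absurd hj (by decide), absurd hj (by decide), absurd hj (by decide), absurd hj (by decide), absurd hj (by decide)]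

theorem lt5 {P : Fin 10 → Prop} (h0 : P 0) (h1 : P 1) (h2 : P 2) (h3 : P 3) (h4 : P 4) :
    ∀ j : Fin 10, (j : ℕ) < 5 → P j := by
  intro j hj
  fin_cases j
  exacts [h0, h1, h2, h3, h4, absurd hj (by decide), absurd hj (by decide), absurd hj (by decide), absurd hj (by decide), absurd hj (by decide)]

theorem lt7 {P : Fin 10 → Prop} (h0 : P 0) (h1 : P 1) (h2 : P 2) (h3 : P 3) (h4 : P 4) (h5 : P 5) (h6 : P 6) :
    ∀ j : Fin 10, (j : ℕ) < 7 → P j := by
  intro j hj
  fin_cases j
  exacts [h0, h1, h2, h3, h4, h5, h6, absurd hj (by decide), absurd hj (by decide), absurd hj (by decide)]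

theorem ge8 {P : Fin 10 → Prop} (h8 : P 8) (h9 : P 9) :
    ∀ j : Fin 10, 8 ≤ (j : ℕ) → P j := by
  intro j hj
  fin_cases j
  exacts [absurd hj (by decide), absurd hj (by decide), absurd hj (by decide), absurd hj (by decide), absurd hj (by decide), absurd hj (by decide), absurd hj (by decide), absurd hj (by decide), h8, h9]

theorem ge4 {P : Fin 10 → Prop} (h4 : P 4) (h5 : P 5) (h6 : P 6) (h7 : P 7) (h8 : P 8) (h9 : P 9) :
    ∀ j : Fin 10, 4 ≤ (j : ℕ) → P j := by
  intro j hj
  fin_cases j
  exacts [absurd hj (by decide), absurd hj (by decide), absurd hj (by decide), absurd hj (by decide), h4, h5, h6, h7, h8, h9]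

theorem ge1 {P : Fin 10 → Prop} (h1 : P 1) (h2 : P 2) (h3 : P 3) (h4 : P 4) (h5 : P 5) (h6 : P 6) (h7 : P 7) (h8 : P 8) (h9 : P 9) :
    ∀ j : Fin 10, 1 ≤ (j : ℕ) → P j := by
  intro j hj
  fin_cases j
  exacts [absurd hj (by decide), h1, h2, h3, h4, h5, h6, h7, h8, h9]

/-- The conditions for a point with vanishing inversion coordinates. -/
def Zc (P' Q' x1 x2 t v s u m n y Y w k r g : ℂ) : Prop :=
  (∃ a b : ℂ, (a ≠ 0 ∨ b ≠ 0) ∧ a * P' - b * (k * r + g * u + n * x1) = 0 ∧
    a * (y * Y + w * t) + b * Q' = 0 ∧ a * t + b * v = 0) ∧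
  (∃ a b : ℂ, (a ≠ 0 ∨ b ≠ 0) ∧ a * (P' + m * x1) - b * (k * r + g * u) = 0 ∧
    a * (y * Y + w * t + m * x2) + b * (Q' + n * x2) = 0 ∧ a * s + b * u = 0) ∧
  (∃ a b : ℂ, (a ≠ 0 ∨ b ≠ 0) ∧ a * x1 + b * x2 = 0 ∧ a * P' + b * (y * Y + w * t) = 0 ∧
    b * Q' - a * (k * r + g * u + n * x1) = 0)

theorem mem_patch {P' Q' x1 x2 t v s u m n y Y w k r g : ℂ} (h l : ℂ)
    (hz : Zc P' Q' x1 x2 t v s u m n y Y w k r g) :
    pt (P' + m * x1 + g * s) (y * Y + w * t + m * x2 + h * s) s m t Y (Q' + n * x2 + r * l + u * h) r u n v k l
      g h x1 x2 w y ∈ patch v0 w0 := by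
  obtain ⟨⟨a, b, hab, B1, B2, B3⟩, ⟨c, d, hcd, C1, C2, C3⟩, ⟨e, f, hef, A1, A2, A3⟩⟩ := hz
  apply mem_of_rel
  · refine ⟨![0, 0, 0, 0, 0, 0, 0, 0, 0, 1], ?_, ?_, ?_⟩
    · intro hcon
      exact one_ne_zero (congrFun hcon 9)
    · intro i hi
      fin_cases i
      exacts [rfl, rfl, rfl, rfl, rfl, rfl, rfl, rfl, rfl, absurd hi (by decide)]
    · apply lt2
      · simp only [sum10, Matrix.cons_val, e00, p10, e10, p80, e20, p60, e30, e40, p50, e50, p40, e60, p90, e70, p30, e80, p70, e90, p20]
        linear_combination 0
      · simp only [sum10, Matrix.cons_val, e01, e11, p81, e21, p61, e31, e41, p51, e51, p41, e61, p91, e71, p31, e81, p71, e91, p21]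
        linear_combination 0
  · refine ⟨![0, 0, 0, 0, 0, 0, c, -(d * r), d, 0], ?_, ?_, ?_⟩
    · intro hcon
      rcases hcd with hne | hne
      · exact hne (congrFun hcon 6)
      · exact hne (congrFun hcon 8)
    · intro i hi
      fin_cases i
      exacts [rfl, rfl, rfl, rfl, rfl, rfl, absurd hi (by decide), absurd hi (by decide), absurd hi (by decide), absurd hi (by decide)]
    · apply lt5
      · simp only [sum10, Matrix.cons_val, e00, p10, e10, p80, e20, p60, e30, e40, p50, e50, p40, e60, p90, e70, p30, e80, p70, e90, p20]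
        linear_combination C1 + g * C3
      · simp only [sum10, Matrix.cons_val, e01, e11, p81, e21, p61, e31, e41, p51, e51, p41, e61, p91, e71, p31, e81, p71, e91, p21]
        linear_combination C2 + h * C3
      · simp only [sum10, Matrix.cons_val, e02, e12, p82, e22, p62, e32, e42, p52, e52, p42, e62, p92, e72, p32, e82, p72, e92]
        linear_combination 0
      · simp only [sum10, Matrix.cons_val, e03, e13, p83, e23, p63, e33, e43, p53, e53, p43, e63, p93, e73, e83, p73, e93]
        linear_combination 0
      · simp only [sum10, Matrix.cons_val, e04, e14, p84, e24, p64, e34, e44, p54, e54, e64, p94, e74, e84, p74, e94]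
        linear_combination C3
  · refine ⟨![0, 0, 0, 0, -(a * m + b * n), -(a * s + b * u), a, -(b * r), b, 0], ?_, ?_, ?_⟩
    · intro hcon
      rcases hab with hne | hne
      · exact hne (congrFun hcon 6)
      · exact hne (congrFun hcon 8)
    · intro i hi
      fin_cases i
      exacts [rfl, rfl, rfl, rfl, absurd hi (by decide), absurd hi (by decide), absurd hi (by decide), absurd hi (by decide), absurd hi (by decide), absurd hi (by decide)]
    · apply lt7
      · simp only [sum10, Matrix.cons_val, e00, p10, e10, p80, e20, p60, e30, e40, p50, e50, p40, e60, p90, e70, p30, e80, p70, e90, p20]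
        linear_combination B1
      · simp only [sum10, Matrix.cons_val, e01, e11, p81, e21, p61, e31, e41, p51, e51, p41, e61, p91, e71, p31, e81, p71, e91, p21]
        linear_combination B2
      · simp only [sum10, Matrix.cons_val, e02, e12, p82, e22, p62, e32, e42, p52, e52, p42, e62, p92, e72, p32, e82, p72, e92]
        linear_combination 0
      · simp only [sum10, Matrix.cons_val, e03, e13, p83, e23, p63, e33, e43, p53, e53, p43, e63, p93, e73, e83, p73, e93]
        linear_combination 0
      · simp only [sum10, Matrix.cons_val, e04, e14, p84, e24, p64, e34, e44, p54, e54, e64, p94, e74, e84, p74, e94]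
        linear_combination 0
      · simp only [sum10, Matrix.cons_val, e05, e15, p85, e25, p65, e35, e45, e55, e65, p95, e75, e85, p75, e95]
        linear_combination 0
      · simp only [sum10, Matrix.cons_val, e06, e16, p86, e26, e36, e46, e56, e66, p96, e76, e86, p76, e96]
        linear_combination B3
  · refine ⟨![1, 0, 0, 0, 0, 0, 0, 0, 0, 0], ?_, ?_, ?_⟩
    · intro hcon
      exact one_ne_zero (congrFun hcon 0)
    · intro i hi
      fin_cases i
      exacts [absurd hi (by decide), rfl, rfl, rfl, rfl, rfl, rfl, rfl, rfl, rfl]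
    · apply ge8
      · simp only [sum10, Matrix.cons_val, e80, p70, e81, p71, e82, p72, e83, p73, e84, p74, e85, p75, e86, p76, e87, e88, e89]
        linear_combination 0
      · simp only [sum10, Matrix.cons_val, e90, p20, e91, p21, e92, e93, e94, e95, e96, e97, e98, e99]
        linear_combination 0
  · refine ⟨![e, f, 0, -(e * k + f * l), -(e * g + f * h), 0, 0, 0, 0, 0], ?_, ?_, ?_⟩
    · intro hcon
      rcases hef with hne | hne
      · exact hne (congrFun hcon 0)
      · exact hne (congrFun hcon 1)
    · intro i hi
      fin_cases i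
      exacts [absurd hi (by decide), absurd hi (by decide), absurd hi (by decide), absurd hi (by decide), absurd hi (by decide), rfl, rfl, rfl, rfl, rfl]
    · apply ge4
      · simp only [sum10, Matrix.cons_val, e40, p50, e41, p51, e42, p52, e43, p53, e44, p54, e45, e46, e47, e48, e49]
        linear_combination A1
      · simp only [sum10, Matrix.cons_val, e50, p40, e51, p41, e52, p42, e53, p43, e54, e55, e56, e57, e58, e59]
        linear_combination 0
      · simp only [sum10, Matrix.cons_val, e60, p90, e61, p91, e62, p92, e63, p93, e64, p94, e65, p95, e66, p96, e67, p97, e68, p98, e69]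
        linear_combination A2 + m * A1
      · simp only [sum10, Matrix.cons_val, e70, p30, e71, p31, e72, p32, e73, e74, e75, e76, e77, e78, e79]
        linear_combination 0
      · simp only [sum10, Matrix.cons_val, e80, p70, e81, p71, e82, p72, e83, p73, e84, p74, e85, p75, e86, p76, e87, e88, e89]
        linear_combination A3 + n * A1
      · simp only [sum10, Matrix.cons_val, e90, p20, e91, p21, e92, e93, e94, e95, e96, e97, e98, e99]
        linear_combination 0
  · refine ⟨![0, 1, 0, -l, -h, -x2, -w, -(Q' - v * w), -y, 0], ?_, ?_, ?_⟩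
    · intro hcon
      exact one_ne_zero (congrFun hcon 1)
    · intro i hi
      fin_cases i
      exacts [absurd hi (by decide), absurd hi (by decide), absurd hi (by decide), absurd hi (by decide), absurd hi (by decide), absurd hi (by decide), absurd hi (by decide), absurd hi (by decide), absurd hi (by decide), rfl]
    · apply ge1
      · simp only [sum10, Matrix.cons_val, e10, p80, e11, p81, e12, p82, e13, p83, e14, p84, e15, p85, e16, p86, e17, p87, e18, e19]
        linear_combination 0
      · simp only [sum10, Matrix.cons_val, e20, p60, e21, p61, e22, p62, e23, p63, e24, p64, e25, p65, e26, e27, e28, e29]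
        linear_combination 0
      · simp only [sum10, Matrix.cons_val, e30, e31, e32, e33, e34, e35, e36, e37, e38, e39]
        linear_combination 0
      · simp only [sum10, Matrix.cons_val, e40, p50, e41, p51, e42, p52, e43, p53, e44, p54, e45, e46, e47, e48, e49]
        linear_combination 0
      · simp only [sum10, Matrix.cons_val, e50, p40, e51, p41, e52, p42, e53, p43, e54, e55, e56, e57, e58, e59]
        linear_combination 0
      · simp only [sum10, Matrix.cons_val, e60, p90, e61, p91, e62, p92, e63, p93, e64, p94, e65, p95, e66, p96, e67, p97, e68, p98, e69]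
        linear_combination 0
      · simp only [sum10, Matrix.cons_val, e70, p30, e71, p31, e72, p32, e73, e74, e75, e76, e77, e78, e79]
        linear_combination 0
      · simp only [sum10, Matrix.cons_val, e80, p70, e81, p71, e82, p72, e83, p73, e84, p74, e85, p75, e86, p76, e87, e88, e89]
        linear_combination 0
      · simp only [sum10, Matrix.cons_val, e90, p20, e91, p21, e92, e93, e94, e95, e96, e97, e98, e99]
        linear_combination 0

end Pool.Agent.W442.SV
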