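import Mathlib
import Pool.Agent.W442.SV.Pt2

open MvPolynomial Filter Topology

set_option linter.unusedSimpArgs false

namespace Pool.Agent.W442.SV

theorem cont_pt {P L s m t Y Q r u n v k l g h x1 x2 w y : ℂ → ℂ} (cP : ContinuousAt P 0) (cL : ContinuousAt L 0) (cs : ContinuousAt s 0) (cm : ContinuousAt m 0) (ct : ContinuousAt t 0) (cY : ContinuousAt Y 0) (cQ : ContinuousAt Q 0) (cr : ContinuousAt r 0) (cu : ContinuousAt u 0) (cn : ContinuousAt n 0) (cv : ContinuousAt v 0) (ck : ContinuousAt k 0) (cl : ContinuousAt l 0) (cg : ContinuousAt g 0) (ch : ContinuousAt h 0) (cx1 : ContinuousAt x1 0) (cx2 : ContinuousAt x2 0) (cw : ContinuousAt w 0) (cy : ContinuousAt y 0) :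
    ContinuousAt (fun ε => pt (P ε) (L ε) (s ε) (m ε) (t ε) (Y ε) (Q ε) (r ε) (u ε) (n ε) (v ε) (k ε) (l ε) (g ε) (h ε) (x1 ε) (x2 ε) (w ε) (y ε)) 0 := by
  apply continuousAt_pi.mpr
  rintro ⟨⟨i, j⟩, hij⟩
  have key : ∀ i j : Fin 10, ContinuousAt (fun ε => ptM (P ε) (L ε) (s ε) (m ε) (t ε) (Y ε) (Q ε) (r ε) (u ε) (n ε) (v ε) (k ε) (l ε) (g ε) (h ε) (x1 ε) (x2 ε) (w ε) (y ε) i j) 0 := by
    intro i
    fin_cases i
    · intro j
      fin_cases j
      exacts [continuousAt_const, continuousAt_const, continuousAt_const, continuousAt_const, continuousAt_const, continuousAt_const, continuousAt_const, continuousAt_const, continuousAt_const, continuousAt_const]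
    · intro j
      fin_cases j
      exacts [continuousAt_const, continuousAt_const, continuousAt_const, continuousAt_const, continuousAt_const, continuousAt_const, continuousAt_const, continuousAt_const, continuousAt_const, continuousAt_const]
    · intro j
      fin_cases j
      exacts [continuousAt_const, continuousAt_const, continuousAt_const, continuousAt_const, continuousAt_const, continuousAt_const, continuousAt_const, continuousAt_const, continuousAt_const, continuousAt_const]
    · intro j
      fin_cases j
      exacts [ck, cl, continuousAt_const, continuousAt_const, continuousAt_const, continuousAt_const, continuousAt_const, continuousAt_const, continuousAt_const, continuousAt_const]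
    · intro j
      fin_cases j
      exacts [cg, ch, continuousAt_const, continuousAt_const, continuousAt_const, continuousAt_const, continuousAt_const, continuousAt_const, continuousAt_const, continuousAt_const]
    · intro j
      fin_cases j
      exacts [cx1, cx2, continuousAt_const, continuousAt_const, continuousAt_const, continuousAt_const, continuousAt_const, continuousAt_const, continuousAt_const, continuousAt_const]
    · intro j
      fin_cases j
      exacts [continuousAt_const, cw, continuousAt_const, continuousAt_const, continuousAt_const, continuousAt_const, continuousAt_const, continuousAt_const, continuousAt_const, continuousAt_const]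
    · intro j
      fin_cases j
      exacts [continuousAt_const, cQ, continuousAt_const, cr, cu, cn, cv, continuousAt_const, continuousAt_const, continuousAt_const]
    · intro j
      fin_cases j
      exacts [continuousAt_const, cy, continuousAt_const, continuousAt_const, continuousAt_const, continuousAt_const, continuousAt_const, continuousAt_const, continuousAt_const, continuousAt_const]
    · intro j
      fin_cases j
      exacts [cP, cL, continuousAt_const, continuousAt_const, cs, cm, ct, continuousAt_const, cY, continuousAt_const]
  exact key i j

end Pool.Agent.W442.SV
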