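import Mathlib
import Pool.Agent.W442.SV.Ct

open MvPolynomial Filter Topology

set_option linter.unusedSimpArgs false

namespace Pool.Agent.W442.SV

theorem smul_pt (c P L s m t Y Q r u n v k l g h x1 x2 w y : ℂ) :
    c • pt P L s m t Y Q r u n v k l g h x1 x2 w y =
      pt (c * P) (c * L) (c * s) (c * m) (c * t) (c * Y) (c * Q) (c * r) (c * u) (c * n) (c * v) (c * k) (c * l) (c * g) (c * h) (c * x1) (c * x2) (c * w) (c * y) := by
  have key : ∀ i j : Fin 10, c * ptM P L s m t Y Q r u n v k l g h x1 x2 w y i j =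
      ptM (c * P) (c * L) (c * s) (c * m) (c * t) (c * Y) (c * Q) (c * r) (c * u) (c * n) (c * v) (c * k) (c * l) (c * g) (c * h) (c * x1) (c * x2) (c * w) (c * y) i j := by
    intro i
    fin_cases i
    · intro j
      fin_cases j
      exacts [mul_zero c, mul_zero c, mul_zero c, mul_zero c, mul_zero c, mul_zero c, mul_zero c, mul_zero c, mul_zero c, mul_zero c]
    · intro j
      fin_cases j
      exacts [mul_zero c, mul_zero c, mul_zero c, mul_zero c, mul_zero c, mul_zero c, mul_zero c, mul_zero c, mul_zero c, mul_zero c]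
    · intro j
      fin_cases j
      exacts [mul_zero c, mul_zero c, mul_zero c, mul_zero c, mul_zero c, mul_zero c, mul_zero c, mul_zero c, mul_zero c, mul_zero c]
    · intro j
      fin_cases j
      exacts [rfl, rfl, mul_zero c, mul_zero c, mul_zero c, mul_zero c, mul_zero c, mul_zero c, mul_zero c, mul_zero c]
    · intro j
      fin_cases j
      exacts [rfl, rfl, mul_zero c, mul_zero c, mul_zero c, mul_zero c, mul_zero c, mul_zero c, mul_zero c, mul_zero c]
    · intro j
      fin_cases j
      exacts [rfl, rfl, mul_zero c, mul_zero c, mul_zero c, mul_zero c, mul_zero c, mul_zero c, mul_zero c, mul_zero c]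
    · intro j
      fin_cases j
      exacts [mul_zero c, rfl, mul_zero c, mul_zero c, mul_zero c, mul_zero c, mul_zero c, mul_zero c, mul_zero c, mul_zero c]
    · intro j
      fin_cases j
      exacts [mul_zero c, rfl, mul_zero c, rfl, rfl, rfl, rfl, mul_zero c, mul_zero c, mul_zero c]
    · intro j
      fin_cases j
      exacts [mul_zero c, rfl, mul_zero c, mul_zero c, mul_zero c, mul_zero c, mul_zero c, mul_zero c, mul_zero c, mul_zero c]
    · intro j
      fin_cases j
      exacts [rfl, rfl, mul_zero c, mul_zero c, rfl, rfl, rfl, mul_zero c, rfl, mul_zero c]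
  funext i
  exact key i.1.1 i.1.2

theorem dir_of_pt (a : Low 10 → ℂ) (h20 : a (ix 2 0) = 0) (h21 : a (ix 2 1) = 0)
    (h70 : a (ix 7 0) = 0) (h91 : a (ix 9 1) = 0)
    (hd : Dir (pt (a (ix 9 0)) 0 (a (ix 9 4)) (a (ix 9 5)) (a (ix 9 6)) (a (ix 9 8)) (a (ix 7 1)) (a (ix 7 3)) (a (ix 7 4)) (a (ix 7 5)) (a (ix 7 6)) (a (ix 3 0)) (a (ix 3 1)) (a (ix 4 0)) (a (ix 4 1)) (a (ix 5 0)) (a (ix 5 1)) (a (ix 6 1)) (a (ix 8 1)))) : Dir a := by
  have h := hd.act (c := a - pt (a (ix 9 0)) 0 (a (ix 9 4)) (a (ix 9 5)) (a (ix 9 6)) (a (ix 9 8)) (a (ix 7 1)) (a (ix 7 3)) (a (ix 7 4)) (a (ix 7 5)) (a (ix 7 6)) (a (ix 3 0)) (a (ix 3 1)) (a (ix 4 0)) (a (ix 4 1)) (a (ix 5 0)) (a (ix 5 1)) (a (ix 6 1)) (a (ix 8 1))) ?_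
  · rwa [add_sub_cancel] at h
  · rintro ⟨⟨i, j⟩, hij⟩ hi
    fin_cases i
    · fin_cases j
      exacts [absurd hij (by decide), absurd hij (by decide), absurd hij (by decide), absurd hij (by decide), absurd hij (by decide), absurd hij (by decide), absurd hij (by decide), absurd hij (by decide), absurd hij (by decide), absurd hij (by decide)]
    · fin_cases j
      exacts [absurd (show v0 1 < v0 0 by decide) hi, absurd hij (by decide), absurd hij (by decide), absurd hij (by decide), absurd hij (by decide), absurd hij (by decide), absurd hij (by decide), absurd hij (by decide), absurd hij (by decide), absurd hij (by decide)]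
    · fin_cases j
      exacts [sub_eq_zero.mpr h20, sub_eq_zero.mpr h21, absurd hij (by decide), absurd hij (by decide), absurd hij (by decide), absurd hij (by decide), absurd hij (by decide), absurd hij (by decide), absurd hij (by decide), absurd hij (by decide)]
    · fin_cases j
      exacts [sub_self _, sub_self _, absurd (show v0 3 < v0 2 by decide) hi, absurd hij (by decide), absurd hij (by decide), absurd hij (by decide), absurd hij (by decide), absurd hij (by decide), absurd hij (by decide), absurd hij (by decide)]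
    · fin_cases j
      exacts [sub_self _, sub_self _, absurd (show v0 4 < v0 2 by decide) hi, absurd (show v0 4 < v0 3 by decide) hi, absurd hij (by decide), absurd hij (by decide), absurd hij (by decide), absurd hij (by decide), absurd hij (by decide), absurd hij (by decide)]
    · fin_cases j
      exacts [sub_self _, sub_self _, absurd (show v0 5 < v0 2 by decide) hi, absurd (show v0 5 < v0 3 by decide) hi, absurd (show v0 5 < v0 4 by decide) hi, absurd hij (by decide), absurd hij (by decide), absurd hij (by decide), absurd hij (by decide), absurd hij (by decide)]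
    · fin_cases j
      exacts [absurd (show v0 6 < v0 0 by decide) hi, sub_self _, absurd (show v0 6 < v0 2 by decide) hi, absurd (show v0 6 < v0 3 by decide) hi, absurd (show v0 6 < v0 4 by decide) hi, absurd (show v0 6 < v0 5 by decide) hi, absurd hij (by decide), absurd hij (by decide), absurd hij (by decide), absurd hij (by decide)]
    · fin_cases j
      exacts [sub_eq_zero.mpr h70, sub_self _, absurd (show v0 7 < v0 2 by decide) hi, sub_self _, sub_self _, sub_self _, sub_self _, absurd hij (by decide), absurd hij (by decide), absurd hij (by decide)]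
    · fin_cases j
      exacts [absurd (show v0 8 < v0 0 by decide) hi, sub_self _, absurd (show v0 8 < v0 2 by decide) hi, absurd (show v0 8 < v0 3 by decide) hi, absurd (show v0 8 < v0 4 by decide) hi, absurd (show v0 8 < v0 5 by decide) hi, absurd (show v0 8 < v0 6 by decide) hi, absurd (show v0 8 < v0 7 by decide) hi, absurd hij (by decide), absurd hij (by decide)]
    · fin_cases j
      exacts [sub_self _, sub_eq_zero.mpr h91, absurd (show v0 9 < v0 2 by decide) hi, absurd (show v0 9 < v0 3 by decide) hi, sub_self _, sub_self _, sub_self _, absurd (show v0 9 < v0 7 by decide) hi, sub_self _, absurd hij (by decide)]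

theorem Zc.scale {P' Q' x1 x2 t v s u m n y Y w k r g : ℂ} (ε : ℂ)
    (hz : Zc P' Q' x1 x2 t v s u m n y Y w k r g) :
    Zc (ε ^ 2 * P') (ε ^ 2 * Q') (ε * x1) (ε * x2) (ε * t) (ε * v) (ε * s) (ε * u) (ε * m) (ε * n)
      (ε * y) (ε * Y) (ε * w) (ε * k) (ε * r) (ε * g) := by
  obtain ⟨⟨a, b, hab, B1, B2, B3⟩, ⟨c, d, hcd, C1, C2, C3⟩, ⟨e, f, hef, A1, A2, A3⟩⟩ := hz
  refine ⟨⟨a, b, hab, ?_, ?_, ?_⟩, ⟨c, d, hcd, ?_, ?_, ?_⟩, ⟨e, f, hef, ?_, ?_, ?_⟩⟩
  · linear_combination ε ^ 2 * B1
  · linear_combination ε ^ 2 * B2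
  · linear_combination ε * B3
  · linear_combination ε ^ 2 * C1
  · linear_combination ε ^ 2 * C2
  · linear_combination ε * C3
  · linear_combination ε * A1
  · linear_combination ε ^ 2 * A2
  · linear_combination ε ^ 2 * A3

theorem dir_scale {P' Q' x1 x2 t v s u m n y Y w k r g : ℂ} (h l : ℂ)
    (hz : Zc P' Q' x1 x2 t v s u m n y Y w k r g) :
    Dir (pt 0 0 s m t Y 0 r u n v k l g h x1 x2 w y) := by
  refine ⟨fun ε => pt (ε * (P' + m * x1 + g * s)) (ε * (y * Y + w * t + m * x2 + h * s)) s m t Y
    (ε * (Q' + n * x2 + r * l + u * h)) r u n v k l g h x1 x2 w y, ?_, ?_, ?_⟩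
  · apply cont_pt <;> fun_prop
  · simp only [zero_mul]
  · refine Eventually.of_forall fun ε => ?_
    have h1 := mem_patch (ε * h) (ε * l) (hz.scale ε)
    have h2 : ε • pt (ε * (P' + m * x1 + g * s)) (ε * (y * Y + w * t + m * x2 + h * s)) s m t Y
        (ε * (Q' + n * x2 + r * l + u * h)) r u n v k l g h x1 x2 w y =
        pt (ε ^ 2 * P' + ε * m * (ε * x1) + ε * g * (ε * s))
          (ε * y * (ε * Y) + ε * w * (ε * t) + ε * m * (ε * x2) + ε * h * (ε * s)) (ε * s) (ε * m)
          (ε * t) (ε * Y) (ε ^ 2 * Q' + ε * n * (ε * x2) + ε * r * (ε * l) + ε * u * (ε * h))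
          (ε * r) (ε * u) (ε * n) (ε * v) (ε * k) (ε * l) (ε * g) (ε * h) (ε * x1) (ε * x2)
          (ε * w) (ε * y) := by
      rw [smul_pt]
      congr 1 <;> ring
    simp only [h2]
    exact h1

end Pool.Agent.W442.SV
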