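import Mathlib
import Pool.Agent.W442.SV.Fam

open MvPolynomial Filter Topology

set_option linter.unusedSimpArgs false

namespace Pool.Agent.W442.SV

/-- The coordinates other than `P` and `Q` extend to a point of the patch. -/
def ZX (x1 x2 t v s u m n y Y w k r g : ℂ) : Prop :=
  ∃ P' Q', Zc P' Q' x1 x2 t v s u m n y Y w k r g

section
variable {x1 x2 t v s u m n y Y w k r g : ℂ}

theorem zc1 (hv : v = 0) (hu : u = 0) (hn : n = 0) (hkr : k * r = 0) (hx2 : x2 ≠ 0) :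
    ZX x1 x2 t v s u m n y Y w k r g := by
  subst hv hu hn
  have hP : x1 * (y * Y + w * t) / x2 * x2 = x1 * (y * Y + w * t) := div_mul_cancel₀ _ hx2
  refine ⟨x1 * (y * Y + w * t) / x2, 0, ⟨0, 1, Or.inr one_ne_zero, ?_, ?_, ?_⟩,
    ⟨0, 1, Or.inr one_ne_zero, ?_, ?_, ?_⟩, ⟨x2, -x1, Or.inl hx2, ?_, ?_, ?_⟩⟩
  · linear_combination -hkr
  · ring
  · ring
  · linear_combination -hkr
  · ring
  · ring
  · ring
  · linear_combination hP
  · linear_combination -x2 * hkr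

theorem zc2 (ht : t = 0) (hm : m = 0) (hs : s = 0) (hy : y * Y = 0) (hx1 : x1 ≠ 0) :
    ZX x1 x2 t v s u m n y Y w k r g := by
  subst ht hm hs
  have hQ : -(x2 * (k * r + g * u + n * x1)) / x1 * x1 = -(x2 * (k * r + g * u + n * x1)) :=
    div_mul_cancel₀ _ hx1
  refine ⟨0, -(x2 * (k * r + g * u + n * x1)) / x1, ⟨1, 0, Or.inl one_ne_zero, ?_, ?_, ?_⟩,
    ⟨1, 0, Or.inl one_ne_zero, ?_, ?_, ?_⟩, ⟨x2, -x1, Or.inr (neg_ne_zero.mpr hx1), ?_, ?_, ?_⟩⟩
  · ring
  · linear_combination hy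
  · ring
  · ring
  · linear_combination hy
  · ring
  · ring
  · linear_combination -x1 * hy
  · linear_combination -hQ

theorem zc3 (h1 : x1 = 0) (h2 : x2 = 0) (hs : s = 0) (hu : u = 0) (ht : t ≠ 0) (hv : v ≠ 0) :
    ZX x1 x2 t v s u m n y Y w k r g := by
  subst h1 h2 hs hu
  have hP : -(k * r * t) / v * v = -(k * r * t) := div_mul_cancel₀ _ hv
  have hQ : (y * Y + w * t) * v / t * t = (y * Y + w * t) * v := div_mul_cancel₀ _ ht
  generalize -(k * r * t) / v = P' at hP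
  generalize (y * Y + w * t) * v / t = Q' at hQ
  refine ⟨P', Q', ⟨v, -t, Or.inl hv, ?_, ?_, ?_⟩, ⟨v, -t, Or.inl hv, ?_, ?_, ?_⟩, ?_⟩
  · linear_combination hP
  · linear_combination -hQ
  · ring
  · linear_combination hP
  · linear_combination -hQ
  · ring
  by_cases hT : y * Y + w * t = 0
  · refine ⟨0, 1, Or.inr one_ne_zero, ?_, ?_, ?_⟩
    · ring
    · linear_combination hT
    · have : t * Q' = 0 := by linear_combination hQ + v * hT
      have := (mul_eq_zero.mp this).resolve_left ht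
      linear_combination this
  · refine ⟨v * (y * Y + w * t), k * r * t, Or.inl (mul_ne_zero hv hT), ?_, ?_, ?_⟩
    · ring
    · linear_combination (y * Y + w * t) * hP
    · linear_combination k * r * hQ

theorem zc4 (h1 : x1 = 0) (h2 : x2 = 0) (ht : t = 0) (hv : v = 0) (hs : s ≠ 0) (hu : u ≠ 0) :
    ZX x1 x2 t v s u m n y Y w k r g := by
  subst h1 h2 ht hv
  have hP : -(s * (k * r + g * u)) / u * u = -(s * (k * r + g * u)) := div_mul_cancel₀ _ hu
  have hQ : u * (y * Y) / s * s = u * (y * Y) := div_mul_cancel₀ _ hs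
  generalize -(s * (k * r + g * u)) / u = P' at hP
  generalize u * (y * Y) / s = Q' at hQ
  refine ⟨P', Q', ⟨u, -s, Or.inl hu, ?_, ?_, ?_⟩, ⟨u, -s, Or.inl hu, ?_, ?_, ?_⟩, ?_⟩
  · linear_combination hP
  · linear_combination -hQ
  · ring
  · linear_combination hP
  · linear_combination -hQ
  · ring
  by_cases hT : y * Y = 0
  · refine ⟨0, 1, Or.inr one_ne_zero, ?_, ?_, ?_⟩
    · ring
    · linear_combination hT
    · have : s * Q' = 0 := by linear_combination hQ + u * hT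
      have := (mul_eq_zero.mp this).resolve_left hs
      linear_combination this
  · refine ⟨u * (y * Y), (k * r + g * u) * s, Or.inl (mul_ne_zero hu hT), ?_, ?_, ?_⟩
    · ring
    · linear_combination y * Y * hP
    · linear_combination (k * r + g * u) * hQ

theorem zc5 (h1 : x1 = 0) (h2 : x2 = 0) (hT : y * Y + w * t = 0) (hK : k * r + g * u = 0)
    (hv : v ≠ 0) (hs : s ≠ 0) : ZX x1 x2 t v s u m n y Y w k r g := by
  subst h1 h2
  refine ⟨0, 0, ⟨v, -t, Or.inl hv, ?_, ?_, ?_⟩, ⟨u, -s, Or.inr (neg_ne_zero.mpr hs), ?_, ?_, ?_⟩,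
    ⟨1, 0, Or.inl one_ne_zero, ?_, ?_, ?_⟩⟩
  · linear_combination t * hK
  · linear_combination v * hT
  · ring
  · linear_combination s * hK
  · linear_combination u * hT
  · ring
  · ring
  · ring
  · linear_combination -hK

theorem zc6 (hm : m = 0) (hn : n = 0) (hT : y * Y + w * t = 0) (hK : k * r + g * u = 0)
    (hv : v ≠ 0) (hs : s ≠ 0) (hx2 : x2 ≠ 0) : ZX x1 x2 t v s u m n y Y w k r g := by
  subst hm hn
  refine ⟨0, 0, ⟨v, -t, Or.inl hv, ?_, ?_, ?_⟩, ⟨u, -s, Or.inr (neg_ne_zero.mpr hs), ?_, ?_, ?_⟩,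
    ⟨x2, -x1, Or.inl hx2, ?_, ?_, ?_⟩⟩
  · linear_combination t * hK
  · linear_combination v * hT
  · ring
  · linear_combination s * hK
  · linear_combination u * hT
  · ring
  · ring
  · linear_combination -x1 * hT
  · linear_combination -x2 * hK

theorem zc7 (h1 : x1 = 0) (hs : s = 0) (hu : u = 0) (hT : y * Y + w * t = 0) (hkr : k * r = 0)
    (hv : v ≠ 0) (hn : n ≠ 0) : ZX x1 x2 t v s u m n y Y w k r g := by
  subst h1 hs hu
  refine ⟨0, 0, ⟨v, -t, Or.inl hv, ?_, ?_, ?_⟩, ⟨n, -m, Or.inl hn, ?_, ?_, ?_⟩,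
    ⟨1, 0, Or.inl one_ne_zero, ?_, ?_, ?_⟩⟩
  · linear_combination t * hkr
  · linear_combination v * hT
  · ring
  · linear_combination m * hkr
  · linear_combination n * hT
  · ring
  · ring
  · ring
  · linear_combination -hkr

theorem zc8 (h2 : x2 = 0) (ht : t = 0) (hs : s = 0) (hu : u = 0) (hy : y * Y = 0)
    (h1 : x1 ≠ 0) (hm : m ≠ 0) : ZX x1 x2 t v s u m n y Y w k r g := by
  subst h2 ht hs hu
  refine ⟨0, 0, ⟨1, 0, Or.inl one_ne_zero, ?_, ?_, ?_⟩,
    ⟨k * r, m * x1, Or.inr (mul_ne_zero hm h1), ?_, ?_, ?_⟩, ⟨0, 1, Or.inr one_ne_zero, ?_, ?_, ?_⟩⟩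
  · ring
  · linear_combination hy
  · ring
  · ring
  · linear_combination k * r * hy
  · ring
  · ring
  · linear_combination hy
  · ring

theorem zc9 (h2 : x2 = 0) (ht : t = 0) (hm : m = 0) (hy : y * Y = 0) (hK : k * r + g * u = 0)
    (hs : s ≠ 0) : ZX x1 x2 t v s u m n y Y w k r g := by
  subst h2 ht hm
  refine ⟨0, 0, ⟨1, 0, Or.inl one_ne_zero, ?_, ?_, ?_⟩,
    ⟨u, -s, Or.inr (neg_ne_zero.mpr hs), ?_, ?_, ?_⟩, ⟨0, 1, Or.inr one_ne_zero, ?_, ?_, ?_⟩⟩
  · ring
  · linear_combination hy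
  · ring
  · linear_combination s * hK
  · linear_combination u * hy
  · ring
  · ring
  · linear_combination hy
  · ring

end

end Pool.Agent.W442.SV
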