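import Mathlib
import Pool.Agent.W442.SV.Zc

open MvPolynomial Filter Topology

set_option linter.unusedSimpArgs false

namespace Pool.Agent.W442.SV

theorem near_ne {f : ℂ → ℂ} (hf : ContinuousAt f 0) (h0 : f 0 ≠ 0) :
    ∀ᶠ ε in 𝓝[≠] (0 : ℂ), f ε ≠ 0 :=
  (hf.eventually_ne h0).filter_mono nhdsWithin_le_nhds

theorem dirP (p s m t Y r n k l g h x1 w y : ℂ) (hp : p ≠ 0) :
    Dir (pt p 0 s m t Y 0 r 0 n 0 k l g h x1 0 w y) := by
  let D : ℂ → ℂ := fun ε => p + ε * (m * x1 + g * s)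
  let U : ℂ → ℂ := fun ε => -(ε * s * k * r) / D ε
  let K : ℂ → ℂ := fun ε => k * r + n * x1 + g * U ε
  let T : ℂ := y * Y + w * t
  let W : ℂ → ℂ := fun ε => ε * x1 * T / p
  let Vv : ℂ → ℂ := fun ε => -(ε * t * K ε) / p
  let R : ℂ → ℂ := fun ε => -(ε * T * K ε) / p
  have cD : ContinuousAt D 0 := by fun_prop
  have D0 : D 0 ≠ 0 := by simpa [D] using hp
  have cU : ContinuousAt U 0 := ContinuousAt.div (by fun_prop) cD D0
  have U0 : U 0 = 0 := by simp [U]
  have cK : ContinuousAt K 0 := by fun_prop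
  have cW : ContinuousAt W 0 := ContinuousAt.div (by fun_prop) (by fun_prop) hp
  have W0 : W 0 = 0 := by simp [W]
  have cV : ContinuousAt Vv 0 := ContinuousAt.div (by fun_prop) (by fun_prop) hp
  have V0 : Vv 0 = 0 := by simp [Vv]
  have cR : ContinuousAt R 0 := ContinuousAt.div (by fun_prop) (by fun_prop) hp
  refine ⟨fun ε => pt (p + ε * (m * x1 + g * s)) (ε * (T + m * W ε + h * s)) s m t Y
    (ε * (R ε + n * W ε + r * l + U ε * h)) r (U ε) n (Vv ε) k l g h x1 (W ε) w y, ?_, ?_, ?_⟩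
  · apply cont_pt <;> fun_prop
  · simp only [zero_mul, add_zero, U0, W0, V0]
  · have hb : ∀ᶠ ε in 𝓝[≠] (0 : ℂ), (fun ε => p + ε * (m * x1)) ε ≠ 0 := by
      apply near_ne
      · fun_prop
      · simpa using hp
    filter_upwards [near_ne cD D0, hb] with ε hD hb
    have eU : U ε * (p + ε * (m * x1 + g * s)) = -(ε * s * k * r) := div_mul_cancel₀ _ hD
    have eK : K ε = k * r + n * x1 + g * U ε := rfl
    have eW : W ε * p = ε * x1 * T := div_mul_cancel₀ _ hp
    have eV : Vv ε * p = -(ε * t * K ε) := div_mul_cancel₀ _ hp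
    have eR : R ε * p = -(ε * T * K ε) := div_mul_cancel₀ _ hp
    have eT : T = y * Y + w * t := rfl
    generalize U ε = U at *
    generalize K ε = K at *
    generalize W ε = W at *
    generalize Vv ε = V at *
    generalize R ε = R at *
    clear_value T
    have hWR : W * K + x1 * R = 0 := by
      have : p * (W * K + x1 * R) = 0 := by linear_combination K * eW + x1 * eR
      exact (mul_eq_zero.mp this).resolve_left hp
    have hz : Zc (ε * p) (ε ^ 2 * R) (ε * x1) (ε * W) (ε * t) (ε * V) (ε * s) (ε * U) (ε * m)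
        (ε * n) (ε * y) (ε * Y) (ε * w) (ε * k) (ε * r) (ε * g) := by
      refine ⟨⟨ε * K, p, Or.inr hp, ?_, ?_, ?_⟩, ⟨ε * (k * r + g * U), p + ε * (m * x1), Or.inr hb,
        ?_, ?_, ?_⟩, ⟨ε * T, -p, Or.inr (neg_ne_zero.mpr hp), ?_, ?_, ?_⟩⟩
      · linear_combination ε ^ 2 * p * eK
      · linear_combination ε ^ 2 * eR - ε ^ 3 * K * eT
      · linear_combination ε * eV
      · ring
      · linear_combination ε ^ 2 * eR + ε ^ 2 * n * eW + ε ^ 3 * m * hWR -
          ε ^ 3 * (T + m * W) * eK - ε ^ 3 * (k * r + g * U) * eT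
      · linear_combination ε * eU
      · linear_combination -ε * eW
      · linear_combination ε ^ 2 * p * eT
      · linear_combination -ε ^ 2 * eR + ε ^ 3 * T * eK
    have h1 := mem_patch (ε * h) (ε * l) hz
    have h2 : ε • pt (p + ε * (m * x1 + g * s)) (ε * (T + m * W + h * s)) s m t Y
        (ε * (R + n * W + r * l + U * h)) r U n V k l g h x1 W w y =
        pt (ε * p + ε * m * (ε * x1) + ε * g * (ε * s))
          (ε * y * (ε * Y) + ε * w * (ε * t) + ε * m * (ε * W) + ε * h * (ε * s)) (ε * s) (ε * m)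
          (ε * t) (ε * Y) (ε ^ 2 * R + ε * n * (ε * W) + ε * r * (ε * l) + ε * U * (ε * h))
          (ε * r) (ε * U) (ε * n) (ε * V) (ε * k) (ε * l) (ε * g) (ε * h) (ε * x1) (ε * W)
          (ε * w) (ε * y) := by
      rw [smul_pt, eT]
      congr 1 <;> ring
    rw [h2]
    exact h1

theorem dirQ (q m Y r u n v k l g h x2 w y : ℂ) (hq : q ≠ 0) :
    Dir (pt 0 0 0 m 0 Y q r u n v k l g h 0 x2 w y) := by
  let D1 : ℂ → ℂ := fun ε => q - ε * (w * v)
  let D2 : ℂ → ℂ := fun ε => q + ε * (n * x2)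
  let T : ℂ → ℂ := fun ε => y * Y * q / D1 ε
  let K : ℂ → ℂ := fun ε => (k * r + g * u) * q / D2 ε
  let τ : ℂ → ℂ := fun ε => ε * (T ε) * v / q
  let S : ℂ → ℂ := fun ε => ε * u * (T ε + m * x2) / D2 ε
  let Z : ℂ → ℂ := fun ε => -(ε * x2 * K ε) / q
  let R : ℂ → ℂ := fun ε => -(ε * K ε * T ε) / q
  have cD1 : ContinuousAt D1 0 := by fun_prop
  have D10 : D1 0 ≠ 0 := by simpa [D1] using hq
  have cD2 : ContinuousAt D2 0 := by fun_prop
  have D20 : D2 0 ≠ 0 := by simpa [D2] using hq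
  have cT : ContinuousAt T 0 := ContinuousAt.div (by fun_prop) cD1 D10
  have cK : ContinuousAt K 0 := ContinuousAt.div (by fun_prop) cD2 D20
  have cτ : ContinuousAt τ 0 := ContinuousAt.div (by fun_prop) (by fun_prop) hq
  have τ0 : τ 0 = 0 := by simp [τ]
  have cS : ContinuousAt S 0 := ContinuousAt.div (by fun_prop) cD2 D20
  have S0 : S 0 = 0 := by simp [S]
  have cZ : ContinuousAt Z 0 := ContinuousAt.div (by fun_prop) (by fun_prop) hq
  have Z0 : Z 0 = 0 := by simp [Z]
  have cR : ContinuousAt R 0 := ContinuousAt.div (by fun_prop) (by fun_prop) hq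
  refine ⟨fun ε => pt (ε * (R ε + m * Z ε + g * S ε)) (ε * (T ε + m * x2 + h * S ε)) (S ε) m
    (τ ε) Y (q + ε * (n * x2 + r * l + u * h)) r u n v k l g h (Z ε) x2 w y, ?_, ?_, ?_⟩
  · apply cont_pt <;> fun_prop
  · simp only [zero_mul, add_zero, τ0, S0, Z0]
  · filter_upwards [near_ne cD1 D10, near_ne cD2 D20] with ε hD1 hD2
    have eT : T ε * (q - ε * (w * v)) = y * Y * q := div_mul_cancel₀ _ hD1
    have eK : K ε * (q + ε * (n * x2)) = (k * r + g * u) * q := div_mul_cancel₀ _ hD2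
    have et : τ ε * q = ε * (T ε) * v := div_mul_cancel₀ _ hq
    have eS : S ε * (q + ε * (n * x2)) = ε * u * (T ε + m * x2) := div_mul_cancel₀ _ hD2
    have eZ : Z ε * q = -(ε * x2 * K ε) := div_mul_cancel₀ _ hq
    have eR : R ε * q = -(ε * K ε * T ε) := div_mul_cancel₀ _ hq
    have hD2' : q + ε * (n * x2) ≠ 0 := hD2
    generalize T ε = T at *
    generalize K ε = K at *
    generalize τ ε = τ at *
    generalize S ε = S at *
    generalize Z ε = Z at *
    generalize R ε = R at *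
    have hT : T = y * Y + w * τ := by
      have : q * (T - (y * Y + w * τ)) = 0 := by linear_combination eT - w * et
      exact sub_eq_zero.mp ((mul_eq_zero.mp this).resolve_left hq)
    have hK : K = k * r + g * u + n * Z := by
      have : q * (K - (k * r + g * u + n * Z)) = 0 := by linear_combination eK - n * eZ
      exact sub_eq_zero.mp ((mul_eq_zero.mp this).resolve_left hq)
    have hRZ : x2 * R - T * Z = 0 := by
      have : q * (x2 * R - T * Z) = 0 := by linear_combination x2 * eR - T * eZ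
      exact (mul_eq_zero.mp this).resolve_left hq
    have hz : Zc (ε ^ 2 * R) (ε * q) (ε * Z) (ε * x2) (ε * τ) (ε * v) (ε * S) (ε * u) (ε * m)
        (ε * n) (ε * y) (ε * Y) (ε * w) (ε * k) (ε * r) (ε * g) := by
      refine ⟨⟨q, -(ε * T), Or.inl hq, ?_, ?_, ?_⟩,
        ⟨q + ε * (n * x2), -(ε * (T + m * x2)), Or.inl hD2', ?_, ?_, ?_⟩,
        ⟨q, ε * K, Or.inl hq, ?_, ?_, ?_⟩⟩
      · linear_combination ε ^ 2 * eR - ε ^ 3 * T * hK
      · linear_combination -ε ^ 2 * q * hT
      · linear_combination ε * et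
      · linear_combination ε ^ 2 * eR + ε ^ 2 * m * eZ + ε ^ 3 * n * hRZ -
          ε ^ 3 * (T + m * x2) * hK
      · linear_combination -ε ^ 2 * (q + ε * (n * x2)) * hT
      · linear_combination ε * eS
      · linear_combination ε * eZ
      · linear_combination ε ^ 2 * eR - ε ^ 3 * K * hT
      · linear_combination ε ^ 2 * q * hK
    have h1 := mem_patch (ε * h) (ε * l) hz
    have h2 : ε • pt (ε * (R + m * Z + g * S)) (ε * (T + m * x2 + h * S)) S m
        τ Y (q + ε * (n * x2 + r * l + u * h)) r u n v k l g h Z x2 w y =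
        pt (ε ^ 2 * R + ε * m * (ε * Z) + ε * g * (ε * S))
          (ε * y * (ε * Y) + ε * w * (ε * τ) + ε * m * (ε * x2) + ε * h * (ε * S)) (ε * S) (ε * m)
          (ε * τ) (ε * Y) (ε * q + ε * n * (ε * x2) + ε * r * (ε * l) + ε * u * (ε * h))
          (ε * r) (ε * u) (ε * n) (ε * v) (ε * k) (ε * l) (ε * g) (ε * h) (ε * Z) (ε * x2)
          (ε * w) (ε * y) := by
      rw [smul_pt, hT]
      congr 1 <;> ring
    rw [h2]
    exact h1

end Pool.Agent.W442.SV
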