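import Mathlib
import Pool.Agent.W442.SV.Fpq

open MvPolynomial Filter Topology

set_option linter.unusedSimpArgs false

namespace Pool.Agent.W442.SV

/-- Numbers of the variables: `16` for the free ones, `17` for the linear ones. -/
def codeM : Fin 10 → Fin 10 → ℕ :=
  ![![0, 0, 0, 0, 0, 0, 0, 0, 0, 0],
    ![16, 0, 0, 0, 0, 0, 0, 0, 0, 0],
    ![17, 17, 0, 0, 0, 0, 0, 0, 0, 0],
    ![13, 16, 16, 0, 0, 0, 0, 0, 0, 0],
    ![15, 16, 16, 16, 0, 0, 0, 0, 0, 0],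
    ![2, 3, 16, 16, 16, 0, 0, 0, 0, 0],
    ![16, 12, 16, 16, 16, 16, 0, 0, 0, 0],
    ![17, 1, 16, 14, 7, 9, 5, 0, 0, 0],
    ![16, 10, 16, 16, 16, 16, 16, 16, 0, 0],
    ![0, 17, 16, 16, 6, 8, 4, 16, 11, 0]]

/-- The number of a variable. -/
def code (i : Low 10) : ℕ := codeM i.1.1 i.1.2

/-- The sets of variables, as binary numbers. -/
def masks : List ℕ := [130901, 130986, 75004, 88300, 84976, 122204, 128684, 130864, 131008, 112480, 108344, 128804]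

section
variable (a : Low 10 → ℂ)

theorem famX (h20 : a (ix 2 0) = 0) (h21 : a (ix 2 1) = 0) (h70 : a (ix 7 0) = 0)
    (h91 : a (ix 9 1) = 0) (hP : a (ix 9 0) = 0) (hQ : a (ix 7 1) = 0)
    (hz : ZX (a (ix 5 0)) (a (ix 5 1)) (a (ix 9 6)) (a (ix 7 6)) (a (ix 9 4)) (a (ix 7 4)) (a (ix 9 5)) (a (ix 7 5)) (a (ix 8 1)) (a (ix 9 8)) (a (ix 6 1)) (a (ix 3 0)) (a (ix 7 3)) (a (ix 4 0))) :
    Dir a := by
  obtain ⟨P', Q', hz⟩ := hz
  apply dir_of_pt a h20 h21 h70 h91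
  rw [hP, hQ]
  exact dir_scale _ _ hz

theorem fam0 (h0 : ∀ i : Low 10, Nat.testBit 130901 (code i) = false → a i = 0)
    (h1 : ∀ i : Low 10, Nat.testBit 130901 (code i) = true → a i ≠ 0) : Dir a := by
  have z_Q := h0 (ix 7 1) rfl
  have z_x2 := h0 (ix 5 1) rfl
  have z_v := h0 (ix 7 6) rfl
  have z_u := h0 (ix 7 4) rfl
  have z20 := h0 (ix 2 0) rfl
  have z21 := h0 (ix 2 1) rfl
  have z70 := h0 (ix 7 0) rfl
  have z91 := h0 (ix 9 1) rfl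
  apply dir_of_pt a z20 z21 z70 z91
  rw [z_Q, z_u, z_v, z_x2]
  exact dirP _ _ _ _ _ _ _ _ _ _ _ _ _ _ (h1 (ix 9 0) rfl)

theorem fam1 (h0 : ∀ i : Low 10, Nat.testBit 130986 (code i) = false → a i = 0)
    (h1 : ∀ i : Low 10, Nat.testBit 130986 (code i) = true → a i ≠ 0) : Dir a := by
  have z_P := h0 (ix 9 0) rfl
  have z_x1 := h0 (ix 5 0) rfl
  have z_t := h0 (ix 9 6) rfl
  have z_s := h0 (ix 9 4) rfl
  have z20 := h0 (ix 2 0) rfl
  have z21 := h0 (ix 2 1) rfl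
  have z70 := h0 (ix 7 0) rfl
  have z91 := h0 (ix 9 1) rfl
  apply dir_of_pt a z20 z21 z70 z91
  rw [z_P, z_s, z_t, z_x1]
  exact dirQ _ _ _ _ _ _ _ _ _ _ _ _ _ _ (h1 (ix 7 1) rfl)

theorem fam2 (h0 : ∀ i : Low 10, Nat.testBit 75004 (code i) = false → a i = 0)
    (h1 : ∀ i : Low 10, Nat.testBit 75004 (code i) = true → a i ≠ 0) : Dir a := by
  have z_P := h0 (ix 9 0) rfl
  have z_Q := h0 (ix 7 1) rfl
  have z_m := h0 (ix 9 5) rfl
  have z_n := h0 (ix 7 5) rfl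
  have z_Y := h0 (ix 9 8) rfl
  have z_w := h0 (ix 6 1) rfl
  have z_r := h0 (ix 7 3) rfl
  have z_g := h0 (ix 4 0) rfl
  have z20 := h0 (ix 2 0) rfl
  have z21 := h0 (ix 2 1) rfl
  have z70 := h0 (ix 7 0) rfl
  have z91 := h0 (ix 9 1) rfl
  apply famX a z20 z21 z70 z91 z_P z_Q
  exact zc6 z_m z_n (by rw [z_Y, z_w]; ring) (by rw [z_r, z_g]; ring) (h1 (ix 7 6) rfl) (h1 (ix 9 4) rfl) (h1 (ix 5 1) rfl)

theorem fam3 (h0 : ∀ i : Low 10, Nat.testBit 88300 (code i) = false → a i = 0)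
    (h1 : ∀ i : Low 10, Nat.testBit 88300 (code i) = true → a i ≠ 0) : Dir a := by
  have z_P := h0 (ix 9 0) rfl
  have z_Q := h0 (ix 7 1) rfl
  have z_t := h0 (ix 9 6) rfl
  have z_m := h0 (ix 9 5) rfl
  have z_n := h0 (ix 7 5) rfl
  have z_y := h0 (ix 8 1) rfl
  have z_k := h0 (ix 3 0) rfl
  have z_g := h0 (ix 4 0) rfl
  have z20 := h0 (ix 2 0) rfl
  have z21 := h0 (ix 2 1) rfl
  have z70 := h0 (ix 7 0) rfl
  have z91 := h0 (ix 9 1) rfl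
  apply famX a z20 z21 z70 z91 z_P z_Q
  exact zc6 z_m z_n (by rw [z_y, z_t]; ring) (by rw [z_k, z_g]; ring) (h1 (ix 7 6) rfl) (h1 (ix 9 4) rfl) (h1 (ix 5 1) rfl)

theorem fam4 (h0 : ∀ i : Low 10, Nat.testBit 84976 (code i) = false → a i = 0)
    (h1 : ∀ i : Low 10, Nat.testBit 84976 (code i) = true → a i ≠ 0) : Dir a := by
  have z_P := h0 (ix 9 0) rfl
  have z_Q := h0 (ix 7 1) rfl
  have z_x1 := h0 (ix 5 0) rfl
  have z_x2 := h0 (ix 5 1) rfl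
  have z_y := h0 (ix 8 1) rfl
  have z_w := h0 (ix 6 1) rfl
  have z_k := h0 (ix 3 0) rfl
  have z_g := h0 (ix 4 0) rfl
  have z20 := h0 (ix 2 0) rfl
  have z21 := h0 (ix 2 1) rfl
  have z70 := h0 (ix 7 0) rfl
  have z91 := h0 (ix 9 1) rfl
  apply famX a z20 z21 z70 z91 z_P z_Q
  exact zc5 z_x1 z_x2 (by rw [z_y, z_w]; ring) (by rw [z_k, z_g]; ring) (h1 (ix 7 6) rfl) (h1 (ix 9 4) rfl)

theorem fam5 (h0 : ∀ i : Low 10, Nat.testBit 122204 (code i) = false → a i = 0)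
    (h1 : ∀ i : Low 10, Nat.testBit 122204 (code i) = true → a i ≠ 0) : Dir a := by
  have z_P := h0 (ix 9 0) rfl
  have z_Q := h0 (ix 7 1) rfl
  have z_v := h0 (ix 7 6) rfl
  have z_u := h0 (ix 7 4) rfl
  have z_n := h0 (ix 7 5) rfl
  have z_k := h0 (ix 3 0) rfl
  have z20 := h0 (ix 2 0) rfl
  have z21 := h0 (ix 2 1) rfl
  have z70 := h0 (ix 7 0) rfl
  have z91 := h0 (ix 9 1) rfl
  apply famX a z20 z21 z70 z91 z_P z_Q
  exact zc1 z_v z_u z_n (by rw [z_k, zero_mul]) (h1 (ix 5 1) rfl)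

theorem fam6 (h0 : ∀ i : Low 10, Nat.testBit 128684 (code i) = false → a i = 0)
    (h1 : ∀ i : Low 10, Nat.testBit 128684 (code i) = true → a i ≠ 0) : Dir a := by
  have z_P := h0 (ix 9 0) rfl
  have z_Q := h0 (ix 7 1) rfl
  have z_t := h0 (ix 9 6) rfl
  have z_s := h0 (ix 9 4) rfl
  have z_m := h0 (ix 9 5) rfl
  have z_Y := h0 (ix 9 8) rfl
  have z20 := h0 (ix 2 0) rfl
  have z21 := h0 (ix 2 1) rfl
  have z70 := h0 (ix 7 0) rfl
  have z91 := h0 (ix 9 1) rfl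
  apply famX a z20 z21 z70 z91 z_P z_Q
  exact zc2 z_t z_m z_s (by rw [z_Y, mul_zero]) (h1 (ix 5 0) rfl)

theorem fam7 (h0 : ∀ i : Low 10, Nat.testBit 130864 (code i) = false → a i = 0)
    (h1 : ∀ i : Low 10, Nat.testBit 130864 (code i) = true → a i ≠ 0) : Dir a := by
  have z_P := h0 (ix 9 0) rfl
  have z_Q := h0 (ix 7 1) rfl
  have z_x1 := h0 (ix 5 0) rfl
  have z_x2 := h0 (ix 5 1) rfl
  have z_s := h0 (ix 9 4) rfl
  have z_u := h0 (ix 7 4) rfl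
  have z20 := h0 (ix 2 0) rfl
  have z21 := h0 (ix 2 1) rfl
  have z70 := h0 (ix 7 0) rfl
  have z91 := h0 (ix 9 1) rfl
  apply famX a z20 z21 z70 z91 z_P z_Q
  exact zc3 z_x1 z_x2 z_s z_u (h1 (ix 9 6) rfl) (h1 (ix 7 6) rfl)

theorem fam8 (h0 : ∀ i : Low 10, Nat.testBit 131008 (code i) = false → a i = 0)
    (h1 : ∀ i : Low 10, Nat.testBit 131008 (code i) = true → a i ≠ 0) : Dir a := by
  have z_P := h0 (ix 9 0) rfl
  have z_Q := h0 (ix 7 1) rfl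
  have z_x1 := h0 (ix 5 0) rfl
  have z_x2 := h0 (ix 5 1) rfl
  have z_t := h0 (ix 9 6) rfl
  have z_v := h0 (ix 7 6) rfl
  have z20 := h0 (ix 2 0) rfl
  have z21 := h0 (ix 2 1) rfl
  have z70 := h0 (ix 7 0) rfl
  have z91 := h0 (ix 9 1) rfl
  apply famX a z20 z21 z70 z91 z_P z_Q
  exact zc4 z_x1 z_x2 z_t z_v (h1 (ix 9 4) rfl) (h1 (ix 7 4) rfl)

theorem fam9 (h0 : ∀ i : Low 10, Nat.testBit 112480 (code i) = false → a i = 0)
    (h1 : ∀ i : Low 10, Nat.testBit 112480 (code i) = true → a i ≠ 0) : Dir a := by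
  have z_P := h0 (ix 9 0) rfl
  have z_Q := h0 (ix 7 1) rfl
  have z_x1 := h0 (ix 5 0) rfl
  have z_x2 := h0 (ix 5 1) rfl
  have z_t := h0 (ix 9 6) rfl
  have z_u := h0 (ix 7 4) rfl
  have z_Y := h0 (ix 9 8) rfl
  have z_r := h0 (ix 7 3) rfl
  have z20 := h0 (ix 2 0) rfl
  have z21 := h0 (ix 2 1) rfl
  have z70 := h0 (ix 7 0) rfl
  have z91 := h0 (ix 9 1) rfl
  apply famX a z20 z21 z70 z91 z_P z_Q
  exact zc5 z_x1 z_x2 (by rw [z_Y, z_t]; ring) (by rw [z_r, z_u]; ring) (h1 (ix 7 6) rfl) (h1 (ix 9 4) rfl)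

theorem fam10 (h0 : ∀ i : Low 10, Nat.testBit 108344 (code i) = false → a i = 0)
    (h1 : ∀ i : Low 10, Nat.testBit 108344 (code i) = true → a i ≠ 0) : Dir a := by
  have z_P := h0 (ix 9 0) rfl
  have z_Q := h0 (ix 7 1) rfl
  have z_x1 := h0 (ix 5 0) rfl
  have z_s := h0 (ix 9 4) rfl
  have z_u := h0 (ix 7 4) rfl
  have z_Y := h0 (ix 9 8) rfl
  have z_w := h0 (ix 6 1) rfl
  have z_r := h0 (ix 7 3) rfl
  have z20 := h0 (ix 2 0) rfl
  have z21 := h0 (ix 2 1) rfl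
  have z70 := h0 (ix 7 0) rfl
  have z91 := h0 (ix 9 1) rfl
  apply famX a z20 z21 z70 z91 z_P z_Q
  exact zc7 z_x1 z_s z_u (by rw [z_Y, z_w]; ring) (by rw [z_r, mul_zero]) (h1 (ix 7 6) rfl) (h1 (ix 7 5) rfl)

theorem fam11 (h0 : ∀ i : Low 10, Nat.testBit 128804 (code i) = false → a i = 0)
    (h1 : ∀ i : Low 10, Nat.testBit 128804 (code i) = true → a i ≠ 0) : Dir a := by
  have z_P := h0 (ix 9 0) rfl
  have z_Q := h0 (ix 7 1) rfl
  have z_x2 := h0 (ix 5 1) rfl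
  have z_t := h0 (ix 9 6) rfl
  have z_s := h0 (ix 9 4) rfl
  have z_u := h0 (ix 7 4) rfl
  have z_Y := h0 (ix 9 8) rfl
  have z20 := h0 (ix 2 0) rfl
  have z21 := h0 (ix 2 1) rfl
  have z70 := h0 (ix 7 0) rfl
  have z91 := h0 (ix 9 1) rfl
  apply famX a z20 z21 z70 z91 z_P z_Q
  exact zc8 z_x2 z_t z_s z_u (by rw [z_Y, mul_zero]) (h1 (ix 5 0) rfl) (h1 (ix 9 5) rfl)

end

theorem fam_all : ∀ m ∈ masks, ∀ a : Low 10 → ℂ,
    (∀ i : Low 10, Nat.testBit m (code i) = false → a i = 0) →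
    (∀ i : Low 10, Nat.testBit m (code i) = true → a i ≠ 0) → Dir a := by
  intro m hm a h0 h1
  simp only [masks, List.mem_cons, List.not_mem_nil, or_false] at hm
  rcases hm with rfl | rfl | rfl | rfl | rfl | rfl | rfl | rfl | rfl | rfl | rfl | rfl
  · exact fam0 a h0 h1
  · exact fam1 a h0 h1
  · exact fam2 a h0 h1
  · exact fam3 a h0 h1
  · exact fam4 a h0 h1
  · exact fam5 a h0 h1
  · exact fam6 a h0 h1
  · exact fam7 a h0 h1
  · exact fam8 a h0 h1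
  · exact fam9 a h0 h1
  · exact fam10 a h0 h1
  · exact fam11 a h0 h1

end Pool.Agent.W442.SV
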