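import Mathlib
import Pool.Agent.W442.SV.Fm

open MvPolynomial Filter Topology

set_option linter.unusedSimpArgs false

namespace Pool.Agent.W442.SV

theorem coeff_zero_of_support {σ : Type} [Fintype σ] (S : σ → Bool)
    (f : MvPolynomial σ ℂ)
    (h : ∀ a : σ → ℂ, (∀ i, S i = false → a i = 0) → (∀ i, S i = true → a i ≠ 0) →
      eval a f = 0) (s : σ →₀ ℕ) (hs : ∀ i, S i = false → s i = 0) : coeff s f = 0 := by
  classical
  have hF : aeval (fun i => (if S i = true then X i else 0 : MvPolynomial σ ℂ)) f = 0 := by
    apply MvPolynomial.funext_set (fun i => if S i = true then ({0}ᶜ : Set ℂ) else Set.univ)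
    · intro i
      split_ifs
      · exact (Set.finite_singleton (0 : ℂ)).infinite_compl
      · exact Set.infinite_univ
    · intro x hx
      have h2 : ((eval x).comp
          (aeval (fun i => (if S i = true then X i else 0 : MvPolynomial σ ℂ))).toRingHom) =
          eval (fun i => if S i = true then x i else 0) := by
        apply MvPolynomial.ringHom_ext
        · intro r
          simp
        · intro i
          simp only [AlgHom.toRingHom_eq_coe, RingHom.coe_comp, RingHom.coe_coe,
            Function.comp_apply, aeval_X, eval_X]
          split_ifs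
          · rw [eval_X]
          · rw [map_zero]
      have h3 := RingHom.congr_fun h2 f
      simp only [AlgHom.toRingHom_eq_coe, RingHom.coe_comp, RingHom.coe_coe,
        Function.comp_apply] at h3
      rw [h3, map_zero]
      apply h
      · intro i hi
        simp [hi]
      · intro i hi
        have h4 := hx i (Set.mem_univ i)
        simp only [hi, if_true, Set.mem_compl_iff, Set.mem_singleton_iff] at h4 ⊢
        exact h4
  have h1 : coeff s (aeval (fun i => (if S i = true then X i else 0 : MvPolynomial σ ℂ)) f) =
      coeff s f := by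
    rw [aeval_def, eval₂_eq', coeff_sum]
    have hprod : ∀ d : σ →₀ ℕ, (∀ i, S i = false → d i = 0) →
        ∏ i, (if S i = true then X i else 0 : MvPolynomial σ ℂ) ^ d i = monomial d 1 := by
      intro d hd
      rw [monomial_eq, C_1, one_mul, Finsupp.prod_fintype _ _ (fun i => pow_zero _)]
      apply Finset.prod_congr rfl
      intro i _
      cases hi : S i
      · rw [hd i hi, pow_zero, pow_zero]
      · rfl
    rw [Finset.sum_eq_single s]
    · rw [hprod s hs, algebraMap_eq, coeff_C_mul, coeff_monomial, if_pos rfl, mul_one]
    · intro d _ hne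
      by_cases hd : ∀ i, S i = false → d i = 0
      · rw [hprod d hd, algebraMap_eq, coeff_C_mul, coeff_monomial, if_neg hne, mul_zero]
      · push Not at hd
        obtain ⟨i, hi, hdi⟩ := hd
        rw [Finset.prod_eq_zero (Finset.mem_univ i), mul_zero, coeff_zero]
        rw [hi]
        simp [hdi]
    · intro hns
      rw [notMem_support_iff.mp hns, map_zero, zero_mul, coeff_zero]
  rw [← h1, hF, coeff_zero]

/-- If all terms of a polynomial other than a given one vanish at a zero, the coefficient of the
given one is zero. -/
theorem coeff_zero_of_point {σ : Type} [Fintype σ] (f : MvPolynomial σ ℂ) (a : σ → ℂ)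
    (ha : eval a f = 0) (e : σ →₀ ℕ) (he : ∀ i, e i ≠ 0 → a i ≠ 0)
    (h : ∀ d ∈ f.support, d ≠ e → (∀ i, a i = 0 → d i = 0) → coeff d f = 0) : coeff e f = 0 := by
  classical
  by_contra hne
  rw [eval_eq', Finset.sum_eq_single e] at ha
  · rcases mul_eq_zero.mp ha with h1 | h1
    · exact hne h1
    · rw [Finset.prod_eq_zero_iff] at h1
      obtain ⟨i, _, hi⟩ := h1
      by_cases h3 : e i = 0
      · rw [h3, pow_zero] at hi
        exact one_ne_zero hi
      · exact he i h3 (pow_eq_zero_iff h3 |>.mp hi)
  · intro d hd hde
    by_cases h1 : ∀ i, a i = 0 → d i = 0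
    · rw [h d hd hde h1, zero_mul]
    · push Not at h1
      obtain ⟨i, hi, hdi⟩ := h1
      rw [Finset.prod_eq_zero (Finset.mem_univ i), mul_zero]
      rw [hi, zero_pow hdi]
  · intro hns
    rw [notMem_support_iff.mp hns, zero_mul]

end Pool.Agent.W442.SV
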