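import Mathlib
import Pool.Agent.W442.SV.U4

open MvPolynomial Finset

namespace Pool.Agent.W442.SV

/-- The variables other than `P`, `Q` and the linear ones. -/
def S39 : Finset (Low 10) := univ \ ({ix 9 0, ix 7 1} ∪ linS)

/-- The variables compatible with `P`. -/
def SP : Finset (Low 10) := univ \ ({ix 7 1, ix 7 6, ix 7 4, ix 5 1} ∪ linS)

/-- The variables compatible with `Q`. -/
def SQ : Finset (Low 10) := univ \ ({ix 9 0, ix 9 6, ix 9 4, ix 5 0} ∪ linS)

/-- The good monomials of a given degree. -/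
noncomputable def NN : ℕ → Finset (Low 10 →₀ ℕ)
  | 0 => finsuppAntidiag S39 0
  | i + 1 => finsuppAntidiag S39 (i + 1) ∪
      ((finsuppAntidiag SP i).image (fun b => b + Finsupp.single (ix 9 0) 1) ∪
        (finsuppAntidiag SQ i).image (fun b => b + Finsupp.single (ix 7 1) 1))

theorem mem_anti (T : Finset (Low 10)) (i : ℕ) (s : Low 10 →₀ ℕ) :
    s ∈ finsuppAntidiag T i ↔ s.degree = i ∧ ∀ j, j ∉ T → s j = 0 := by
  rw [mem_finsuppAntidiag]
  constructor
  · rintro ⟨h1, h2⟩
    have h3 : ∀ j, j ∉ T → s j = 0 := fun j hj => by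
      by_contra h
      exact hj (h2 (Finsupp.mem_support_iff.mpr h))
    refine ⟨?_, h3⟩
    rw [Finsupp.degree_eq_sum, ← h1]
    symm
    apply Finset.sum_subset (Finset.subset_univ _)
    intro j _ hj
    exact h3 j hj
  · rintro ⟨h1, h2⟩
    refine ⟨?_, ?_⟩
    · rw [← h1, Finsupp.degree_eq_sum]
      apply Finset.sum_subset (Finset.subset_univ _)
      intro j _ hj
      exact h2 j hj
    · intro j hj
      by_contra h
      exact Finsupp.mem_support_iff.mp hj (h2 j h)

theorem card_S39 : S39.card = 39 := by decide +kernel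
theorem card_SP : SP.card = 37 := by decide +kernel
theorem card_SQ : SQ.card = 37 := by decide +kernel

theorem notin_S39 : ∀ j : Low 10, j ∉ S39 ↔ j = ix 9 0 ∨ j = ix 7 1 ∨ j ∈ linS := by decide +kernel
theorem notin_SP : ∀ j : Low 10, j ∉ SP ↔
    j = ix 7 1 ∨ j = ix 7 6 ∨ j = ix 7 4 ∨ j = ix 5 1 ∨ j ∈ linS := by decide +kernel
theorem notin_SQ : ∀ j : Low 10, j ∉ SQ ↔
    j = ix 9 0 ∨ j = ix 9 6 ∨ j = ix 9 4 ∨ j = ix 5 0 ∨ j ∈ linS := by decide +kernel

theorem edg_cases : ∀ e ∈ edgS, (e.1 = ix 9 0 ∨ e.2 = ix 9 0) ∨ (e.1 = ix 7 1 ∨ e.2 = ix 7 1) := by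
  decide +kernel

theorem edg_P : ∀ e ∈ edgS, e.1 ∉ SP ∧ e.1 ≠ ix 9 0 ∨ e.2 ∉ SP ∧ e.2 ≠ ix 9 0 := by
  decide +kernel

theorem edg_Q : ∀ e ∈ edgS, e.1 ∉ SQ ∧ e.1 ≠ ix 7 1 ∨ e.2 ∉ SQ ∧ e.2 ≠ ix 7 1 := by
  decide +kernel

theorem P_lin : ix 9 0 ∉ linS := by decide +kernel
theorem Q_lin : ix 7 1 ∉ linS := by decide +kernel

theorem mem_NN (i : ℕ) (s : Low 10 →₀ ℕ) : s ∈ NN i ↔ s.degree = i ∧ Good s := by
  have hA : ∀ i, s ∈ finsuppAntidiag S39 i ↔
      s.degree = i ∧ Good s ∧ s (ix 9 0) = 0 ∧ s (ix 7 1) = 0 := by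
    intro i
    rw [mem_anti]
    constructor
    · rintro ⟨h1, h2⟩
      have hP : s (ix 9 0) = 0 := h2 _ ((notin_S39 _).mpr (Or.inl rfl))
      have hQ : s (ix 7 1) = 0 := h2 _ ((notin_S39 _).mpr (Or.inr (Or.inl rfl)))
      refine ⟨h1, ⟨fun j hj => h2 _ ((notin_S39 _).mpr (Or.inr (Or.inr hj))), ?_⟩, hP, hQ⟩
      intro e he
      rcases edg_cases e he with (h | h) | (h | h)
      · left; rw [h]; exact hP
      · right; rw [h]; exact hP
      · left; rw [h]; exact hQ
      · right; rw [h]; exact hQ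
    · rintro ⟨h1, h2, hP, hQ⟩
      refine ⟨h1, fun j hj => ?_⟩
      rcases (notin_S39 _).mp hj with rfl | rfl | h
      · exact hP
      · exact hQ
      · exact h2.1 _ h
  have hB : ∀ i, s ∈ (finsuppAntidiag SP i).image (fun b => b + Finsupp.single (ix 9 0) 1) ↔
      s.degree = i + 1 ∧ Good s ∧ s (ix 9 0) ≠ 0 := by
    intro i
    rw [Finset.mem_image]
    constructor
    · rintro ⟨b, hb, rfl⟩
      rw [mem_anti] at hb
      obtain ⟨h1, h2⟩ := hb
      refine ⟨?_, ⟨?_, ?_⟩, ?_⟩
      · rw [map_add, Finsupp.degree_single, h1]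
      · intro j hj
        rw [Finsupp.add_apply, h2 j ((notin_SP _).mpr (Or.inr (Or.inr (Or.inr (Or.inr hj))))),
          Finsupp.single_apply, if_neg (fun h : ix 9 0 = j => P_lin (h ▸ hj)), add_zero]
      · intro e he
        rcases edg_P e he with ⟨h, h'⟩ | ⟨h, h'⟩
        · left
          rw [Finsupp.add_apply, h2 _ h, Finsupp.single_apply, if_neg (Ne.symm h'), add_zero]
        · right
          rw [Finsupp.add_apply, h2 _ h, Finsupp.single_apply, if_neg (Ne.symm h'), add_zero]
      · rw [Finsupp.add_apply, Finsupp.single_eq_same]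
        omega
    · rintro ⟨h1, h2, h3⟩
      have hle : Finsupp.single (ix 9 0) 1 ≤ s := by
        rw [Finsupp.single_le_iff]
        omega
      obtain ⟨b, hb⟩ := exists_add_of_le hle
      refine ⟨b, ?_, by rw [hb, add_comm]⟩
      rw [mem_anti]
      have hs : ∀ j, s j = 0 → b j = 0 := by
        intro j hj
        rw [hb, Finsupp.add_apply] at hj
        omega
      refine ⟨?_, ?_⟩
      · rw [hb, map_add, Finsupp.degree_single] at h1
        omega
      · intro j hj
        apply hs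
        rcases (notin_SP _).mp hj with rfl | rfl | rfl | rfl | h
        · exact (h2.2 (ix 9 0, ix 7 1) (by decide +kernel)).resolve_left h3
        · exact (h2.2 (ix 9 0, ix 7 6) (by decide +kernel)).resolve_left h3
        · exact (h2.2 (ix 9 0, ix 7 4) (by decide +kernel)).resolve_left h3
        · exact (h2.2 (ix 5 1, ix 9 0) (by decide +kernel)).resolve_right h3
        · exact h2.1 _ h
  have hC : ∀ i, s ∈ (finsuppAntidiag SQ i).image (fun b => b + Finsupp.single (ix 7 1) 1) ↔
      s.degree = i + 1 ∧ Good s ∧ s (ix 7 1) ≠ 0 := by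
    intro i
    rw [Finset.mem_image]
    constructor
    · rintro ⟨b, hb, rfl⟩
      rw [mem_anti] at hb
      obtain ⟨h1, h2⟩ := hb
      refine ⟨?_, ⟨?_, ?_⟩, ?_⟩
      · rw [map_add, Finsupp.degree_single, h1]
      · intro j hj
        rw [Finsupp.add_apply, h2 j ((notin_SQ _).mpr (Or.inr (Or.inr (Or.inr (Or.inr hj))))),
          Finsupp.single_apply, if_neg (fun h : ix 7 1 = j => Q_lin (h ▸ hj)), add_zero]
      · intro e he
        rcases edg_Q e he with ⟨h, h'⟩ | ⟨h, h'⟩
        · left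
          rw [Finsupp.add_apply, h2 _ h, Finsupp.single_apply, if_neg (Ne.symm h'), add_zero]
        · right
          rw [Finsupp.add_apply, h2 _ h, Finsupp.single_apply, if_neg (Ne.symm h'), add_zero]
      · rw [Finsupp.add_apply, Finsupp.single_eq_same]
        omega
    · rintro ⟨h1, h2, h3⟩
      have hle : Finsupp.single (ix 7 1) 1 ≤ s := by
        rw [Finsupp.single_le_iff]
        omega
      obtain ⟨b, hb⟩ := exists_add_of_le hle
      refine ⟨b, ?_, by rw [hb, add_comm]⟩
      rw [mem_anti]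
      have hs : ∀ j, s j = 0 → b j = 0 := by
        intro j hj
        rw [hb, Finsupp.add_apply] at hj
        omega
      refine ⟨?_, ?_⟩
      · rw [hb, map_add, Finsupp.degree_single] at h1
        omega
      · intro j hj
        apply hs
        rcases (notin_SQ _).mp hj with rfl | rfl | rfl | rfl | h
        · exact (h2.2 (ix 9 0, ix 7 1) (by decide +kernel)).resolve_right h3
        · exact (h2.2 (ix 9 6, ix 7 1) (by decide +kernel)).resolve_right h3
        · exact (h2.2 (ix 9 4, ix 7 1) (by decide +kernel)).resolve_right h3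
        · exact (h2.2 (ix 5 0, ix 7 1) (by decide +kernel)).resolve_right h3
        · exact h2.1 _ h
  cases i with
  | zero =>
    rw [NN, hA]
    constructor
    · rintro ⟨h1, h2, _⟩
      exact ⟨h1, h2⟩
    · rintro ⟨h1, h2⟩
      have : s = 0 := (Finsupp.degree_eq_zero_iff s).mp h1
      subst this
      exact ⟨h1, h2, rfl, rfl⟩
  | succ i =>
    rw [NN, Finset.mem_union, Finset.mem_union, hA, hB, hC]
    constructor
    · rintro (⟨h1, h2, _⟩ | ⟨h1, h2, _⟩ | ⟨h1, h2, _⟩)
      · exact ⟨h1, h2⟩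
      · exact ⟨h1, h2⟩
      · exact ⟨h1, h2⟩
    · rintro ⟨h1, h2⟩
      by_cases hP : s (ix 9 0) = 0
      · by_cases hQ : s (ix 7 1) = 0
        · exact Or.inl ⟨h1, h2, hP, hQ⟩
        · exact Or.inr (Or.inr ⟨h1, h2, hQ⟩)
      · exact Or.inr (Or.inl ⟨h1, h2, hP⟩)

theorem card_NN_zero : (NN 0).card = 1 := by
  rw [NN, card_finsuppAntidiag_nat_eq_choose, card_S39]
  rfl

theorem card_NN_succ (i : ℕ) :
    (NN (i + 1)).card = (39 + (i + 1) - 1).choose (i + 1) + 2 * (37 + i - 1).choose i := by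
  have hinj : ∀ j : Low 10, Function.Injective fun b : Low 10 →₀ ℕ => b + Finsupp.single j 1 :=
    fun j => add_left_injective _
  have h1 : Disjoint ((finsuppAntidiag SP i).image (fun b => b + Finsupp.single (ix 9 0) 1))
      ((finsuppAntidiag SQ i).image (fun b => b + Finsupp.single (ix 7 1) 1)) := by
    rw [Finset.disjoint_left]
    intro s hs ht
    rw [Finset.mem_image] at hs ht
    obtain ⟨b, hb, rfl⟩ := hs
    obtain ⟨c, hc, h⟩ := ht
    rw [mem_anti] at hb hc
    have h2 := DFunLike.congr_fun h (ix 7 1)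
    rw [Finsupp.add_apply, Finsupp.add_apply, Finsupp.single_eq_same,
      hb.2 _ ((notin_SP _).mpr (Or.inl rfl)), Finsupp.single_apply,
      if_neg (by decide +kernel)] at h2
    omega
  have h2 : Disjoint (finsuppAntidiag S39 (i + 1))
      ((finsuppAntidiag SP i).image (fun b => b + Finsupp.single (ix 9 0) 1) ∪
        (finsuppAntidiag SQ i).image (fun b => b + Finsupp.single (ix 7 1) 1)) := by
    rw [Finset.disjoint_left]
    intro s hs ht
    rw [mem_anti] at hs
    rw [Finset.mem_union, Finset.mem_image, Finset.mem_image] at ht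
    rcases ht with ⟨b, _, rfl⟩ | ⟨b, _, rfl⟩
    · have h3 := hs.2 (ix 9 0) ((notin_S39 _).mpr (Or.inl rfl))
      rw [Finsupp.add_apply, Finsupp.single_eq_same] at h3
      omega
    · have h3 := hs.2 (ix 7 1) ((notin_S39 _).mpr (Or.inr (Or.inl rfl)))
      rw [Finsupp.add_apply, Finsupp.single_eq_same] at h3
      omega
  rw [NN, Finset.card_union_of_disjoint h2, Finset.card_union_of_disjoint h1,
    Finset.card_image_of_injective _ (hinj _), Finset.card_image_of_injective _ (hinj _),
    card_finsuppAntidiag_nat_eq_choose, card_finsuppAntidiag_nat_eq_choose,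
    card_finsuppAntidiag_nat_eq_choose, card_S39, card_SP, card_SQ]
  ring

theorem card_NN_one : (NN 1).card = 41 := by
  rw [card_NN_succ]
  simp

theorem card_NN_two : (NN 2).card = 854 := by
  rw [card_NN_succ]
  norm_num [Nat.choose]

theorem card_NN_three : (NN 3).card = 12066 := by
  rw [card_NN_succ]
  norm_num [Nat.choose]

end Pool.Agent.W442.SV
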