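import Mathlib
import Pool.Agent.W442.SV.Coef

open MvPolynomial Filter Topology

set_option linter.unusedSimpArgs false

namespace Pool.Agent.W442.SV

/-- The edges, by numbers. -/
def edgC : List (ℕ × ℕ) := [(0, 1), (1, 0), (0, 7), (7, 0), (6, 1), (1, 6), (3, 0), (0, 3), (2, 1), (1, 2), (0, 5), (5, 0), (4, 1), (1, 4)]

/-- The exceptional triples, by numbers. -/
def excC : List (ℕ × ℕ × ℕ) := [(4, 7, 12), (4, 12, 7), (7, 4, 12), (7, 12, 4), (12, 4, 7), (12, 7, 4), (4, 7, 15), (4, 15, 7), (7, 4, 15), (7, 15, 4), (15, 4, 7), (15, 7, 4), (2, 7, 8), (2, 8, 7), (7, 2, 8), (7, 8, 2), (8, 2, 7), (8, 7, 2), (3, 6, 9), (3, 9, 6), (6, 3, 9), (6, 9, 3), (9, 3, 6), (9, 6, 3)]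

theorem covT : ∀ a b c : Fin 17, ((a : ℕ), (b : ℕ)) ∈ edgC ∨ ((a : ℕ), (c : ℕ)) ∈ edgC ∨
    ((b : ℕ), (c : ℕ)) ∈ edgC ∨ (∃ m ∈ masks, Nat.testBit m a = true ∧ Nat.testBit m b = true ∧
      Nat.testBit m c = true) ∨ ((a : ℕ), (b : ℕ), (c : ℕ)) ∈ excC := by
  decide +kernel

theorem code_le : ∀ i : Low 10, code i ≤ 17 := by decide +kernel

theorem code_lin : ∀ i : Low 10, code i = 17 → i ∈ linS := by decide +kernel

theorem code_edg : ∀ i j : Low 10, (code i, code j) ∈ edgC → (i, j) ∈ edgS ∨ (j, i) ∈ edgS := by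
  decide +kernel

theorem code_P : ∀ i : Low 10, code i = 0 → i = ix 9 0 := by decide +kernel
theorem code_Q : ∀ i : Low 10, code i = 1 → i = ix 7 1 := by decide +kernel
theorem code_x1 : ∀ i : Low 10, code i = 2 → i = ix 5 0 := by decide +kernel
theorem code_x2 : ∀ i : Low 10, code i = 3 → i = ix 5 1 := by decide +kernel
theorem code_t : ∀ i : Low 10, code i = 4 → i = ix 9 6 := by decide +kernel
theorem code_v : ∀ i : Low 10, code i = 5 → i = ix 7 6 := by decide +kernel
theorem code_s : ∀ i : Low 10, code i = 6 → i = ix 9 4 := by decide +kernel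
theorem code_u : ∀ i : Low 10, code i = 7 → i = ix 7 4 := by decide +kernel
theorem code_m : ∀ i : Low 10, code i = 8 → i = ix 9 5 := by decide +kernel
theorem code_n : ∀ i : Low 10, code i = 9 → i = ix 7 5 := by decide +kernel
theorem code_y : ∀ i : Low 10, code i = 10 → i = ix 8 1 := by decide +kernel
theorem code_Y : ∀ i : Low 10, code i = 11 → i = ix 9 8 := by decide +kernel
theorem code_w : ∀ i : Low 10, code i = 12 → i = ix 6 1 := by decide +kernel
theorem code_k : ∀ i : Low 10, code i = 13 → i = ix 3 0 := by decide +kernel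
theorem code_r : ∀ i : Low 10, code i = 14 → i = ix 7 3 := by decide +kernel
theorem code_g : ∀ i : Low 10, code i = 15 → i = ix 4 0 := by decide +kernel

/-- An exceptional monomial. -/
noncomputable def exc0 : Low 10 →₀ ℕ :=
  Finsupp.single (ix 9 6) 1 + Finsupp.single (ix 7 4) 1 + Finsupp.single (ix 6 1) 1

/-- An exceptional monomial. -/
noncomputable def exc1 : Low 10 →₀ ℕ :=
  Finsupp.single (ix 9 6) 1 + Finsupp.single (ix 7 4) 1 + Finsupp.single (ix 4 0) 1

/-- An exceptional monomial. -/
noncomputable def exc2 : Low 10 →₀ ℕ :=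
  Finsupp.single (ix 5 0) 1 + Finsupp.single (ix 7 4) 1 + Finsupp.single (ix 9 5) 1

/-- An exceptional monomial. -/
noncomputable def exc3 : Low 10 →₀ ℕ :=
  Finsupp.single (ix 5 1) 1 + Finsupp.single (ix 9 4) 1 + Finsupp.single (ix 7 5) 1

theorem exc_cases (i j k : Low 10) (h : (code i, code j, code k) ∈ excC) :
    Finsupp.single i 1 + Finsupp.single j 1 + Finsupp.single k 1 = exc0 ∨
    Finsupp.single i 1 + Finsupp.single j 1 + Finsupp.single k 1 = exc1 ∨
    Finsupp.single i 1 + Finsupp.single j 1 + Finsupp.single k 1 = exc2 ∨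
    Finsupp.single i 1 + Finsupp.single j 1 + Finsupp.single k 1 = exc3 := by
  simp only [excC, List.mem_cons, List.not_mem_nil, or_false, Prod.mk.injEq] at h
  rcases h with ⟨h1, h2, h3⟩ | ⟨h1, h2, h3⟩ | ⟨h1, h2, h3⟩ | ⟨h1, h2, h3⟩ | ⟨h1, h2, h3⟩ | ⟨h1, h2, h3⟩ | ⟨h1, h2, h3⟩ | ⟨h1, h2, h3⟩ | ⟨h1, h2, h3⟩ | ⟨h1, h2, h3⟩ | ⟨h1, h2, h3⟩ | ⟨h1, h2, h3⟩ | ⟨h1, h2, h3⟩ | ⟨h1, h2, h3⟩ | ⟨h1, h2, h3⟩ | ⟨h1, h2, h3⟩ | ⟨h1, h2, h3⟩ | ⟨h1, h2, h3⟩ | ⟨h1, h2, h3⟩ | ⟨h1, h2, h3⟩ | ⟨h1, h2, h3⟩ | ⟨h1, h2, h3⟩ | ⟨h1, h2, h3⟩ | ⟨h1, h2, h3⟩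
  · obtain rfl := code_t _ h1
    obtain rfl := code_u _ h2
    obtain rfl := code_w _ h3
    left; unfold exc0; abel
  · obtain rfl := code_t _ h1
    obtain rfl := code_w _ h2
    obtain rfl := code_u _ h3
    left; unfold exc0; abel
  · obtain rfl := code_u _ h1
    obtain rfl := code_t _ h2
    obtain rfl := code_w _ h3
    left; unfold exc0; abel
  · obtain rfl := code_u _ h1
    obtain rfl := code_w _ h2
    obtain rfl := code_t _ h3
    left; unfold exc0; abel
  · obtain rfl := code_w _ h1
    obtain rfl := code_t _ h2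
    obtain rfl := code_u _ h3
    left; unfold exc0; abel
  · obtain rfl := code_w _ h1
    obtain rfl := code_u _ h2
    obtain rfl := code_t _ h3
    left; unfold exc0; abel
  · obtain rfl := code_t _ h1
    obtain rfl := code_u _ h2
    obtain rfl := code_g _ h3
    right; left; unfold exc1; abel
  · obtain rfl := code_t _ h1
    obtain rfl := code_g _ h2
    obtain rfl := code_u _ h3
    right; left; unfold exc1; abel
  · obtain rfl := code_u _ h1
    obtain rfl := code_t _ h2
    obtain rfl := code_g _ h3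
    right; left; unfold exc1; abel
  · obtain rfl := code_u _ h1
    obtain rfl := code_g _ h2
    obtain rfl := code_t _ h3
    right; left; unfold exc1; abel
  · obtain rfl := code_g _ h1
    obtain rfl := code_t _ h2
    obtain rfl := code_u _ h3
    right; left; unfold exc1; abel
  · obtain rfl := code_g _ h1
    obtain rfl := code_u _ h2
    obtain rfl := code_t _ h3
    right; left; unfold exc1; abel
  · obtain rfl := code_x1 _ h1
    obtain rfl := code_u _ h2
    obtain rfl := code_m _ h3
    right; right; left; unfold exc2; abel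
  · obtain rfl := code_x1 _ h1
    obtain rfl := code_m _ h2
    obtain rfl := code_u _ h3
    right; right; left; unfold exc2; abel
  · obtain rfl := code_u _ h1
    obtain rfl := code_x1 _ h2
    obtain rfl := code_m _ h3
    right; right; left; unfold exc2; abel
  · obtain rfl := code_u _ h1
    obtain rfl := code_m _ h2
    obtain rfl := code_x1 _ h3
    right; right; left; unfold exc2; abel
  · obtain rfl := code_m _ h1
    obtain rfl := code_x1 _ h2
    obtain rfl := code_u _ h3
    right; right; left; unfold exc2; abel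
  · obtain rfl := code_m _ h1
    obtain rfl := code_u _ h2
    obtain rfl := code_x1 _ h3
    right; right; left; unfold exc2; abel
  · obtain rfl := code_x2 _ h1
    obtain rfl := code_s _ h2
    obtain rfl := code_n _ h3
    right; right; right; unfold exc3; abel
  · obtain rfl := code_x2 _ h1
    obtain rfl := code_n _ h2
    obtain rfl := code_s _ h3
    right; right; right; unfold exc3; abel
  · obtain rfl := code_s _ h1
    obtain rfl := code_x2 _ h2
    obtain rfl := code_n _ h3
    right; right; right; unfold exc3; abel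
  · obtain rfl := code_s _ h1
    obtain rfl := code_n _ h2
    obtain rfl := code_x2 _ h3
    right; right; right; unfold exc3; abel
  · obtain rfl := code_n _ h1
    obtain rfl := code_x2 _ h2
    obtain rfl := code_s _ h3
    right; right; right; unfold exc3; abel
  · obtain rfl := code_n _ h1
    obtain rfl := code_s _ h2
    obtain rfl := code_x2 _ h3
    right; right; right; unfold exc3; abel

theorem dec_degree {s : Low 10 →₀ ℕ} {n : ℕ} (h : s.degree = n + 1) :
    ∃ i s', s = Finsupp.single i 1 + s' ∧ s'.degree = n := by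
  have hne : s ≠ 0 := by
    rintro rfl
    simp at h
  obtain ⟨i, hi⟩ := Finsupp.ne_iff.mp hne
  have hle : Finsupp.single i 1 ≤ s := by
    rw [Finsupp.single_le_iff]
    rw [Finsupp.zero_apply] at hi
    omega
  obtain ⟨b, hb⟩ := exists_add_of_le hle
  refine ⟨i, b, hb, ?_⟩
  rw [hb, map_add, Finsupp.degree_single] at h
  omega

/-- The support of `s` is contained in one of the families. -/
def Covered (s : Low 10 →₀ ℕ) : Prop :=
  ∃ m ∈ masks, ∀ i : Low 10, Nat.testBit m (code i) = false → s i = 0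

theorem cov3 (i j k : Low 10) (hg : Good (Finsupp.single i 1 + Finsupp.single j 1 +
    Finsupp.single k 1)) : (∃ m ∈ masks, Nat.testBit m (code i) = true ∧
      Nat.testBit m (code j) = true ∧ Nat.testBit m (code k) = true) ∨
      (code i, code j, code k) ∈ excC := by
  have hi : (Finsupp.single i 1 + Finsupp.single j 1 + Finsupp.single k 1 : Low 10 →₀ ℕ) i ≠ 0 := by
    simp
  have hj : (Finsupp.single i 1 + Finsupp.single j 1 + Finsupp.single k 1 : Low 10 →₀ ℕ) j ≠ 0 := by
    simp
  have hk : (Finsupp.single i 1 + Finsupp.single j 1 + Finsupp.single k 1 : Low 10 →₀ ℕ) k ≠ 0 := by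
    simp
  have key : ∀ a, (Finsupp.single i 1 + Finsupp.single j 1 + Finsupp.single k 1 :
      Low 10 →₀ ℕ) a ≠ 0 → code a < 17 := by
    intro a ha
    have h1 := code_le a
    have h2 : code a ≠ 17 := fun h => ha (hg.1 a (code_lin a h))
    omega
  have ked : ∀ a b, (Finsupp.single i 1 + Finsupp.single j 1 + Finsupp.single k 1 :
      Low 10 →₀ ℕ) a ≠ 0 → (Finsupp.single i 1 + Finsupp.single j 1 + Finsupp.single k 1 :
      Low 10 →₀ ℕ) b ≠ 0 → (code a, code b) ∉ edgC := by
    intro a b ha hb h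
    rcases code_edg a b h with h1 | h1
    · rcases hg.2 _ h1 with h2 | h2
      · exact ha h2
      · exact hb h2
    · rcases hg.2 _ h1 with h2 | h2
      · exact hb h2
      · exact ha h2
  rcases covT ⟨code i, key i hi⟩ ⟨code j, key j hj⟩ ⟨code k, key k hk⟩ with h | h | h | h | h
  · exact absurd h (ked i j hi hj)
  · exact absurd h (ked i k hi hk)
  · exact absurd h (ked j k hj hk)
  · exact Or.inl h
  · exact Or.inr h

theorem cov_of {i j k : Low 10} {s : Low 10 →₀ ℕ}
    (hs : ∀ a, s a ≠ 0 → a = i ∨ a = j ∨ a = k)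
    (h : ∃ m ∈ masks, Nat.testBit m (code i) = true ∧
      Nat.testBit m (code j) = true ∧ Nat.testBit m (code k) = true) : Covered s := by
  obtain ⟨m, hm, h1, h2, h3⟩ := h
  refine ⟨m, hm, fun a ha => ?_⟩
  by_contra hne
  rcases hs a hne with rfl | rfl | rfl
  · rw [h1] at ha; exact Bool.noConfusion ha
  · rw [h2] at ha; exact Bool.noConfusion ha
  · rw [h3] at ha; exact Bool.noConfusion ha

theorem exc_ne : ∀ t ∈ excC, t.1 ≠ t.2.1 ∧ t.1 ≠ t.2.2 ∧ t.2.1 ≠ t.2.2 := by decide +kernel

theorem good_of_support {s s' : Low 10 →₀ ℕ} (h : ∀ a, s' a ≠ 0 → s a ≠ 0) (hs : Good s) :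
    Good s' := by
  refine ⟨fun i hi => ?_, fun e he => ?_⟩
  · by_contra hne
    exact h i hne (hs.1 i hi)
  · rcases hs.2 e he with h1 | h1
    · left
      by_contra hne
      exact h _ hne h1
    · right
      by_contra hne
      exact h _ hne h1

theorem cov_main (s : Low 10 →₀ ℕ) (hd : s.degree ≤ 3) (hg : Good s) :
    Covered s ∨ s = exc0 ∨ s = exc1 ∨ s = exc2 ∨ s = exc3 := by
  have h0123 : s.degree = 0 ∨ s.degree = 0 + 1 ∨ s.degree = 1 + 1 ∨ s.degree = 2 + 1 := by omega
  rcases h0123 with h | h | h | h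
  · left
    rw [Finsupp.degree_eq_zero_iff] at h
    exact ⟨130901, by simp [masks], fun i _ => by rw [h]; rfl⟩
  · left
    obtain ⟨i, s1, rfl, h1⟩ := dec_degree h
    rw [Finsupp.degree_eq_zero_iff] at h1
    subst h1
    rw [add_zero] at hg ⊢
    rcases cov3 i i i (good_of_support (by
      intro a ha
      simp only [Finsupp.add_apply, Finsupp.single_apply] at ha ⊢
      split_ifs at ha ⊢ <;> omega) hg) with h2 | h2
    · refine cov_of (fun a ha => ?_) h2
      simp only [Finsupp.single_apply] at ha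
      by_contra hne
      apply ha
      rw [if_neg]
      rintro rfl
      exact hne (Or.inl rfl)
    · exact absurd rfl (exc_ne _ h2).1
  · left
    obtain ⟨i, s1, rfl, h1⟩ := dec_degree h
    obtain ⟨j, s2, rfl, h2⟩ := dec_degree h1
    rw [Finsupp.degree_eq_zero_iff] at h2
    subst h2
    rw [add_zero] at hg ⊢
    rcases cov3 i j j (good_of_support (by
      intro a ha
      simp only [Finsupp.add_apply, Finsupp.single_apply] at ha ⊢
      split_ifs at ha ⊢ <;> omega) hg) with h2 | h2
    · refine cov_of (fun a ha => ?_) h2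
      simp only [Finsupp.add_apply, Finsupp.single_apply] at ha
      by_contra hne
      apply ha
      rw [if_neg (fun h : i = a => hne (Or.inl h.symm)),
        if_neg (fun h : j = a => hne (Or.inr (Or.inl h.symm)))]
      rfl
    · exact absurd rfl (exc_ne _ h2).2.2
  · obtain ⟨i, s1, rfl, h1⟩ := dec_degree h
    obtain ⟨j, s2, rfl, h2⟩ := dec_degree h1
    obtain ⟨k, s3, rfl, h3⟩ := dec_degree h2
    rw [Finsupp.degree_eq_zero_iff] at h3
    subst h3
    rw [add_zero, ← add_assoc] at hg ⊢
    rcases cov3 i j k hg with h2 | h2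
    · left
      refine cov_of (fun a ha => ?_) h2
      simp only [Finsupp.add_apply, Finsupp.single_apply] at ha
      by_contra hne
      apply ha
      rw [if_neg (fun h : i = a => hne (Or.inl h.symm)),
        if_neg (fun h : j = a => hne (Or.inr (Or.inl h.symm))),
        if_neg (fun h : k = a => hne (Or.inr (Or.inr h.symm)))]
      rfl
    · right
      exact exc_cases i j k h2

end Pool.Agent.W442.SV
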