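import Mathlib
import Pool.Agent.W442.SV.Cov

open MvPolynomial Filter Topology

set_option linter.unusedSimpArgs false

namespace Pool.Agent.W442.SV

theorem cov_zero {f : A10} (hz : ∀ a, Dir a → eval a f = 0) {s : Low 10 →₀ ℕ} (hs : Covered s) :
    coeff s f = 0 := by
  obtain ⟨m, hm, h⟩ := hs
  exact coeff_zero_of_support (fun i => Nat.testBit m (code i)) f
    (fun a h0 h1 => hz a (fam_all m hm a h0 h1)) s h

/-- A point. -/
def apt0 : Low 10 → ℂ := pt 0 0 0 0 1 (-1) 0 0 1 0 0 0 0 0 0 0 0 1 1

theorem dir_apt0 : Dir apt0 := by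
  have hz : Zc 0 0 0 0 1 0 0 1 0 0 1 (-1) 1 0 0 0 :=
    ⟨⟨0, 1, Or.inr one_ne_zero, by norm_num, by norm_num, by norm_num⟩, ⟨1, 0, Or.inl one_ne_zero, by norm_num, by norm_num, by norm_num⟩, ⟨1, 0, Or.inl one_ne_zero, by norm_num, by norm_num, by norm_num⟩⟩
  exact dir_scale 0 0 hz

theorem exc_zero0 {f : A10} {i : ℕ} (hi : i ≤ 3) (hf : f.IsHomogeneous i)
    (hz : ∀ a, Dir a → eval a f = 0) : coeff exc0 f = 0 := by
  apply coeff_zero_of_point f apt0 (hz _ dir_apt0)
  · intro a ha
    have h : a = ix 9 6 ∨ a = ix 7 4 ∨ a = ix 6 1 := by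
      by_contra hcon
      push Not at hcon
      apply ha
      rw [exc0, Finsupp.add_apply, Finsupp.add_apply, Finsupp.single_apply, Finsupp.single_apply,
        Finsupp.single_apply, if_neg hcon.1.symm, if_neg hcon.2.1.symm, if_neg hcon.2.2.symm]
      rfl
    rcases h with rfl | rfl | rfl
    · rw [apt0, p96]; norm_num
    · rw [apt0, p74]; norm_num
    · rw [apt0, p61]; norm_num
  · intro d hd hne h0
    have hdeg : d.degree ≤ 3 := by
      have h1 : d.degree = i := by
        by_contra h
        exact (mem_support_iff.mp hd) (hf.coeff_eq_zero h)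
      omega
    have hg : Good d := by
      refine ⟨?_, ?_⟩
      · intro b hb
        simp only [linS, Finset.mem_insert, Finset.mem_singleton] at hb
        rcases hb with rfl | rfl | rfl | rfl
        · exact h0 _ (by rw [apt0, p20])
        · exact h0 _ (by rw [apt0, p21])
        · exact h0 _ (by rw [apt0, p70])
        · exact h0 _ (by rw [apt0, p91])
      · intro e he
        simp only [edgS, Finset.mem_insert, Finset.mem_singleton] at he
        rcases he with rfl | rfl | rfl | rfl | rfl | rfl | rfl
        · left; exact h0 _ (by rw [apt0, p90])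
        · left; exact h0 _ (by rw [apt0, p90])
        · right; exact h0 _ (by rw [apt0, p71])
        · right; exact h0 _ (by rw [apt0, p90])
        · right; exact h0 _ (by rw [apt0, p71])
        · left; exact h0 _ (by rw [apt0, p90])
        · right; exact h0 _ (by rw [apt0, p71])
    rcases cov_main d hdeg hg with h | h | h | h | h
    · exact cov_zero hz h
    · exact absurd h hne
    · exfalso
      have h1 : d (ix 4 0) = 0 := h0 _ (by rw [apt0, p40])
      rw [h, exc1, Finsupp.add_apply, Finsupp.add_apply] at h1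
      rw [Finsupp.single_eq_same] at h1
      omega
    · exfalso
      have h1 : d (ix 5 0) = 0 := h0 _ (by rw [apt0, p50])
      rw [h, exc2, Finsupp.add_apply, Finsupp.add_apply] at h1
      rw [Finsupp.single_eq_same] at h1
      omega
    · exfalso
      have h1 : d (ix 5 1) = 0 := h0 _ (by rw [apt0, p51])
      rw [h, exc3, Finsupp.add_apply, Finsupp.add_apply] at h1
      rw [Finsupp.single_eq_same] at h1
      omega

/-- A point. -/
def apt1 : Low 10 → ℂ := pt 0 0 0 0 1 0 0 (-1) 1 0 0 1 0 1 0 0 0 0 0

theorem dir_apt1 : Dir apt1 := by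
  have hz : Zc 0 0 0 0 1 0 0 1 0 0 0 0 0 1 (-1) 1 :=
    ⟨⟨0, 1, Or.inr one_ne_zero, by norm_num, by norm_num, by norm_num⟩, ⟨1, 0, Or.inl one_ne_zero, by norm_num, by norm_num, by norm_num⟩, ⟨1, 0, Or.inl one_ne_zero, by norm_num, by norm_num, by norm_num⟩⟩
  exact dir_scale 0 0 hz

theorem exc_zero1 {f : A10} {i : ℕ} (hi : i ≤ 3) (hf : f.IsHomogeneous i)
    (hz : ∀ a, Dir a → eval a f = 0) : coeff exc1 f = 0 := by
  apply coeff_zero_of_point f apt1 (hz _ dir_apt1)
  · intro a ha
    have h : a = ix 9 6 ∨ a = ix 7 4 ∨ a = ix 4 0 := by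
      by_contra hcon
      push Not at hcon
      apply ha
      rw [exc1, Finsupp.add_apply, Finsupp.add_apply, Finsupp.single_apply, Finsupp.single_apply,
        Finsupp.single_apply, if_neg hcon.1.symm, if_neg hcon.2.1.symm, if_neg hcon.2.2.symm]
      rfl
    rcases h with rfl | rfl | rfl
    · rw [apt1, p96]; norm_num
    · rw [apt1, p74]; norm_num
    · rw [apt1, p40]; norm_num
  · intro d hd hne h0
    have hdeg : d.degree ≤ 3 := by
      have h1 : d.degree = i := by
        by_contra h
        exact (mem_support_iff.mp hd) (hf.coeff_eq_zero h)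
      omega
    have hg : Good d := by
      refine ⟨?_, ?_⟩
      · intro b hb
        simp only [linS, Finset.mem_insert, Finset.mem_singleton] at hb
        rcases hb with rfl | rfl | rfl | rfl
        · exact h0 _ (by rw [apt1, p20])
        · exact h0 _ (by rw [apt1, p21])
        · exact h0 _ (by rw [apt1, p70])
        · exact h0 _ (by rw [apt1, p91])
      · intro e he
        simp only [edgS, Finset.mem_insert, Finset.mem_singleton] at he
        rcases he with rfl | rfl | rfl | rfl | rfl | rfl | rfl
        · left; exact h0 _ (by rw [apt1, p90])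
        · left; exact h0 _ (by rw [apt1, p90])
        · right; exact h0 _ (by rw [apt1, p71])
        · right; exact h0 _ (by rw [apt1, p90])
        · right; exact h0 _ (by rw [apt1, p71])
        · left; exact h0 _ (by rw [apt1, p90])
        · right; exact h0 _ (by rw [apt1, p71])
    rcases cov_main d hdeg hg with h | h | h | h | h
    · exact cov_zero hz h
    · exfalso
      have h1 : d (ix 6 1) = 0 := h0 _ (by rw [apt1, p61])
      rw [h, exc0, Finsupp.add_apply, Finsupp.add_apply] at h1
      rw [Finsupp.single_eq_same] at h1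
      omega
    · exact absurd h hne
    · exfalso
      have h1 : d (ix 5 0) = 0 := h0 _ (by rw [apt1, p50])
      rw [h, exc2, Finsupp.add_apply, Finsupp.add_apply] at h1
      rw [Finsupp.single_eq_same] at h1
      omega
    · exfalso
      have h1 : d (ix 5 1) = 0 := h0 _ (by rw [apt1, p51])
      rw [h, exc3, Finsupp.add_apply, Finsupp.add_apply] at h1
      rw [Finsupp.single_eq_same] at h1
      omega

/-- A point. -/
def apt2 : Low 10 → ℂ := pt 0 0 1 1 0 0 0 (-1) 1 0 0 1 0 0 0 1 0 0 0

theorem dir_apt2 : Dir apt2 := by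
  have hz : Zc 0 0 1 0 0 0 1 1 1 0 0 0 0 1 (-1) 0 :=
    ⟨⟨1, 0, Or.inl one_ne_zero, by norm_num, by norm_num, by norm_num⟩, ⟨1, -1, Or.inl one_ne_zero, by norm_num, by norm_num, by norm_num⟩, ⟨0, 1, Or.inr one_ne_zero, by norm_num, by norm_num, by norm_num⟩⟩
  exact dir_scale 0 0 hz

theorem exc_zero2 {f : A10} {i : ℕ} (hi : i ≤ 3) (hf : f.IsHomogeneous i)
    (hz : ∀ a, Dir a → eval a f = 0) : coeff exc2 f = 0 := by
  apply coeff_zero_of_point f apt2 (hz _ dir_apt2)
  · intro a ha
    have h : a = ix 5 0 ∨ a = ix 7 4 ∨ a = ix 9 5 := by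
      by_contra hcon
      push Not at hcon
      apply ha
      rw [exc2, Finsupp.add_apply, Finsupp.add_apply, Finsupp.single_apply, Finsupp.single_apply,
        Finsupp.single_apply, if_neg hcon.1.symm, if_neg hcon.2.1.symm, if_neg hcon.2.2.symm]
      rfl
    rcases h with rfl | rfl | rfl
    · rw [apt2, p50]; norm_num
    · rw [apt2, p74]; norm_num
    · rw [apt2, p95]; norm_num
  · intro d hd hne h0
    have hdeg : d.degree ≤ 3 := by
      have h1 : d.degree = i := by
        by_contra h
        exact (mem_support_iff.mp hd) (hf.coeff_eq_zero h)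
      omega
    have hg : Good d := by
      refine ⟨?_, ?_⟩
      · intro b hb
        simp only [linS, Finset.mem_insert, Finset.mem_singleton] at hb
        rcases hb with rfl | rfl | rfl | rfl
        · exact h0 _ (by rw [apt2, p20])
        · exact h0 _ (by rw [apt2, p21])
        · exact h0 _ (by rw [apt2, p70])
        · exact h0 _ (by rw [apt2, p91])
      · intro e he
        simp only [edgS, Finset.mem_insert, Finset.mem_singleton] at he
        rcases he with rfl | rfl | rfl | rfl | rfl | rfl | rfl
        · left; exact h0 _ (by rw [apt2, p90])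
        · left; exact h0 _ (by rw [apt2, p90])
        · right; exact h0 _ (by rw [apt2, p71])
        · right; exact h0 _ (by rw [apt2, p90])
        · right; exact h0 _ (by rw [apt2, p71])
        · left; exact h0 _ (by rw [apt2, p90])
        · right; exact h0 _ (by rw [apt2, p71])
    rcases cov_main d hdeg hg with h | h | h | h | h
    · exact cov_zero hz h
    · exfalso
      have h1 : d (ix 9 6) = 0 := h0 _ (by rw [apt2, p96])
      rw [h, exc0, Finsupp.add_apply, Finsupp.add_apply] at h1
      rw [Finsupp.single_eq_same] at h1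
      omega
    · exfalso
      have h1 : d (ix 9 6) = 0 := h0 _ (by rw [apt2, p96])
      rw [h, exc1, Finsupp.add_apply, Finsupp.add_apply] at h1
      rw [Finsupp.single_eq_same] at h1
      omega
    · exact absurd h hne
    · exfalso
      have h1 : d (ix 5 1) = 0 := h0 _ (by rw [apt2, p51])
      rw [h, exc3, Finsupp.add_apply, Finsupp.add_apply] at h1
      rw [Finsupp.single_eq_same] at h1
      omega

/-- A point. -/
def apt3 : Low 10 → ℂ := pt 0 0 1 0 0 1 0 0 1 1 0 0 0 0 0 0 1 0 1

theorem dir_apt3 : Dir apt3 := by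
  have hz : Zc 0 0 0 1 0 0 1 1 0 1 1 1 0 0 0 0 :=
    ⟨⟨0, 1, Or.inr one_ne_zero, by norm_num, by norm_num, by norm_num⟩, ⟨1, -1, Or.inl one_ne_zero, by norm_num, by norm_num, by norm_num⟩, ⟨1, 0, Or.inl one_ne_zero, by norm_num, by norm_num, by norm_num⟩⟩
  exact dir_scale 0 0 hz

theorem exc_zero3 {f : A10} {i : ℕ} (hi : i ≤ 3) (hf : f.IsHomogeneous i)
    (hz : ∀ a, Dir a → eval a f = 0) : coeff exc3 f = 0 := by
  apply coeff_zero_of_point f apt3 (hz _ dir_apt3)
  · intro a ha
    have h : a = ix 5 1 ∨ a = ix 9 4 ∨ a = ix 7 5 := by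
      by_contra hcon
      push Not at hcon
      apply ha
      rw [exc3, Finsupp.add_apply, Finsupp.add_apply, Finsupp.single_apply, Finsupp.single_apply,
        Finsupp.single_apply, if_neg hcon.1.symm, if_neg hcon.2.1.symm, if_neg hcon.2.2.symm]
      rfl
    rcases h with rfl | rfl | rfl
    · rw [apt3, p51]; norm_num
    · rw [apt3, p94]; norm_num
    · rw [apt3, p75]; norm_num
  · intro d hd hne h0
    have hdeg : d.degree ≤ 3 := by
      have h1 : d.degree = i := by
        by_contra h
        exact (mem_support_iff.mp hd) (hf.coeff_eq_zero h)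
      omega
    have hg : Good d := by
      refine ⟨?_, ?_⟩
      · intro b hb
        simp only [linS, Finset.mem_insert, Finset.mem_singleton] at hb
        rcases hb with rfl | rfl | rfl | rfl
        · exact h0 _ (by rw [apt3, p20])
        · exact h0 _ (by rw [apt3, p21])
        · exact h0 _ (by rw [apt3, p70])
        · exact h0 _ (by rw [apt3, p91])
      · intro e he
        simp only [edgS, Finset.mem_insert, Finset.mem_singleton] at he
        rcases he with rfl | rfl | rfl | rfl | rfl | rfl | rfl
        · left; exact h0 _ (by rw [apt3, p90])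
        · left; exact h0 _ (by rw [apt3, p90])
        · right; exact h0 _ (by rw [apt3, p71])
        · right; exact h0 _ (by rw [apt3, p90])
        · right; exact h0 _ (by rw [apt3, p71])
        · left; exact h0 _ (by rw [apt3, p90])
        · right; exact h0 _ (by rw [apt3, p71])
    rcases cov_main d hdeg hg with h | h | h | h | h
    · exact cov_zero hz h
    · exfalso
      have h1 : d (ix 9 6) = 0 := h0 _ (by rw [apt3, p96])
      rw [h, exc0, Finsupp.add_apply, Finsupp.add_apply] at h1
      rw [Finsupp.single_eq_same] at h1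
      omega
    · exfalso
      have h1 : d (ix 9 6) = 0 := h0 _ (by rw [apt3, p96])
      rw [h, exc1, Finsupp.add_apply, Finsupp.add_apply] at h1
      rw [Finsupp.single_eq_same] at h1
      omega
    · exfalso
      have h1 : d (ix 5 0) = 0 := h0 _ (by rw [apt3, p50])
      rw [h, exc2, Finsupp.add_apply, Finsupp.add_apply] at h1
      rw [Finsupp.single_eq_same] at h1
      omega
    · exact absurd h hne

theorem lower {i : ℕ} (hi : i ≤ 3) {f : A10} (hf : f.IsHomogeneous i) {g : A10}
    (hg : g ∈ M0 ^ (i + 1)) (hfg : f + g ∈ I0) {s : Low 10 →₀ ℕ} (hd : s.degree = i)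
    (hs : Good s) : coeff s f = 0 := by
  have hz : ∀ a, Dir a → eval a f = 0 := fun a ha => dir_vanish hf hg hfg ha
  rcases cov_main s (by omega) hs with h | rfl | rfl | rfl | rfl
  · exact cov_zero hz h
  · exact exc_zero0 hi hf hz
  · exact exc_zero1 hi hf hz
  · exact exc_zero2 hi hf hz
  · exact exc_zero3 hi hf hz

end Pool.Agent.W442.SV
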