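import Mathlib
import Pool.Agent.W442.SV.Lower
import Pool.Agent.W442.SV.Cnt

open MvPolynomial Filter Topology

set_option linter.unusedSimpArgs false

namespace Pool.Agent.W442.SV

theorem zero_mem_patch : (0 : Low 10 → ℂ) ∈ patch v0 w0 := by
  have hz : Zc 0 0 0 0 0 0 0 0 0 0 0 0 0 0 0 0 :=
    ⟨⟨1, 0, Or.inl one_ne_zero, by norm_num, by norm_num, by norm_num⟩,
      ⟨1, 0, Or.inl one_ne_zero, by norm_num, by norm_num, by norm_num⟩,
      ⟨1, 0, Or.inl one_ne_zero, by norm_num, by norm_num, by norm_num⟩⟩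
  have h1 := mem_patch 0 0 hz
  simp only [mul_zero, add_zero] at h1
  have h2 : (0 : Low 10 → ℂ) = pt 0 0 0 0 0 0 0 0 0 0 0 0 0 0 0 0 0 0 0 := by
    have h3 := smul_pt 0 0 0 0 0 0 0 0 0 0 0 0 0 0 0 0 0 0 0 0
    rw [zero_smul] at h3
    simp only [mul_zero] at h3
    exact h3
  rw [h2]
  exact h1

theorem I0_le : I0 ≤ M0 := by
  intro f hf
  exact mem_vanishingIdeal_iff.mp hf 0 zero_mem_patch

theorem hilb_eq (i : ℕ) (hi : i ≤ 3) : hilb v0 w0 i = (NN i).card :=
  Pool.Agent.W308.SV.main (Low 10) I0 I0_le i (NN i) (fun s hs => ((mem_NN i s).mp hs).1)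
    (fun s hd hs => by
      have h := upper s (fun hg => hs ((mem_NN i s).mpr ⟨hd, hg⟩))
      rw [hd] at h
      exact h)
    (fun _ hf _ hg hfg s hs =>
      lower hi hf hg hfg ((mem_NN i s).mp hs).1 ((mem_NN i s).mp hs).2)
    (mx v0 w0) rfl

theorem coeff_step (g : PowerSeries ℤ) (i : ℕ) :
    PowerSeries.coeff (i + 1) ((1 - PowerSeries.X) * g) =
      PowerSeries.coeff (i + 1) g - PowerSeries.coeff i g := by
  rw [sub_mul, one_mul, map_sub, PowerSeries.coeff_succ_X_mul]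

theorem coeff_step0 (g : PowerSeries ℤ) :
    PowerSeries.coeff 0 ((1 - PowerSeries.X) * g) = PowerSeries.coeff 0 g := by
  rw [sub_mul, one_mul, map_sub, PowerSeries.coeff_zero_X_mul, sub_zero]

theorem coeff_pow (f : PowerSeries ℤ) (n : ℕ) :
    PowerSeries.coeff 0 ((1 - PowerSeries.X) ^ n * f) = PowerSeries.coeff 0 f ∧
    PowerSeries.coeff 1 ((1 - PowerSeries.X) ^ n * f) =
      PowerSeries.coeff 1 f - n * PowerSeries.coeff 0 f ∧
    PowerSeries.coeff 2 ((1 - PowerSeries.X) ^ n * f) =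
      PowerSeries.coeff 2 f - n * PowerSeries.coeff 1 f + n.choose 2 * PowerSeries.coeff 0 f ∧
    PowerSeries.coeff 3 ((1 - PowerSeries.X) ^ n * f) =
      PowerSeries.coeff 3 f - n * PowerSeries.coeff 2 f + n.choose 2 * PowerSeries.coeff 1 f -
        n.choose 3 * PowerSeries.coeff 0 f := by
  induction n with
  | zero => simp
  | succ n ih =>
    obtain ⟨h0, h1, h2, h3⟩ := ih
    have e : ((1 : PowerSeries ℤ) - PowerSeries.X) ^ (n + 1) * f =
        (1 - PowerSeries.X) * ((1 - PowerSeries.X) ^ n * f) := by ring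
    have c2 : (n + 1).choose 2 = n + n.choose 2 := by
      rw [Nat.choose_succ_succ' n 1, Nat.choose_one_right]
    have c3 : (n + 1).choose 3 = n.choose 2 + n.choose 3 := Nat.choose_succ_succ' n 2
    rw [e, coeff_step0, coeff_step _ 0, coeff_step _ 1, coeff_step _ 2, c2, c3, h0]
    refine ⟨rfl, ?_, ?_, ?_⟩
    · rw [zero_add, h1]
      push_cast
      ring
    · rw [one_add_one_eq_two, h2, h1]
      push_cast
      ring
    · rw [show (2 + 1 : ℕ) = 3 from rfl, h2, h3]
      push_cast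
      ring

theorem hcoeff_zero : hcoeff v0 w0 0 = 1 := by
  rw [hcoeff, (coeff_pow _ _).1, PowerSeries.coeff_mk, hilb_eq 0 (by norm_num), card_NN_zero]
  norm_num

theorem hcoeff_one : hcoeff v0 w0 1 = 4 := by
  rw [hcoeff, (coeff_pow _ _).2.1, PowerSeries.coeff_mk, PowerSeries.coeff_mk,
    hilb_eq 0 (by norm_num), hilb_eq 1 (by norm_num), card_NN_zero, card_NN_one, len_w0]
  norm_num

theorem hcoeff_two : hcoeff v0 w0 2 = 3 := by
  rw [hcoeff, (coeff_pow _ _).2.2.1, PowerSeries.coeff_mk, PowerSeries.coeff_mk,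
    PowerSeries.coeff_mk, hilb_eq 0 (by norm_num), hilb_eq 1 (by norm_num),
    hilb_eq 2 (by norm_num), card_NN_zero, card_NN_one, card_NN_two, len_w0]
  norm_num [Nat.choose]

theorem hcoeff_three : hcoeff v0 w0 3 = 4 := by
  rw [hcoeff, (coeff_pow _ _).2.2.2, PowerSeries.coeff_mk, PowerSeries.coeff_mk,
    PowerSeries.coeff_mk, PowerSeries.coeff_mk, hilb_eq 0 (by norm_num), hilb_eq 1 (by norm_num),
    hilb_eq 2 (by norm_num), hilb_eq 3 (by norm_num), card_NN_zero, card_NN_one, card_NN_two,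
    card_NN_three, len_w0]
  norm_num [Nat.choose]

end Pool.Agent.W442.SV
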